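import Pool.Agent.Work.MP_9999b5_mq.Interface

set_option autoImplicit false

namespace Pool.MMq

open Finset Pool.MM15

theorem ORB_card_iv (n a b : ℕ) (hb : b ≤ n) : (iv n a b).card = b - a := by
  have h : (iv n a b).map Fin.valEmbedding = Finset.Ico a b := by
    ext x
    simp only [iv, Finset.mem_map, Finset.mem_filter, Finset.mem_univ, true_and,
      Fin.valEmbedding_apply, Finset.mem_Ico]
    constructor
    · rintro ⟨y, hy, rfl⟩
      exact hy
    · intro hx
      exact ⟨⟨x, by omega⟩, hx, rfl⟩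
  rw [← Finset.card_map Fin.valEmbedding, h, Nat.card_Ico]

theorem ORB_disj (n a b c d : ℕ) (h : b ≤ c ∨ d ≤ a) : Disjoint (iv n a b) (iv n c d) := by
  rw [Finset.disjoint_left]
  intro x hx hy
  simp only [iv, Finset.mem_filter, Finset.mem_univ, true_and] at hx hy
  omega

/-- A permutation supported in `P` which maps `A` to `J`. -/
theorem ORB_perm {α : Type} [Fintype α] [DecidableEq α] (P A J : Finset α) (hA : A ⊆ P)
    (hJ : J ⊆ P) (h : A.card = J.card) :
    ∃ π : Equiv.Perm α, A.map π.toEmbedding = J ∧ P.map π.toEmbedding = P ∧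
      ∀ x, x ∉ P → π x = x := by
  classical
  let A' : Finset {x // x ∈ P} := A.subtype (fun x => x ∈ P)
  let J' : Finset {x // x ∈ P} := J.subtype (fun x => x ∈ P)
  have hcard : A'.card = J'.card := by
    have h1 : A'.card = A.card := by
      rw [Finset.card_subtype, Finset.filter_true_of_mem (fun x hx => hA hx)]
    have h2 : J'.card = J.card := by
      rw [Finset.card_subtype, Finset.filter_true_of_mem (fun x hx => hJ hx)]
    rw [h1, h2, h]
  let e : {x // x ∈ A'} ≃ {x // x ∈ J'} := Finset.equivOfCardEq hcard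
  let σ : Equiv.Perm {x // x ∈ P} := e.extendSubtype
  let π : Equiv.Perm α := Equiv.Perm.ofSubtype σ
  have hmem : ∀ (x : α) (hx : x ∈ P), π x = (σ ⟨x, hx⟩ : α) := fun x hx =>
    Equiv.Perm.ofSubtype_apply_of_mem σ hx
  refine ⟨π, ?_, ?_, ?_⟩
  · apply Finset.eq_of_subset_of_card_le
    · intro y hy
      rw [Finset.mem_map] at hy
      obtain ⟨x, hx, rfl⟩ := hy
      have h1 : (⟨x, hA hx⟩ : {x // x ∈ P}) ∈ A' := by
        simp only [A', Finset.mem_subtype]
        exact hx
      have h2 : σ ⟨x, hA hx⟩ ∈ J' := e.extendSubtype_mem _ h1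
      simp only [J', Finset.mem_subtype] at h2
      simp only [Equiv.coe_toEmbedding]
      rw [hmem x (hA hx)]
      exact h2
    · rw [Finset.card_map, h]
  · apply Finset.eq_of_subset_of_card_le
    · intro y hy
      rw [Finset.mem_map] at hy
      obtain ⟨x, hx, rfl⟩ := hy
      simp only [Equiv.coe_toEmbedding]
      rw [hmem x hx]
      exact (σ ⟨x, hx⟩).2
    · rw [Finset.card_map]
  · intro x hx
    exact Equiv.Perm.ofSubtype_apply_of_not_mem σ hx

theorem ORB_map_id {α : Type} [DecidableEq α] (B : Finset α) (π : Equiv.Perm α)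
    (h : ∀ x ∈ B, π x = x) : B.map π.toEmbedding = B := by
  ext y
  simp only [Finset.mem_map, Equiv.coe_toEmbedding]
  constructor
  · rintro ⟨x, hx, rfl⟩
    rw [h x hx]
    exact hx
  · intro hy
    exact ⟨y, hy, h y hy⟩

theorem ORB_im_mul {N : ℕ} (I : Finset (Fin N)) (s π : Equiv.Perm (Fin N)) :
    im I (s * π) = im (I.map π.toEmbedding) s := by
  unfold im
  rw [Finset.map_map]
  congr 1

theorem ORB_shift {N : ℕ} (P P' A A' J J' : Finset (Fin N)) (hd : Disjoint P P')
    (hA : A ⊆ P) (hJ : J ⊆ P) (hA' : A' ⊆ P') (hJ' : J' ⊆ P') (h : A.card = J.card)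
    (h' : A'.card = J'.card) (F₁ F₂ : Finset (Fin N) → Finset (Fin N) → ℝ) :
    ∑ s : Equiv.Perm (Fin N), F₁ (im A s) (im P s) * F₂ (im A' s) (im P' s) =
      ∑ s : Equiv.Perm (Fin N), F₁ (im J s) (im P s) * F₂ (im J' s) (im P' s) := by
  obtain ⟨π, h1, h2, h3⟩ := ORB_perm P A J hA hJ h
  obtain ⟨ρ, g1, g2, g3⟩ := ORB_perm P' A' J' hA' hJ' h'
  have hπP' : ∀ x ∈ P', π x = x := fun x hx =>
    h3 x (fun hx' => (Finset.disjoint_left.1 hd hx' hx))
  have hρP : ∀ x ∈ P, ρ x = x := fun x hx =>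
    g3 x (fun hx' => (Finset.disjoint_left.1 hd hx hx'))
  rw [← Equiv.sum_comp (Equiv.mulRight (π * ρ))]
  apply Finset.sum_congr rfl
  intro s _
  have e0 : (Equiv.mulRight (π * ρ)) s = (s * π) * ρ := by
    simp [mul_assoc]
  rw [e0]
  have e1 : im A (s * π * ρ) = im J s := by
    rw [ORB_im_mul, ORB_map_id A ρ (fun x hx => hρP x (hA hx)), ORB_im_mul, h1]
  have e2 : im P (s * π * ρ) = im P s := by
    rw [ORB_im_mul, ORB_map_id P ρ hρP, ORB_im_mul, h2]
  have e3 : im A' (s * π * ρ) = im J' s := by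
    rw [ORB_im_mul, g1, ORB_im_mul, ORB_map_id J' π (fun x hx => hπP' x (hJ' hx))]
  have e4 : im P' (s * π * ρ) = im P' s := by
    rw [ORB_im_mul, g2, ORB_im_mul, ORB_map_id P' π hπP']
  rw [e1, e2, e3, e4]

theorem ORB_main {N : ℕ} (k : ℕ) (P P' A A' : Finset (Fin N)) (hd : Disjoint P P')
    (hA : A ⊆ P) (hA' : A' ⊆ P') (h : A.card = k) (h' : A'.card = k)
    (F₁ F₂ : Finset (Fin N) → Finset (Fin N) → ℝ) :
    (P.card.choose k : ℝ) * (P'.card.choose k : ℝ) *
      ∑ s : Equiv.Perm (Fin N), F₁ (im A s) (im P s) * F₂ (im A' s) (im P' s) =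
    ∑ s : Equiv.Perm (Fin N),
      (∑ B ∈ (im P s).powersetCard k, F₁ B (im P s)) *
      (∑ B ∈ (im P' s).powersetCard k, F₂ B (im P' s)) := by
  have hpow : ∀ (Q : Finset (Fin N)) (s : Equiv.Perm (Fin N)) (F : Finset (Fin N) → ℝ),
      ∑ B ∈ (im Q s).powersetCard k, F B = ∑ J ∈ Q.powersetCard k, F (im J s) := by
    intro Q s F
    unfold im
    rw [Finset.powersetCard_map, Finset.sum_map]
    rfl
  have h1 : ∀ s : Equiv.Perm (Fin N),
      (∑ B ∈ (im P s).powersetCard k, F₁ B (im P s)) *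
        (∑ B ∈ (im P' s).powersetCard k, F₂ B (im P' s)) =
      ∑ J ∈ P.powersetCard k, ∑ J' ∈ P'.powersetCard k,
        F₁ (im J s) (im P s) * F₂ (im J' s) (im P' s) := by
    intro s
    rw [hpow P s (fun B => F₁ B (im P s)), hpow P' s (fun B => F₂ B (im P' s)),
      Finset.sum_mul_sum]
  rw [Finset.sum_congr rfl (fun s _ => h1 s), Finset.sum_comm]
  have h2 : ∀ J ∈ P.powersetCard k,
      ∑ s : Equiv.Perm (Fin N), ∑ J' ∈ P'.powersetCard k,
        F₁ (im J s) (im P s) * F₂ (im J' s) (im P' s) =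
      (P'.card.choose k : ℝ) *
        ∑ s : Equiv.Perm (Fin N), F₁ (im A s) (im P s) * F₂ (im A' s) (im P' s) := by
    intro J hJ
    rw [Finset.mem_powersetCard] at hJ
    rw [Finset.sum_comm]
    have h3 : ∀ J' ∈ P'.powersetCard k,
        ∑ s : Equiv.Perm (Fin N), F₁ (im J s) (im P s) * F₂ (im J' s) (im P' s) =
        ∑ s : Equiv.Perm (Fin N), F₁ (im A s) (im P s) * F₂ (im A' s) (im P' s) := by
      intro J' hJ'
      rw [Finset.mem_powersetCard] at hJ'
      exact (ORB_shift P P' A A' J J' hd hA hJ.1 hA' hJ'.1 (by rw [h, hJ.2])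
        (by rw [h', hJ'.2]) F₁ F₂).symm
    rw [Finset.sum_congr rfl h3, Finset.sum_const, Finset.card_powersetCard, nsmul_eq_mul]
  rw [Finset.sum_congr rfl h2, Finset.sum_const, Finset.card_powersetCard, nsmul_eq_mul]
  ring

theorem p_ORB : Stmt_ORB := by
  intro N k hk hN F₁ F₂
  have c0 : (blk N k 0).card = k := by
    unfold blk
    rw [ORB_card_iv N _ _ (by omega)]
    omega
  have c1 : (blk N k 1).card = k := by
    unfold blk
    rw [ORB_card_iv N _ _ (by omega)]
    omega
  have c2 : (blk N k 2).card = k := by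
    unfold blk
    rw [ORB_card_iv N _ _ (by omega)]
    omega
  have c3 : (ra N k).card = k - 1 := by
    unfold ra
    rw [ORB_card_iv N _ _ (by omega)]
    omega
  have d03 : Disjoint (blk N k 0) (ra N k) := by
    unfold blk ra
    exact ORB_disj N _ _ _ _ (Or.inl (by omega))
  have d12 : Disjoint (blk N k 1) (blk N k 2) := by
    unfold blk
    exact ORB_disj N _ _ _ _ (Or.inl (by omega))
  have d01 : Disjoint (blk N k 0) (blk N k 1) := by
    unfold blk
    exact ORB_disj N _ _ _ _ (Or.inl (by omega))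
  have d02 : Disjoint (blk N k 0) (blk N k 2) := by
    unfold blk
    exact ORB_disj N _ _ _ _ (Or.inl (by omega))
  have d31 : Disjoint (ra N k) (blk N k 1) := by
    unfold blk ra
    exact ORB_disj N _ _ _ _ (Or.inr (by omega))
  have d32 : Disjoint (ra N k) (blk N k 2) := by
    unfold blk ra
    exact ORB_disj N _ _ _ _ (Or.inr (by omega))
  have hd : Disjoint (blk N k 0 ∪ ra N k) (blk N k 1 ∪ blk N k 2) := by
    rw [Finset.disjoint_union_left, Finset.disjoint_union_right, Finset.disjoint_union_right]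
    exact ⟨⟨d01, d02⟩, ⟨d31, d32⟩⟩
  have hP : (blk N k 0 ∪ ra N k).card = 2 * k - 1 := by
    rw [Finset.card_union_of_disjoint d03, c0, c3]
    omega
  have hP' : (blk N k 1 ∪ blk N k 2).card = 2 * k := by
    rw [Finset.card_union_of_disjoint d12, c1, c2]
    omega
  have key := ORB_main k (blk N k 0 ∪ ra N k) (blk N k 1 ∪ blk N k 2) (blk N k 0) (blk N k 1) hd
    Finset.subset_union_left Finset.subset_union_left c0 c1 F₁ F₂
  rw [hP, hP'] at key
  exact key

end Pool.MMq
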