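import Pool.Agent.Work.MP_9999b5_mq.Interface2
import Pool.Agent.Work.MP_9999b5_mq.ORB
import Pool.Agent.Work.MP_9999b5_mm.EXC

set_option autoImplicit false

/-! Block BL (typed by helper76): `2 lam ≤ 3 ∑ b1 + 2 (p0 + pp)`. -/

namespace Pool.MMq

open Finset Pool.MM15 Pool.Agent.Work.MaxSums

open Classical in
theorem BL_cnt {N : ℕ} (P : Equiv.Perm (Fin N) → Prop) :
    cnt P = ∑ s : Equiv.Perm (Fin N), (if P s then (1 : ℝ) else 0) := by
  unfold cnt
  rw [Finset.card_filter]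
  push_cast
  rfl

theorem BL_sum_im {N : ℕ} (x : Fin N → ℝ) (I : Finset (Fin N)) (s : Equiv.Perm (Fin N)) :
    ∑ i ∈ im I s, x i = sm x I s := by
  unfold im sm
  rw [Finset.sum_map]
  rfl

theorem BL_card_im {N : ℕ} (I : Finset (Fin N)) (s : Equiv.Perm (Fin N)) :
    (im I s).card = I.card := by
  unfold im
  rw [Finset.card_map]

theorem BL_im_sdiff {N : ℕ} (I J : Finset (Fin N)) (h : Disjoint I J) (s : Equiv.Perm (Fin N)) :
    im (I ∪ J) s \ im I s = im J s := by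
  unfold im
  rw [← Finset.map_sdiff, Finset.union_sdiff_cancel_left h]

open Classical in
theorem BL_first (hORB : Stmt_ORB) {k T N : ℕ} {x : Fin N → ℝ} {a : ℝ} (hS : Sit k T N x a) :
    ∑ s : Equiv.Perm (Fin N), b1 x a k s =
      cnt (fun s => sm x (blk N k 0) s ≤ 0 ∧ sa x a k s ≤ 0) := by
  have hk := hS.two
  have hN := hS.hN
  have hC1 : (0 : ℝ) < ((2 * k - 1).choose k : ℝ) := by
    exact_mod_cast Nat.choose_pos (by omega : k ≤ 2 * k - 1)
  have hC2 : (0 : ℝ) < ((2 * k).choose k : ℝ) := by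
    exact_mod_cast Nat.choose_pos (by omega : k ≤ 2 * k)
  have d01 : Disjoint (blk N k 0) (ra N k) := by
    unfold blk ra
    exact ORB_disj _ _ _ _ _ (Or.inl (by omega))
  have d12 : Disjoint (blk N k 1) (blk N k 2) := by
    unfold blk
    exact ORB_disj _ _ _ _ _ (Or.inl (by omega))
  have c12 : (blk N k 1 ∪ blk N k 2).card = 2 * k := by
    rw [Finset.card_union_of_disjoint d12]
    unfold blk
    rw [ORB_card_iv _ _ _ (by omega), ORB_card_iv _ _ _ (by omega)]
    omega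
  have h := hORB N k hk (by omega)
    (fun B W => if (∑ i ∈ B, x i ≤ 0 ∧ a + ∑ i ∈ W \ B, x i ≤ 0) then 1 else 0) (fun _ _ => 1)
  have hl : ∑ s : Equiv.Perm (Fin N), (fun B W => if (∑ i ∈ B, x i ≤ 0 ∧
      a + ∑ i ∈ W \ B, x i ≤ 0) then (1 : ℝ) else 0) (im (blk N k 0) s)
        (im (blk N k 0 ∪ ra N k) s) * (fun _ _ => (1 : ℝ)) (im (blk N k 1) s)
        (im (blk N k 1 ∪ blk N k 2) s) =
      cnt (fun s => sm x (blk N k 0) s ≤ 0 ∧ sa x a k s ≤ 0) := by
    rw [BL_cnt]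
    refine Finset.sum_congr rfl fun s _ => ?_
    simp only [mul_one]
    rw [BL_im_sdiff _ _ d01, BL_sum_im, BL_sum_im]
    unfold sa
    by_cases hP : sm x (blk N k 0) s ≤ 0 ∧ a + sm x (ra N k) s ≤ 0
    · rw [if_pos hP, if_pos hP]
    · rw [if_neg hP, if_neg hP]
  have hr : ∀ s : Equiv.Perm (Fin N),
      (∑ B ∈ (im (blk N k 0 ∪ ra N k) s).powersetCard k, (fun B W => if (∑ i ∈ B, x i ≤ 0 ∧
        a + ∑ i ∈ W \ B, x i ≤ 0) then (1 : ℝ) else 0) B (im (blk N k 0 ∪ ra N k) s)) *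
      (∑ B ∈ (im (blk N k 1 ∪ blk N k 2) s).powersetCard k,
        (fun _ _ => (1 : ℝ)) B (im (blk N k 1 ∪ blk N k 2) s)) =
      ((2 * k - 1).choose k : ℝ) * ((2 * k).choose k : ℝ) * b1 x a k s := by
    intro s
    have e1 : ∑ B ∈ (im (blk N k 0 ∪ ra N k) s).powersetCard k, (fun B W => if (∑ i ∈ B, x i ≤ 0 ∧
        a + ∑ i ∈ W \ B, x i ≤ 0) then (1 : ℝ) else 0) B (im (blk N k 0 ∪ ra N k) s) =
        ba x a (im (blk N k 0 ∪ ra N k) s) k := by
      unfold ba
      rw [Finset.card_filter]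
      push_cast
      refine Finset.sum_congr rfl fun B _ => ?_
      congr
      exact Subsingleton.elim _ _
    have e2 : ∑ B ∈ (im (blk N k 1 ∪ blk N k 2) s).powersetCard k,
        (fun _ _ => (1 : ℝ)) B (im (blk N k 1 ∪ blk N k 2) s) = ((2 * k).choose k : ℝ) := by
      simp only [Finset.sum_const, nsmul_eq_mul, mul_one]
      rw [Finset.card_powersetCard, BL_card_im, c12]
    rw [e1, e2]
    unfold b1
    field_simp
  rw [hl, Finset.sum_congr rfl fun s _ => hr s, ← Finset.mul_sum] at h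
  exact (mul_left_cancel₀ (mul_pos hC1 hC2).ne' h).symm

open Classical in
theorem BL_split {N : ℕ} (x : Fin N → ℝ) (a : ℝ) (k : ℕ) :
    lam x a k ≤ p0 x a k + pp x a k +
      (cnt (fun s => sa x a k s ≤ 0 ∧ 0 < sm x (blk N k 0) s ∧ sm x (blk N k 1) s ≤ 0 ∧
        sm x (blk N k 2) s ≤ 0) +
       cnt (fun s => sa x a k s ≤ 0 ∧ 0 < sm x (blk N k 1) s ∧ sm x (blk N k 0) s ≤ 0 ∧
        sm x (blk N k 2) s ≤ 0) +
       cnt (fun s => sa x a k s ≤ 0 ∧ 0 < sm x (blk N k 2) s ∧ sm x (blk N k 1) s ≤ 0 ∧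
        sm x (blk N k 0) s ≤ 0)) := by
  unfold lam p0 pp
  rw [BL_cnt, BL_cnt, BL_cnt, BL_cnt, BL_cnt, BL_cnt, ← Finset.sum_add_distrib,
    ← Finset.sum_add_distrib, ← Finset.sum_add_distrib, ← Finset.sum_add_distrib]
  refine Finset.sum_le_sum fun s _ => ?_
  have hnn : nn x k 3 s = (if 0 < sm x (blk N k 0) s then 1 else 0) +
      (if 0 < sm x (blk N k 1) s then 1 else 0) + (if 0 < sm x (blk N k 2) s then 1 else 0) := by
    unfold nn
    rw [Finset.card_filter, Finset.sum_range_succ, Finset.sum_range_succ, Finset.sum_range_succ,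
      Finset.sum_range_zero]
    simp
  unfold jj
  rw [hnn]
  by_cases ha : sa x a k s ≤ 0 <;> by_cases h0 : 0 < sm x (blk N k 0) s <;>
    by_cases h1 : 0 < sm x (blk N k 1) s <;> by_cases h2 : 0 < sm x (blk N k 2) s <;>
    simp [ha, h0, h1, h2, not_lt.2, not_le.2, not_lt.1, not_le.1]

theorem BL_exc {k T N : ℕ} {x : Fin N → ℝ} {a : ℝ} (hS : Sit k T N x a) (c d e : ℕ)
    (hcd : c ≠ d) (hce : c ≠ e) (hde : d ≠ e) (hc : c < 3) (hd : d < 3) (he : e < 3) :
    cnt (fun s => sa x a k s ≤ 0 ∧ 0 < sm x (blk N k 0) s ∧ sm x (blk N k 1) s ≤ 0 ∧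
        sm x (blk N k 2) s ≤ 0) =
      cnt (fun s => sa x a k s ≤ 0 ∧ 0 < sm x (blk N k c) s ∧ sm x (blk N k d) s ≤ 0 ∧
        sm x (blk N k e) s ≤ 0) := by
  have hk := hS.two
  have hN := hS.hN
  have card : ∀ c, c < 3 → (blk N k c).card = k := by
    intro c hc
    unfold blk
    have h1 : (c + 1) * k ≤ 3 * k := Nat.mul_le_mul_right _ hc
    rw [ORB_card_iv _ _ _ (by omega), add_mul, one_mul, Nat.add_sub_cancel_left]
  have dis : ∀ c d, c ≠ d → Disjoint (blk N k c) (blk N k d) := by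
    intro c d h
    unfold blk
    rcases lt_or_gt_of_ne h with h | h
    · exact ORB_disj _ _ _ _ _ (Or.inl (Nat.mul_le_mul_right _ h))
    · exact ORB_disj _ _ _ _ _ (Or.inr (Nat.mul_le_mul_right _ h))
  have disr : ∀ c, c < 3 → Disjoint (ra N k) (blk N k c) := by
    intro c hc
    unfold blk ra
    have h1 : (c + 1) * k ≤ 3 * k := Nat.mul_le_mul_right _ hc
    exact ORB_disj _ _ _ _ _ (Or.inr h1)
  have fam : ∀ c d e : ℕ, c ≠ d → c ≠ e → d ≠ e → c < 3 → d < 3 → e < 3 →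
      ∀ u v : Fin 4, u ≠ v → Disjoint
        ((![ra N k, blk N k c, blk N k d, blk N k e] : Fin 4 → Finset (Fin N)) u)
        ((![ra N k, blk N k c, blk N k d, blk N k e] : Fin 4 → Finset (Fin N)) v) := by
    intro c d e hcd hce hde hc hd he u v huv
    fin_cases u <;> fin_cases v <;> simp at huv ⊢
    · exact disr c hc
    · exact disr d hd
    · exact disr e he
    · exact (disr c hc).symm
    · exact dis c d hcd
    · exact dis c e hce
    · exact (disr d hd).symm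
    · exact dis d c hcd.symm
    · exact dis d e hde
    · exact (disr e he).symm
    · exact dis e c hce.symm
    · exact dis e d hde.symm
  have h := stmt_EXC N x (Fin 4) ![ra N k, blk N k 0, blk N k 1, blk N k 2]
    ![ra N k, blk N k c, blk N k d, blk N k e]
    (fam 0 1 2 (by omega) (by omega) (by omega) (by omega) (by omega) (by omega))
    (fam c d e hcd hce hde hc hd he)
    (by
      intro u
      fin_cases u
      · rfl
      · exact (card 0 (by omega)).trans (card c hc).symm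
      · exact (card 1 (by omega)).trans (card d hd).symm
      · exact (card 2 (by omega)).trans (card e he).symm)
    (fun f => a + f 0 ≤ 0 ∧ 0 < f 1 ∧ f 2 ≤ 0 ∧ f 3 ≤ 0)
  exact h

theorem p_BL : Stmt_ORB → Stmt_BL := by
  classical
  intro hORB k T N x a hS
  have h1 := BL_first hORB hS
  have h2 := BL_split x a k
  have h3 := BL_exc hS 1 0 2 (by omega) (by omega) (by omega) (by omega) (by omega) (by omega)
  have h4 := BL_exc hS 2 1 0 (by omega) (by omega) (by omega) (by omega) (by omega) (by omega)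
  have h5 : cnt (fun s => sa x a k s ≤ 0 ∧ 0 < sm x (blk N k 1) s ∧ sm x (blk N k 0) s ≤ 0 ∧
        sm x (blk N k 2) s ≤ 0) +
       cnt (fun s => sa x a k s ≤ 0 ∧ 0 < sm x (blk N k 2) s ∧ sm x (blk N k 1) s ≤ 0 ∧
        sm x (blk N k 0) s ≤ 0) ≤
      cnt (fun s => sm x (blk N k 0) s ≤ 0 ∧ sa x a k s ≤ 0) := by
    rw [BL_cnt, BL_cnt, BL_cnt, ← Finset.sum_add_distrib]
    refine Finset.sum_le_sum fun s _ => ?_
    by_cases ha : sa x a k s ≤ 0 <;> by_cases h0 : 0 < sm x (blk N k 0) s <;>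
      by_cases h1 : 0 < sm x (blk N k 1) s <;> by_cases h2 : 0 < sm x (blk N k 2) s <;>
      simp [ha, h0, h1, h2, not_lt.2, not_le.2, not_lt.1, not_le.1]
  rw [h1]
  linarith

end Pool.MMq
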