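import Pool.Agent.Work.MP_9999b5_mq.Interface2
import Pool.Agent.Work.MP_9999b5_mm.LOC

set_option autoImplicit false

namespace Pool.MMq

open Finset Pool.MM15 Pool.Agent.Work.MaxSums

theorem EGY_im {N : ℕ} (x : Fin N → ℝ) (I : Finset (Fin N)) (s : Equiv.Perm (Fin N)) :
    ∑ i ∈ im I s, x i = sm x I s := by
  unfold im sm
  rw [Finset.sum_map]
  rfl

theorem EGY_ba_nonneg {α : Type} (x : α → ℝ) (a : ℝ) (W : Finset α) (k : ℕ) :
    0 ≤ ba x a W k := by
  unfold ba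
  exact Nat.cast_nonneg _

theorem EGY_bb_nonneg {α : Type} (x : α → ℝ) (U : Finset α) (k : ℕ) : 0 ≤ bb x U k := by
  unfold bb
  exact Nat.cast_nonneg _

theorem EGY_ba_le {α : Type} (x : α → ℝ) (a : ℝ) (W : Finset α) (k : ℕ) :
    ba x a W k ≤ (W.card.choose k : ℝ) := by
  classical
  unfold ba
  rw [← Finset.card_powersetCard k W]
  exact_mod_cast Finset.card_filter_le _ _

theorem EGY_bb_le {α : Type} (x : α → ℝ) (U : Finset α) (k : ℕ) :
    bb x U k ≤ (U.card.choose k : ℝ) := by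
  classical
  unfold bb
  rw [← Finset.card_powersetCard k U]
  exact_mod_cast Finset.card_filter_le _ _

theorem EGY_ba_low {α : Type} (x : α → ℝ) (a : ℝ) (W : Finset α) (k : ℕ) (h : 0 < ba x a W k) :
    a + ∑ i ∈ W, x i ≤ 0 := by
  classical
  unfold ba at h
  have h1 := Finset.card_pos.1 (Nat.cast_pos.1 h)
  obtain ⟨B, hB⟩ := h1
  obtain ⟨hB1, hB2, hB3⟩ := Finset.mem_filter.1 hB
  have h2 := Finset.sum_sdiff (f := x) (Finset.mem_powersetCard.1 hB1).1
  linarith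

theorem EGY_bb_low {α : Type} (x : α → ℝ) (U : Finset α) (k : ℕ) (h : 0 < bb x U k) :
    ∑ i ∈ U, x i ≤ 0 := by
  classical
  unfold bb at h
  have h1 := Finset.card_pos.1 (Nat.cast_pos.1 h)
  obtain ⟨B, hB⟩ := h1
  obtain ⟨hB1, hB2, hB3⟩ := Finset.mem_filter.1 hB
  have h2 := Finset.sum_sdiff (f := x) (Finset.mem_powersetCard.1 hB1).1
  linarith

theorem EGY_card1 {k T N : ℕ} {x : Fin N → ℝ} {a : ℝ} (h : Sit k T N x a)
    (s : Equiv.Perm (Fin N)) : (im (blk N k 0 ∪ ra N k) s).card = 2 * k - 1 := by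
  have h1 := h.two
  have h2 := h.hN
  unfold im
  rw [Finset.card_map, Finset.card_union_of_disjoint, LOC.blk_card (by omega), ra,
    LOC.iv_card (by omega)]
  · omega
  · unfold blk ra
    exact LOC.iv_disj (by omega)

theorem EGY_card2 {k T N : ℕ} {x : Fin N → ℝ} {a : ℝ} (h : Sit k T N x a)
    (s : Equiv.Perm (Fin N)) : (im (blk N k 1 ∪ blk N k 2) s).card = 2 * k := by
  have h1 := h.two
  have h2 := h.hN
  unfold im
  rw [Finset.card_map, Finset.card_union_of_disjoint (LOC.blk_disj (by norm_num)),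
    LOC.blk_card (by omega), LOC.blk_card (by omega)]
  omega

theorem EGY_sum {k T N : ℕ} {x : Fin N → ℝ} {a : ℝ} (h : Sit k T N x a)
    (s : Equiv.Perm (Fin N)) :
    a + ∑ i ∈ im (blk N k 0 ∪ ra N k) s, x i + sm x (blk N k 1 ∪ blk N k 2) s +
      sm x (rk N k) s = 0 := by
  have h1 := h.two
  have h2 := h.hN
  have h3 := h.sum
  rw [EGY_im]
  have e1 : sm x (blk N k 0 ∪ ra N k) s = sm x (blk N k 0) s + sm x (ra N k) s := by
    unfold sm
    apply Finset.sum_union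
    unfold blk ra
    exact LOC.iv_disj (by omega)
  have e2 : sm x (blk N k 1 ∪ blk N k 2) s = sm x (blk N k 1) s + sm x (blk N k 2) s := by
    unfold sm
    exact Finset.sum_union (LOC.blk_disj (by norm_num))
  have e3 : ∑ i, x i = sm x (blk N k 0) s + sm x (blk N k 1) s + sm x (blk N k 2) s +
      sm x (ra N k) s + sm x (rk N k) s := by
    rw [← LOC.sm_total x s, ← LOC.sum_all (fun p => x (s p))]
    unfold sm blk ra rk
    rw [LOC.sum_iv_append (a := 0) (b := k) (c := N) (by omega) (by omega),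
      LOC.sum_iv_append (a := k) (b := 2 * k) (c := N) (by omega) (by omega),
      LOC.sum_iv_append (a := 2 * k) (b := 3 * k) (c := N) (by omega) (by omega),
      LOC.sum_iv_append (a := 3 * k) (b := 4 * k - 1) (c := N) (by omega) (by omega)]
    simp only [zero_mul, zero_add, one_mul]
    norm_num
    ring
  rw [e1, e2]
  linarith

theorem EGY_sqrt : √(1 / 400 : ℝ) = 1 / 20 := by
  rw [show (1 / 400 : ℝ) = (1 / 20) ^ 2 by norm_num]
  exact Real.sqrt_sq (by norm_num)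

theorem EGY_b1 {k T N : ℕ} {x : Fin N → ℝ} {a : ℝ} (h : Sit k T N x a)
    (s : Equiv.Perm (Fin N)) : 0 ≤ b1 x a k s ∧ b1 x a k s ≤ 1 := by
  have h1 := h.two
  have hc : (0 : ℝ) < ((2 * k - 1).choose k : ℝ) := by
    exact_mod_cast Nat.choose_pos (by omega)
  have h2 := EGY_ba_le x a (im (blk N k 0 ∪ ra N k) s) k
  rw [EGY_card1 h s] at h2
  unfold b1
  exact ⟨div_nonneg (EGY_ba_nonneg _ _ _ _) hc.le, (div_le_one hc).2 h2⟩

theorem EGY_b2 {k T N : ℕ} {x : Fin N → ℝ} {a : ℝ} (h : Sit k T N x a)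
    (s : Equiv.Perm (Fin N)) : 0 ≤ b2 x k s ∧ b2 x k s ≤ 1 := by
  have hc : (0 : ℝ) < ((2 * k).choose k : ℝ) := by
    exact_mod_cast Nat.choose_pos (by omega)
  have h2 := EGY_bb_le x (im (blk N k 1 ∪ blk N k 2) s) k
  rw [EGY_card2 h s] at h2
  unfold b2
  exact ⟨div_nonneg (EGY_bb_nonneg _ _ _) hc.le, (div_le_one hc).2 h2⟩

theorem EGY_e1 (hENA : Stmt_ENA) {k T N : ℕ} {x : Fin N → ℝ} {a : ℝ} (hk : 3 ≤ k)
    (h : Sit k T N x a) (s : Equiv.Perm (Fin N)) (hb : 1 - 1 / 400 ≤ b1 x a k s) :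
    9 / 10 * (a ^ 2 + ∑ i ∈ im (blk N k 0 ∪ ra N k) s, x i ^ 2) ≤
      (a + ∑ i ∈ im (blk N k 0 ∪ ra N k) s, x i) ^ 2 := by
  have hc : (0 : ℝ) < ((2 * k - 1).choose k : ℝ) := by
    exact_mod_cast Nat.choose_pos (by omega)
  unfold b1 at hb
  rw [le_div_iff₀ hc] at hb
  have hpos : 0 < ba x a (im (blk N k 0 ∪ ra N k) s) k := by
    refine lt_of_lt_of_le ?_ hb
    exact mul_pos (by norm_num) hc
  have h1 := hENA (Fin N) (im (blk N k 0 ∪ ra N k) s) x a k (1 / 400) hk (EGY_card1 h s)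
    (EGY_ba_low x a _ k hpos) (by norm_num) (by norm_num) hb
  rw [EGY_sqrt] at h1
  norm_num at h1 ⊢
  exact h1

theorem EGY_e2 (hEN : Stmt_EN) {k T N : ℕ} {x : Fin N → ℝ} {a : ℝ} (hk : 3 ≤ k)
    (h : Sit k T N x a) (s : Equiv.Perm (Fin N)) (hb : 1 - 1 / 400 ≤ b2 x k s) :
    9 / 10 * (∑ i ∈ im (blk N k 1 ∪ blk N k 2) s, x i ^ 2) ≤
      (sm x (blk N k 1 ∪ blk N k 2) s) ^ 2 := by
  have hc : (0 : ℝ) < ((2 * k).choose k : ℝ) := by
    exact_mod_cast Nat.choose_pos (by omega)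
  unfold b2 at hb
  rw [le_div_iff₀ hc] at hb
  have hpos : 0 < bb x (im (blk N k 1 ∪ blk N k 2) s) k := by
    refine lt_of_lt_of_le ?_ hb
    exact mul_pos (by norm_num) hc
  have h1 := hEN (Fin N) (im (blk N k 1 ∪ blk N k 2) s) x k (1 / 400) hk (EGY_card2 h s)
    (EGY_bb_low x _ k hpos) (by norm_num) (by norm_num) hb
  rw [EGY_sqrt, EGY_im x _ s] at h1
  norm_num at h1 ⊢
  exact h1

theorem p_EGY : Stmt_GD → Stmt_MO → Stmt_EN → Stmt_ENA → Stmt_EGY := by
  classical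
  intro hGD hMO hEN hENA k T N x a hk hT h hp
  obtain ⟨m1, m2, m3⟩ := hMO k T N x a (by omega) h
  have hg := hGD k T N x a h
  have hk1 : (3000 : ℝ) ≤ (k : ℝ) := by exact_mod_cast hk
  have hT1 : 10000 * (T : ℝ) ≤ (k : ℝ) := by exact_mod_cast hT
  -- the energy is positive
  have hN := h.hN
  have ha : 0 < a := by
    by_contra hn
    rw [not_lt] at hn
    have h1 : ∑ i, x i < 0 := by
      apply Finset.sum_neg
      · intro i _
        exact (h.lt i).trans_le hn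
      · exact ⟨⟨0, by omega⟩, Finset.mem_univ _⟩
    have := h.sum
    linarith
  have hQ : 0 < qe x a := by
    unfold qe
    have : 0 ≤ ∑ i, x i ^ 2 := Finset.sum_nonneg fun i _ => sq_nonneg _
    positivity
  set Q := qe x a with hQd
  set F : ℝ := (N.factorial : ℝ) with hF
  have hF0 : 0 < F := by
    rw [hF]
    exact_mod_cast N.factorial_pos
  set S : Equiv.Perm (Fin N) → ℝ := fun s => sm x (blk N k 1 ∪ blk N k 2) s with hS
  set K : Equiv.Perm (Fin N) → ℝ := fun s => sm x (rk N k) s with hK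
  set J : Equiv.Perm (Fin N) → ℝ := fun s =>
    if (1 - 1 / 400 ≤ b1 x a k s ∧ 1 - 1 / 400 ≤ b2 x k s) then 1 else 0 with hJ
  set R : Equiv.Perm (Fin N) → ℝ := fun s =>
    (if 1 - 1 / 400 ≤ b1 x a k s then a ^ 2 + ∑ i ∈ im (blk N k 0 ∪ ra N k) s, x i ^ 2 else 0) +
        (if 1 - 1 / 400 ≤ b2 x k s then ∑ i ∈ im (blk N k 1 ∪ blk N k 2) s, x i ^ 2 else 0) with hR
  -- pointwise
  have q1 : ∀ s, 9 / 10 * R s ≤ 105 / 100 * S s ^ 2 + 105 / 100 * (S s ^ 2 * J s) +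
      21 * K s ^ 2 := by
    intro s
    have e := EGY_sum h s
    have e' : a + ∑ i ∈ im (blk N k 0 ∪ ra N k) s, x i = -(S s) - K s := by
      simp only [hS, hK]
      linarith
    have e1 := fun hb => EGY_e1 hENA (by omega) h s hb
    have e2 := fun hb => EGY_e2 hEN (by omega) h s hb
    rw [e'] at e1
    have e3 : (-(S s) - K s) ^ 2 ≤ 105 / 100 * S s ^ 2 + 21 * K s ^ 2 := by
      nlinarith [sq_nonneg (S s - 20 * K s)]
    have e4 : 0 ≤ S s ^ 2 := sq_nonneg _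
    have e5 : 0 ≤ K s ^ 2 := sq_nonneg _
    by_cases h1 : 1 - 1 / 400 ≤ b1 x a k s
    · by_cases h2 : 1 - 1 / 400 ≤ b2 x k s
      · have f1 := e1 h1
        have f2 : 9 / 10 * (∑ i ∈ im (blk N k 1 ∪ blk N k 2) s, x i ^ 2) ≤ S s ^ 2 := e2 h2
        have f3 : J s = 1 := by simp only [hJ]; rw [if_pos ⟨h1, h2⟩]
        have f4 : R s = (a ^ 2 + ∑ i ∈ im (blk N k 0 ∪ ra N k) s, x i ^ 2) +
          ∑ i ∈ im (blk N k 1 ∪ blk N k 2) s, x i ^ 2 := by
          simp only [hR]; rw [if_pos h1, if_pos h2]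
        rw [f3, f4]
        nlinarith
      · have f1 := e1 h1
        have f3 : J s = 0 := by
          simp only [hJ]; rw [if_neg (fun hh => h2 hh.2)]
        have f4 : R s = (a ^ 2 + ∑ i ∈ im (blk N k 0 ∪ ra N k) s, x i ^ 2) := by
          simp only [hR]; rw [if_pos h1, if_neg h2, add_zero]
        rw [f3, f4]
        nlinarith
    · by_cases h2 : 1 - 1 / 400 ≤ b2 x k s
      · have f2 : 9 / 10 * (∑ i ∈ im (blk N k 1 ∪ blk N k 2) s, x i ^ 2) ≤ S s ^ 2 := e2 h2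
        have f3 : J s = 0 := by
          simp only [hJ]; rw [if_neg (fun hh => h1 hh.1)]
        have f4 : R s = ∑ i ∈ im (blk N k 1 ∪ blk N k 2) s, x i ^ 2 := by
          simp only [hR]; rw [if_neg h1, if_pos h2, zero_add]
        rw [f3, f4]
        nlinarith
      · have f3 : J s = 0 := by
          simp only [hJ]; rw [if_neg (fun hh => h1 hh.1)]
        have f4 : R s = 0 := by
          simp only [hR]; rw [if_neg h1, if_neg h2, zero_add]
        rw [f3, f4]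
        nlinarith
  have q2 : ∀ s, Q * (S s ^ 2 * J s) ≤ S s ^ 4 / 2000 + 500 * Q ^ 2 * J s := by
    intro s
    by_cases h1 : 1 - 1 / 400 ≤ b1 x a k s ∧ 1 - 1 / 400 ≤ b2 x k s
    · have f3 : J s = 1 := by simp only [hJ]; rw [if_pos h1]
      rw [f3]
      nlinarith [sq_nonneg (S s ^ 2 - 1000 * Q)]
    · have f3 : J s = 0 := by simp only [hJ]; rw [if_neg h1]
      rw [f3]
      have : 0 ≤ S s ^ 4 := by positivity
      linarith
  have q3 : ∀ s, J s ≤ 2 * (b1 x a k s * b2 x k s + (1 - b1 x a k s) * (1 - b2 x k s)) := by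
    intro s
    obtain ⟨u1, u2⟩ := EGY_b1 h s
    obtain ⟨u3, u4⟩ := EGY_b2 h s
    by_cases h1 : 1 - 1 / 400 ≤ b1 x a k s ∧ 1 - 1 / 400 ≤ b2 x k s
    · have f3 : J s = 1 := by simp only [hJ]; rw [if_pos h1]
      rw [f3]
      have f5 : (399 / 400 : ℝ) * (399 / 400) ≤ b1 x a k s * b2 x k s := by
        apply mul_le_mul _ _ (by norm_num) u1
        · linarith [h1.1]
        · linarith [h1.2]
      have f6 : 0 ≤ (1 - b1 x a k s) * (1 - b2 x k s) :=
        mul_nonneg (by linarith) (by linarith)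
      linarith
    · have f3 : J s = 0 := by simp only [hJ]; rw [if_neg h1]
      rw [f3]
      have f5 : 0 ≤ b1 x a k s * b2 x k s := mul_nonneg u1 u3
      have f6 : 0 ≤ (1 - b1 x a k s) * (1 - b2 x k s) :=
        mul_nonneg (by linarith) (by linarith)
      linarith
  -- sums
  have r1 := Finset.sum_le_sum (fun s (_ : s ∈ (univ : Finset (Equiv.Perm (Fin N)))) => q1 s)
  have r2 := Finset.sum_le_sum (fun s (_ : s ∈ (univ : Finset (Equiv.Perm (Fin N)))) => q2 s)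
  have r3 := Finset.sum_le_sum (fun s (_ : s ∈ (univ : Finset (Equiv.Perm (Fin N)))) => q3 s)
  simp only [Finset.sum_add_distrib, ← Finset.mul_sum] at r1
  rw [← Finset.mul_sum, Finset.sum_add_distrib, ← Finset.sum_div, ← Finset.mul_sum] at r2
  rw [← Finset.mul_sum] at r3
  set A2 := ∑ s, S s ^ 2 with hA2
  set A4 := ∑ s, S s ^ 4 with hA4
  set AJ := ∑ s, S s ^ 2 * J s with hAJ
  set AK := ∑ s, K s ^ 2 with hAK
  set BJ := ∑ s, J s with hBJ
  set RR := ∑ s, R s with hRR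
  have hB : 0 < F * Q := mul_pos hF0 hQ
  have s1 : A2 ≤ 2501 / 10000 * (F * Q) := by
    have : (k : ℝ) * A2 ≤ (k : ℝ) * (2501 / 10000 * (F * Q)) := by
      have m1' : 8 * (k : ℝ) * A2 ≤ (2 * k + 1) * F * Q := m1
      nlinarith [mul_le_mul_of_nonneg_right hk1 hB.le]
    exact le_of_mul_le_mul_left this (by linarith)
  have s2 : AK ≤ 1 / 10000 * (F * Q) := by
    have : (k : ℝ) * AK ≤ (k : ℝ) * (1 / 10000 * (F * Q)) := by
      have m2' : (k : ℝ) * AK ≤ (T : ℝ) * F * Q := m2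
      nlinarith [mul_le_mul_of_nonneg_right hT1 hB.le]
    exact le_of_mul_le_mul_left this (by linarith)
  have s3 : A4 ≤ 16 * F * Q ^ 2 := m3
  have s4 : BJ ≤ 2 / 1000000 * F := by linarith
  have s5 : Q * AJ ≤ 9 / 1000 * (F * Q ^ 2) := by
    have hQ2 : 0 ≤ 500 * Q ^ 2 := by positivity
    have := mul_le_mul_of_nonneg_left s4 hQ2
    nlinarith
  have s6 : AJ ≤ 9 / 1000 * (F * Q) := by
    have : Q * AJ ≤ Q * (9 / 1000 * (F * Q)) := by
      calc Q * AJ ≤ 9 / 1000 * (F * Q ^ 2) := s5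
        _ = _ := by ring
    exact le_of_mul_le_mul_left this hQ
  have s7 : 100 * RR ≤ 32 * F * Q := by
    nlinarith
  exact s7

end Pool.MMq
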