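import Pool.Agent.Work.MP_9999b5_mq.Interface
import Pool.Agent.Work.MP_9999b5_mm.MOM

set_option autoImplicit false

/-! Block EN (typed by helper76): energy of a set with almost all halvings low. -/

namespace Pool.MMq

open Finset Pool.MM15

/-- Numerical part: the fourth moment of the sum of a random half. -/
theorem EN_four {k C e q S2 S4 : ℝ} (hk : 2 ≤ k) (hC : 0 ≤ C) (hq : e ^ 2 ≤ 2 * k * q)
    (h2 : 2 * k * (2 * k - 1) * S2 = C * k * (2 * k - k) * e)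
    (h4 : 2 * k * (2 * k - 1) * (2 * k - 2) * (2 * k - 3) * S4 =
      C * k * (2 * k - k) * ((2 * k * (2 * k + 1) - 6 * k * (2 * k - k)) * q +
        3 * (k - 1) * (2 * k - k - 1) * e ^ 2)) : C * S4 ≤ 4 * S2 ^ 2 := by
  have hk0 : 0 < k := by linarith
  have e2 : 2 * (2 * k - 1) * S2 = C * k * e := by
    have : k * (2 * (2 * k - 1) * S2) = k * (C * k * e) := by linarith
    exact mul_left_cancel₀ hk0.ne' this
  have e4 : 4 * (2 * k - 1) * (2 * k - 3) * S4 = C * k * (-2 * k * q + 3 * (k - 1) * e ^ 2) := by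
    have h : (k * (k - 1)) * (4 * (2 * k - 1) * (2 * k - 3) * S4) =
        (k * (k - 1)) * (C * k * (-2 * k * q + 3 * (k - 1) * e ^ 2)) := by
      linear_combination h4
    exact mul_left_cancel₀ (mul_pos hk0 (by linarith)).ne' h
  have b4 : 4 * (2 * k - 1) * (2 * k - 3) * S4 ≤ C * k * ((3 * k - 4) * e ^ 2) := by
    rw [e4]
    refine mul_le_mul_of_nonneg_left ?_ (mul_nonneg hC hk0.le)
    nlinarith
  -- multiply everything by `(2 k - 1) ^ 2 (2 k - 3) > 0`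
  have hd : 0 < 4 * (2 * k - 1) ^ 2 * (2 * k - 3) := by
    have h1 : 0 < 2 * k - 1 := by linarith
    have h3 : 0 < 2 * k - 3 := by linarith
    positivity
  have hmul : (4 * (2 * k - 1) ^ 2 * (2 * k - 3)) * (C * S4) ≤
      (4 * (2 * k - 1) ^ 2 * (2 * k - 3)) * (4 * S2 ^ 2) := by
    have l1 : (4 * (2 * k - 1) ^ 2 * (2 * k - 3)) * (C * S4) ≤
        (2 * k - 1) * C * (C * k * ((3 * k - 4) * e ^ 2)) := by
      have := mul_le_mul_of_nonneg_left b4 (mul_nonneg (by linarith : 0 ≤ 2 * k - 1) hC)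
      linarith
    have l2 : (4 * (2 * k - 1) ^ 2 * (2 * k - 3)) * (4 * S2 ^ 2) =
        4 * (2 * k - 3) * (C * k * e) ^ 2 := by
      rw [← e2]
      ring
    rw [l2]
    refine l1.trans ?_
    have l3 : 4 * (2 * k - 3) * (C * k * e) ^ 2 - (2 * k - 1) * C * (C * k * ((3 * k - 4) * e ^ 2)) =
        (C * e) ^ 2 * k * (2 * k ^ 2 - k - 4) := by ring
    have l4 : 0 ≤ 2 * k ^ 2 - k - 4 := by nlinarith
    have l5 : 0 ≤ (C * e) ^ 2 * k * (2 * k ^ 2 - k - 4) := by positivity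
    linarith
  exact le_of_mul_le_mul_left hmul hd

theorem p_EN : Stmt_EN := by
  classical
  intro α U x k η hk' hU ht hη0 hη hbb
  have hk : 2 ≤ k := by omega
  set t : ℝ := ∑ i ∈ U, x i with ht_def
  have hkR : (2 : ℝ) ≤ k := by exact_mod_cast hk
  have hk0 : (0 : ℝ) < k := by linarith
  have hUR : (U.card : ℝ) = 2 * k := by rw [hU]; push_cast; ring
  set m : ℝ := t / (2 * k) with hm
  set y : α → ℝ := fun i => x i - m with hy
  have hm2 : (k : ℝ) * m = t / 2 := by rw [hm]; field_simp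
  have hy0 : ∑ a ∈ U, y a = 0 := by
    simp only [hy]
    rw [Finset.sum_sub_distrib, Finset.sum_const, nsmul_eq_mul, hUR, ← ht_def]
    linarith
  set e : ℝ := ∑ a ∈ U, y a ^ 2 with he
  set q : ℝ := ∑ a ∈ U, y a ^ 4 with hq
  set C : ℝ := ((2 * k).choose k : ℝ) with hCdef
  have hCpos : 0 < C := by
    rw [hCdef]
    exact_mod_cast Nat.choose_pos (by omega : k ≤ 2 * k)
  set S2 : ℝ := ∑ B ∈ U.powersetCard k, (∑ a ∈ B, y a) ^ 2 with hS2
  set S4 : ℝ := ∑ B ∈ U.powersetCard k, (∑ a ∈ B, y a) ^ 4 with hS4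
  obtain ⟨m2, m4⟩ := stmt_MOM α U y k hk (by omega) (by omega) hy0
  rw [hU] at m2 m4
  push_cast at m2 m4
  rw [← hCdef, ← hS2, ← he] at m2
  rw [← hCdef, ← hS4, ← he, ← hq] at m4
  have hq1 : e ^ 2 ≤ 2 * k * q := by
    have h := sq_sum_le_card_mul_sum_sq (s := U) (f := fun a => y a ^ 2)
    rw [hUR] at h
    have h' : ∑ a ∈ U, (y a ^ 2) ^ 2 = q := by
      rw [hq]
      exact Finset.sum_congr rfl fun a _ => by ring
    rw [h'] at h
    exact h
  have hfour : C * S4 ≤ 4 * S2 ^ 2 :=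
    EN_four hkR hCpos.le hq1 (by linarith) (by linarith)
  have hS2nn : 0 ≤ S2 := Finset.sum_nonneg fun B _ => sq_nonneg _
  -- good and bad halvings
  set G : Finset (Finset α) := (U.powersetCard k).filter
    (fun B => ∑ i ∈ B, x i ≤ 0 ∧ ∑ i ∈ U \ B, x i ≤ 0) with hG
  set D : Finset (Finset α) := (U.powersetCard k).filter
    (fun B => ¬ (∑ i ∈ B, x i ≤ 0 ∧ ∑ i ∈ U \ B, x i ≤ 0)) with hD
  have hcard : (G.card : ℝ) + D.card = C := by
    have h := Finset.card_filter_add_card_filter_not (s := U.powersetCard k)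
      (fun B => ∑ i ∈ B, x i ≤ 0 ∧ ∑ i ∈ U \ B, x i ≤ 0)
    rw [Finset.card_powersetCard, hU] at h
    rw [hCdef]
    exact_mod_cast h
  have hGbb : (1 - η) * C ≤ G.card := by
    refine hbb.trans (le_of_eq ?_)
    unfold bb
    rw [hG]
  have hDle : (D.card : ℝ) ≤ η * C := by linarith
  have hyB : ∀ B ∈ U.powersetCard k, ∑ a ∈ B, y a = ∑ a ∈ B, x a - t / 2 := by
    intro B hB
    simp only [hy]
    rw [Finset.sum_sub_distrib, Finset.sum_const, nsmul_eq_mul, (Finset.mem_powersetCard.1 hB).2,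
      hm2]
  have hsplit : S2 = ∑ B ∈ G, (∑ a ∈ B, y a) ^ 2 + ∑ B ∈ D, (∑ a ∈ B, y a) ^ 2 := by
    rw [hS2, hG, hD, Finset.sum_filter_add_sum_filter_not]
  have hgood : ∑ B ∈ G, (∑ a ∈ B, y a) ^ 2 ≤ C * (t ^ 2 / 4) := by
    have h1 : ∑ B ∈ G, (∑ a ∈ B, y a) ^ 2 ≤ ∑ B ∈ G, t ^ 2 / 4 := by
      refine Finset.sum_le_sum fun B hB => ?_
      obtain ⟨hB1, hB2, hB3⟩ := Finset.mem_filter.1 hB
      have hs : ∑ i ∈ U \ B, x i + ∑ i ∈ B, x i = t :=
        Finset.sum_sdiff (Finset.mem_powersetCard.1 hB1).1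
      rw [hyB B hB1]
      nlinarith
    rw [Finset.sum_const, nsmul_eq_mul] at h1
    have h2 : (G.card : ℝ) ≤ C := by
      have : (0 : ℝ) ≤ D.card := Nat.cast_nonneg _
      linarith
    exact h1.trans (mul_le_mul_of_nonneg_right h2 (by positivity))
  have hbad : ∑ B ∈ D, (∑ a ∈ B, y a) ^ 2 ≤ 2 * √η * S2 := by
    have h1 : (∑ B ∈ D, (∑ a ∈ B, y a) ^ 2) ^ 2 ≤ (2 * √η * S2) ^ 2 := by
      have h2 := sq_sum_le_card_mul_sum_sq (s := D) (f := fun B => (∑ a ∈ B, y a) ^ 2)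
      have h3 : ∑ B ∈ D, ((∑ a ∈ B, y a) ^ 2) ^ 2 ≤ S4 := by
        rw [hS4]
        calc ∑ B ∈ D, ((∑ a ∈ B, y a) ^ 2) ^ 2 = ∑ B ∈ D, (∑ a ∈ B, y a) ^ 4 :=
              Finset.sum_congr rfl fun B _ => by ring
          _ ≤ _ := Finset.sum_le_sum_of_subset_of_nonneg (Finset.filter_subset _ _)
              fun B _ _ => by positivity
      have h4 : (0 : ℝ) ≤ S4 := Finset.sum_nonneg fun B _ => by positivity
      have h5 : (D.card : ℝ) * ∑ B ∈ D, ((∑ a ∈ B, y a) ^ 2) ^ 2 ≤ η * C * S4 := by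
        refine mul_le_mul hDle h3 (Finset.sum_nonneg fun B _ => by positivity) (by positivity)
      calc (∑ B ∈ D, (∑ a ∈ B, y a) ^ 2) ^ 2 ≤ η * C * S4 := h2.trans h5
        _ = η * (C * S4) := by ring
        _ ≤ η * (4 * S2 ^ 2) := mul_le_mul_of_nonneg_left hfour hη0
        _ = (2 * √η * S2) ^ 2 := by
          rw [mul_pow, mul_pow, Real.sq_sqrt hη0]
          ring
    exact le_of_sq_le_sq h1 (by positivity)
  -- conclusion
  have hmain : (1 - 2 * √η) * S2 ≤ C * (t ^ 2 / 4) := by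
    have := hsplit
    nlinarith
  have e2 : 2 * (2 * k - 1) * S2 = C * k * e := by
    have : (k : ℝ) * (2 * (2 * k - 1) * S2) = k * (C * k * e) := by linarith
    exact mul_left_cancel₀ hk0.ne' this
  have hey : (1 - 2 * √η) * (2 * k * e) ≤ t ^ 2 * (2 * k - 1) := by
    have h1 := mul_le_mul_of_nonneg_left hmain (by linarith : (0 : ℝ) ≤ 4 * (2 * k - 1))
    have h2 : C * ((1 - 2 * √η) * (2 * k * e)) ≤ C * (t ^ 2 * (2 * k - 1)) := by
      calc C * ((1 - 2 * √η) * (2 * k * e)) = 2 * (1 - 2 * √η) * (C * k * e) := by ring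
        _ = 4 * (2 * k - 1) * ((1 - 2 * √η) * S2) := by rw [← e2]; ring
        _ ≤ 4 * (2 * k - 1) * (C * (t ^ 2 / 4)) := h1
        _ = C * (t ^ 2 * (2 * k - 1)) := by ring
    exact le_of_mul_le_mul_left h2 hCpos
  have hex : 2 * k * ∑ i ∈ U, x i ^ 2 = 2 * k * e + t ^ 2 := by
    have h1 : ∑ i ∈ U, x i ^ 2 = e + 2 * k * m ^ 2 := by
      have h2 : ∑ i ∈ U, x i ^ 2 = ∑ i ∈ U, (y i ^ 2 + 2 * m * y i + m ^ 2) :=
        Finset.sum_congr rfl fun i _ => by simp only [hy]; ring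
      rw [h2, Finset.sum_add_distrib, Finset.sum_add_distrib, ← Finset.mul_sum, hy0,
        Finset.sum_const, nsmul_eq_mul, hUR, ← he]
      ring
    rw [h1]
    have h3 : (2 * k * m : ℝ) = t := by linarith
    calc 2 * (k : ℝ) * (e + 2 * k * m ^ 2) = 2 * k * e + (2 * k * m) ^ 2 := by ring
      _ = _ := by rw [h3]
  have hsη : 0 ≤ √η := Real.sqrt_nonneg _
  have hfin : 2 * k * ((1 - 2 * √η) * ∑ i ∈ U, x i ^ 2) ≤ 2 * k * t ^ 2 := by
    calc 2 * k * ((1 - 2 * √η) * ∑ i ∈ U, x i ^ 2) =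
          (1 - 2 * √η) * (2 * k * ∑ i ∈ U, x i ^ 2) := by ring
      _ = (1 - 2 * √η) * (2 * k * e) + (1 - 2 * √η) * t ^ 2 := by rw [hex]; ring
      _ ≤ t ^ 2 * (2 * k - 1) + 1 * t ^ 2 := by
        refine add_le_add hey (mul_le_mul_of_nonneg_right (by linarith) (sq_nonneg t))
      _ = 2 * k * t ^ 2 := by ring
  exact le_of_mul_le_mul_left hfin (by positivity)

end Pool.MMq
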