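import Pool.Agent.Work.MP_9999b5_mq.Interface

set_option autoImplicit false

namespace Pool.MMq

open Finset Pool.MM15

/-- Every `k`-subset counted by `ba` gives two `k`-subsets counted by `bb` for `{none} ∪ W`. -/
theorem ENA_two {α : Type} (W : Finset α) (x : α → ℝ) (a : ℝ) (k : ℕ) (hk : 1 ≤ k)
    (hW : W.card = 2 * k - 1) :
    2 * ba x a W k ≤ bb (fun o : Option α => o.elim a x) (Finset.insertNone W) k := by
  classical
  unfold ba bb
  set F := (W.powersetCard k).filter (fun B => ∑ i ∈ B, x i ≤ 0 ∧ a + ∑ i ∈ W \ B, x i ≤ 0) with hF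
  set G := ((Finset.insertNone W).powersetCard k).filter (fun B : Finset (Option α) =>
    ∑ i ∈ B, (fun o : Option α => o.elim a x) i ≤ 0 ∧
      ∑ i ∈ (Finset.insertNone W) \ B, (fun o : Option α => o.elim a x) i ≤ 0) with hG
  have hFm : ∀ B ∈ F, B ⊆ W ∧ B.card = k ∧ ∑ i ∈ B, x i ≤ 0 ∧ a + ∑ i ∈ W \ B, x i ≤ 0 := by
    intro B hB
    rw [hF, mem_filter, mem_powersetCard] at hB
    exact ⟨hB.1.1, hB.1.2, hB.2.1, hB.2.2⟩
  have e1 : ∀ B ⊆ W, (Finset.insertNone W) \ (B.map Function.Embedding.some) =
      Finset.insertNone (W \ B) := by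
    intro B hB
    ext o
    cases o with
    | none => simp
    | some i => simp
  have e2 : ∀ B ⊆ W, (Finset.insertNone W) \ (Finset.insertNone (W \ B)) =
      B.map Function.Embedding.some := by
    intro B hB
    ext o
    cases o with
    | none => simp
    | some i =>
      simp only [mem_sdiff, Finset.some_mem_insertNone, mem_map, Function.Embedding.some_apply,
        Option.some.injEq, exists_eq_right]
      constructor
      · rintro ⟨h1, h2⟩
        by_contra h3
        exact h2 ⟨h1, h3⟩
      · intro h1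
        exact ⟨hB h1, fun h2 => h2.2 h1⟩
  have s1 : ∀ B : Finset α, ∑ i ∈ B.map Function.Embedding.some,
      (fun o : Option α => o.elim a x) i = ∑ i ∈ B, x i := by
    intro B
    rw [sum_map]
    rfl
  have s2 : ∀ B : Finset α, ∑ i ∈ Finset.insertNone B,
      (fun o : Option α => o.elim a x) i = a + ∑ i ∈ B, x i := by
    intro B
    rw [Finset.sum_insertNone]
    rfl
  have m1 : ∀ B ∈ F, B.map Function.Embedding.some ∈ G := by
    intro B hB
    obtain ⟨h1, h2, h3, h4⟩ := hFm B hB
    rw [hG, mem_filter, mem_powersetCard]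
    refine ⟨⟨?_, by rw [card_map, h2]⟩, ?_, ?_⟩
    · intro o ho
      rw [mem_map] at ho
      obtain ⟨i, hi, rfl⟩ := ho
      simpa using h1 hi
    · rw [s1]; exact h3
    · rw [e1 B h1, s2]; exact h4
  have m2 : ∀ B ∈ F, Finset.insertNone (W \ B) ∈ G := by
    intro B hB
    obtain ⟨h1, h2, h3, h4⟩ := hFm B hB
    rw [hG, mem_filter, mem_powersetCard]
    refine ⟨⟨?_, ?_⟩, ?_, ?_⟩
    · intro o ho
      cases o with
      | none => simp
      | some i =>
        rw [Finset.some_mem_insertNone] at ho ⊢
        exact (mem_sdiff.1 ho).1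
    · rw [Finset.card_insertNone, card_sdiff_of_subset h1, hW, h2]
      omega
    · rw [s2]; exact h4
    · rw [e2 B h1, s1]; exact h3
  have hd : Disjoint (F.image (fun B => B.map Function.Embedding.some))
      (F.image (fun B => Finset.insertNone (W \ B))) := by
    rw [disjoint_left]
    intro P h1 h2
    rw [mem_image] at h1 h2
    obtain ⟨B, _, rfl⟩ := h1
    obtain ⟨C, _, hC⟩ := h2
    have h3 : (none : Option α) ∈ Finset.insertNone (W \ C) := by simp
    rw [hC] at h3
    simp at h3
  have hs : (F.image (fun B => B.map Function.Embedding.some)) ∪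
      (F.image (fun B => Finset.insertNone (W \ B))) ⊆ G := by
    intro P hP
    rw [mem_union, mem_image, mem_image] at hP
    rcases hP with ⟨B, hB, rfl⟩ | ⟨B, hB, rfl⟩
    · exact m1 B hB
    · exact m2 B hB
  have c1 : (F.image (fun B => B.map Function.Embedding.some)).card = F.card := by
    apply card_image_of_injective
    exact map_injective _
  have c2 : (F.image (fun B => Finset.insertNone (W \ B))).card = F.card := by
    apply card_image_of_injOn
    intro B hB C hC h
    have hB' := (hFm B hB).1
    have hC' := (hFm C hC).1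
    have h' : Finset.insertNone (W \ B) = Finset.insertNone (W \ C) := h
    have h2 := e2 B hB'
    rw [h', e2 C hC'] at h2
    exact (map_injective _ h2).symm
  have h := card_le_card hs
  rw [card_union_of_disjoint hd, c1, c2] at h
  have h' : ((F.card + F.card : ℕ) : ℝ) ≤ (G.card : ℝ) := by exact_mod_cast h
  push_cast at h'
  have hG' : (G.card : ℝ) = ((((Finset.insertNone W).powersetCard k).filter
    (fun B : Finset (Option α) =>
    ∑ i ∈ B, (fun o : Option α => o.elim a x) i ≤ 0 ∧
      ∑ i ∈ (Finset.insertNone W) \ B, (fun o : Option α => o.elim a x) i ≤ 0)).card : ℝ) := rfl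
  calc 2 * (F.card : ℝ) = F.card + F.card := by ring
    _ ≤ (G.card : ℝ) := h'
    _ ≤ _ := by
      apply le_of_eq
      rw [hG]
      congr 2
      ext B
      simp only [mem_filter]
      constructor
      · rintro ⟨h1, h2, h3⟩
        refine ⟨h1, h2, ?_⟩
        convert h3
      · rintro ⟨h1, h2, h3⟩
        refine ⟨h1, h2, ?_⟩
        convert h3

theorem p_ENA : Stmt_EN → Stmt_ENA := by
  intro hEN α W x a k η hk hW hs h0 h1 hb
  have hc : (Finset.insertNone W).card = 2 * k := by
    rw [Finset.card_insertNone, hW]; omega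
  have e1 : ∑ i ∈ Finset.insertNone W, (fun o : Option α => o.elim a x) i = a + ∑ i ∈ W, x i := by
    rw [Finset.sum_insertNone]; rfl
  have e2 : ∑ i ∈ Finset.insertNone W, ((fun o : Option α => o.elim a x) i) ^ 2 =
      a ^ 2 + ∑ i ∈ W, x i ^ 2 := by
    rw [Finset.sum_insertNone]; rfl
  have hch : ((2 * k).choose k : ℝ) = 2 * ((2 * k - 1).choose k : ℝ) := by
    obtain ⟨m, rfl⟩ : ∃ m, k = m + 1 := ⟨k - 1, by omega⟩
    have h2 : 2 * (m + 1) - 1 = 2 * m + 1 := by omega
    rw [h2]
    have h3 : (2 * (m + 1)).choose (m + 1) = (2 * m + 1).choose m + (2 * m + 1).choose (m + 1) := by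
      rw [show 2 * (m + 1) = (2 * m + 1) + 1 by ring, Nat.choose_succ_succ]
    have h4 : (2 * m + 1).choose m = (2 * m + 1).choose (m + 1) := by
      apply Nat.choose_symm_of_eq_add
      omega
    rw [h3, h4]
    push_cast
    ring
  have h2 := ENA_two W x a k (by omega) hW
  have h3 : (1 - η) * ((2 * k).choose k : ℝ) ≤
      bb (fun o : Option α => o.elim a x) (Finset.insertNone W) k := by
    rw [hch]
    linarith
  have h4 := hEN (Option α) (Finset.insertNone W) (fun o : Option α => o.elim a x) k η hk hc
    (by rw [e1]; exact hs) h0 h1 h3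
  rw [e2, e1] at h4
  exact h4

end Pool.MMq
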