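import Pool.Agent.Work.MP_9999b5_mq.Interface2
import Pool.Agent.Work.MP_9999b5_ms_helper84.Transfer4

set_option autoImplicit false

namespace Pool.MMq

open Finset Pool.MM15 Pool.Agent.Work.MaxSums

theorem FI2_set (h : Stmt_FIN) (n k T : ℕ) (hk : 3000 ≤ k) (hT : 100000000000 * T ≤ k)
    (hn : n = 4 * k + T) (A : Finset ℝ) (hA : A.card = n) (hs : ∑ a ∈ A, a = 0) :
    (n - 1).choose (k - 1) ≤
      ((A.powersetCard k).filter (fun B => 0 < ∑ b ∈ B, -b)).card := by
  classical
  set e : Fin n ↪ ℝ := (A.orderEmbOfFin hA).toEmbedding with he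
  have hmap : Finset.univ.map e = A := by
    ext a
    simp only [he, Finset.mem_map, Finset.mem_univ, true_and]
    constructor
    · rintro ⟨i, rfl⟩
      exact A.orderEmbOfFin_mem hA i
    · intro ha
      have : a ∈ Set.range (A.orderEmbOfFin hA) := by
        rw [Finset.range_orderEmbOfFin]; exact ha
      exact this
  have hsum : 0 ≤ ∑ i, (fun i => - e i) i := by
    have h1 : ∑ i, e i = ∑ a ∈ A, a := by
      conv_rhs => rw [← hmap, Finset.sum_map]
    simp only [Finset.sum_neg_distrib, h1, hs, neg_zero, le_refl]
  have hinj : Function.Injective (fun i => - e i) := fun a b hab => e.injective (neg_injective hab)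
  refine (h n k T (fun i => - e i) hk hT hn hinj hsum).trans ?_
  unfold Pool.MM15.pos
  refine Finset.card_le_card_of_injOn (fun B => B.map e) ?_ ?_
  · intro B hB
    have hB' := Finset.mem_filter.1 (Finset.mem_coe.1 hB)
    have hc := (Finset.mem_powersetCard.1 hB'.1).2
    refine Finset.mem_coe.2 (Finset.mem_filter.2 ⟨Finset.mem_powersetCard.2 ⟨?_, ?_⟩, ?_⟩)
    · rw [← hmap]
      exact Finset.map_subset_map.2 (Finset.subset_univ B)
    · rw [Finset.card_map]; exact hc
    · rw [Finset.sum_map]; exact hB'.2
  · intro B _ C _ hBC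
    exact Finset.map_injective e hBC

theorem p_FI2 : Stmt_FIN → Stmt_FI2 := by
  intro h q k T hq hk hT
  induction q, hq using Nat.le_induction with
  | base =>
    have h1 : IsGreatest (values k (4 * k + T)) ((4 * k + T - 1).choose k) := by
      refine isGreatest_of k (4 * k + T) (by omega) (by omega) ?_
      intro A hA hs
      exact FI2_set h (4 * k + T) k T hk hT rfl A hA hs
    exact ⟨h1, Transfer.MMS_of_greatest (by omega) (by omega) h1⟩
  | succ q hq ih =>
    have hle : 4 * k ≤ q * k + T := by
      have := Nat.mul_le_mul_right k hq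
      omega
    have h2 := Transfer.greatest_of_MMS (k := k) (n := q * k + T) (by omega) hle ih.2
    have he : (q + 1) * k + T = q * k + T + k := by ring
    rw [he]
    exact ⟨h2, Transfer.MMS_of_greatest (by omega) (by omega) h2⟩

end Pool.MMq
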