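import Pool.Agent.Work.MP_9999b5_mq.Interface2
import Pool.Agent.Work.MP_9999b5_mq.ORB
import Pool.Agent.Work.MP_9999b5_mm.MOM
import Pool.Agent.Work.MP_9999b5_ms_helper83.SumSq

set_option autoImplicit false

/-!
MO (helper53): second and fourth moments over the arrangements.
-/

namespace Pool.MMq

open Finset Pool.MM15 Pool.Agent.Work.MaxSums

/-- From arrangements to subsets. -/
theorem MO_sum {N : ℕ} (I : Finset (Fin N)) (Φ : Finset (Fin N) → ℝ) :
    (N.choose I.card : ℝ) * ∑ s : Equiv.Perm (Fin N), Φ (im I s) =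
      (N.factorial : ℝ) * ∑ B ∈ (univ : Finset (Fin N)).powersetCard I.card, Φ B := by
  have h1 : ∀ J ∈ (univ : Finset (Fin N)).powersetCard I.card,
      ∑ s : Equiv.Perm (Fin N), Φ (im J s) = ∑ s : Equiv.Perm (Fin N), Φ (im I s) := by
    intro J hJ
    have hJc : I.card = J.card := ((mem_powersetCard.1 hJ).2).symm
    obtain ⟨π, h1, -, -⟩ := ORB_perm (univ : Finset (Fin N)) I J (subset_univ _) (subset_univ _) hJc
    rw [← Equiv.sum_comp (Equiv.mulRight π) (fun s => Φ (im I s))]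
    apply Finset.sum_congr rfl
    intro s _
    have e0 : (Equiv.mulRight π) s = s * π := rfl
    rw [e0, ORB_im_mul, h1]
  have h2 : ∑ J ∈ (univ : Finset (Fin N)).powersetCard I.card,
      ∑ s : Equiv.Perm (Fin N), Φ (im J s) =
      (N.choose I.card : ℝ) * ∑ s : Equiv.Perm (Fin N), Φ (im I s) := by
    rw [Finset.sum_congr rfl h1, Finset.sum_const, Finset.card_powersetCard, nsmul_eq_mul,
      card_univ, Fintype.card_fin]
  rw [← h2, Finset.sum_comm]
  have h3 : ∀ s : Equiv.Perm (Fin N),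
      ∑ J ∈ (univ : Finset (Fin N)).powersetCard I.card, Φ (im J s) =
      ∑ B ∈ (univ : Finset (Fin N)).powersetCard I.card, Φ B := by
    intro s
    have h4 : (univ : Finset (Fin N)).map s.toEmbedding = univ := Finset.map_univ_equiv s
    calc ∑ J ∈ (univ : Finset (Fin N)).powersetCard I.card, Φ (im J s)
        = ∑ B ∈ ((univ : Finset (Fin N)).map s.toEmbedding).powersetCard I.card, Φ B := by
          rw [Finset.powersetCard_map, Finset.sum_map]
          rfl
      _ = ∑ B ∈ (univ : Finset (Fin N)).powersetCard I.card, Φ B := by rw [h4]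
  rw [Finset.sum_congr rfl (fun s _ => h3 s), Finset.sum_const, card_univ, Fintype.card_perm,
    Fintype.card_fin, nsmul_eq_mul]

theorem MO_sm {N : ℕ} (x : Fin N → ℝ) (I : Finset (Fin N)) (s : Equiv.Perm (Fin N)) :
    sm x I s = ∑ i ∈ im I s, x i := by
  unfold sm im
  rw [Finset.sum_map]
  rfl

/-- The second moment. -/
theorem MO_two {N : ℕ} (x : Fin N → ℝ) (a : ℝ) (h : a + ∑ i, x i = 0) (I : Finset (Fin N)) :
    (N : ℝ) * (N - 1) * ∑ s : Equiv.Perm (Fin N), sm x I s ^ 2 =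
      (N.factorial : ℝ) * ((I.card : ℝ) * (N - I.card) * ∑ i, x i ^ 2 +
        (I.card : ℝ) * (I.card - 1) * a ^ 2) := by
  have hle : I.card ≤ N := by
    have := card_le_univ I
    rwa [Fintype.card_fin] at this
  have hC : (0 : ℝ) < (N.choose I.card : ℝ) := by
    exact_mod_cast Nat.choose_pos hle
  have h1 := MO_sum I (fun B => (∑ i ∈ B, x i) ^ 2)
  have h2 := helper83SumSq.holds (Fin N) (univ : Finset (Fin N)) I.card x
  rw [card_univ, Fintype.card_fin] at h2
  have h3 : ∑ s : Equiv.Perm (Fin N), sm x I s ^ 2 =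
      ∑ s : Equiv.Perm (Fin N), (fun B => (∑ i ∈ B, x i) ^ 2) (im I s) := by
    apply Finset.sum_congr rfl
    intro s _
    rw [MO_sm]
  rw [h3]
  have h4 : (∑ i, x i) ^ 2 = a ^ 2 := by
    have : ∑ i, x i = -a := by linarith
    rw [this]
    ring
  rw [h4] at h2
  apply mul_left_cancel₀ hC.ne'
  calc (N.choose I.card : ℝ) * ((N : ℝ) * (N - 1) *
        ∑ s : Equiv.Perm (Fin N), (fun B => (∑ i ∈ B, x i) ^ 2) (im I s))
      = (N : ℝ) * (N - 1) * ((N.choose I.card : ℝ) *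
        ∑ s : Equiv.Perm (Fin N), (fun B => (∑ i ∈ B, x i) ^ 2) (im I s)) := by ring
    _ = (N.factorial : ℝ) * ((N : ℝ) * (N - 1) *
        ∑ B ∈ (univ : Finset (Fin N)).powersetCard I.card, (∑ i ∈ B, x i) ^ 2) := by
          rw [h1]; ring
    _ = _ := by rw [h2]; ring

/-- Fourth moment of the sum of the centred numbers. -/
theorem MO_four {N : ℕ} (y : Fin N → ℝ) (hy : ∑ i, y i = 0) (I : Finset (Fin N)) (k : ℕ)
    (hk : 10 ≤ k) (hI : I.card = 2 * k) (h1 : 4 * k ≤ N + 1) (h2 : N + 1 ≤ 5 * k) :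
    ∑ s : Equiv.Perm (Fin N), sm y I s ^ 4 ≤ (N.factorial : ℝ) * (∑ i, y i ^ 2) ^ 2 := by
  have hle : I.card ≤ N := by omega
  have hC : (0 : ℝ) < (N.choose I.card : ℝ) := by
    exact_mod_cast Nat.choose_pos hle
  have e1 := MO_sum I (fun B => (∑ i ∈ B, y i) ^ 4)
  have e2 := (stmt_MOM (Fin N) (univ : Finset (Fin N)) y I.card (by omega)
    (by rw [card_univ, Fintype.card_fin]; omega) (by rw [card_univ, Fintype.card_fin]; exact hle)
    hy).2
  rw [card_univ, Fintype.card_fin] at e2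
  have h3 : ∑ s : Equiv.Perm (Fin N), sm y I s ^ 4 =
      ∑ s : Equiv.Perm (Fin N), (fun B => (∑ i ∈ B, y i) ^ 4) (im I s) := by
    apply Finset.sum_congr rfl
    intro s _
    rw [MO_sm]
  rw [h3]
  set Z : ℝ := ∑ s : Equiv.Perm (Fin N), (fun B => (∑ i ∈ B, y i) ^ 4) (im I s) with hZ
  set W : ℝ := ∑ B ∈ (univ : Finset (Fin N)).powersetCard I.card, (∑ i ∈ B, y i) ^ 4 with hW
  have e1' : (N.choose I.card : ℝ) * Z = (N.factorial : ℝ) * W := e1
  clear_value Z W
  set S4 : ℝ := ∑ a, y a ^ 4 with hS4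
  set S2 : ℝ := ∑ a, y a ^ 2 with hS2
  have hS4' : 0 ≤ S4 := Finset.sum_nonneg (fun i _ => by positivity)
  clear_value S4 S2
  rw [hI] at e2 e1'
  have hIr : ((2 * k : ℕ) : ℝ) = 2 * (k : ℝ) := by push_cast; ring
  rw [hIr] at e2
  have hkr : (10 : ℝ) ≤ k := by exact_mod_cast hk
  have hN1 : 4 * (k : ℝ) ≤ N + 1 := by exact_mod_cast h1
  have hN2 : (N : ℝ) + 1 ≤ 5 * k := by exact_mod_cast h2
  have hC2 : (0 : ℝ) < (N.choose (2 * k) : ℝ) := by
    rw [← hI]; exact hC
  have hf : (0 : ℝ) ≤ (N.factorial : ℝ) := by positivity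
  set n : ℝ := (N : ℝ) with hn
  set K : ℝ := (k : ℝ) with hK
  set C : ℝ := (N.choose (2 * k) : ℝ) with hCd
  set F : ℝ := (N.factorial : ℝ) with hF
  clear_value n K C F
  -- the denominator
  have hD : 0 < n * (n - 1) * (n - 2) * (n - 3) := by
    have a1 : 0 < n := by linarith
    have a2 : 0 < n - 1 := by linarith
    have a3 : 0 < n - 2 := by linarith
    have a4 : 0 < n - 3 := by linarith
    positivity
  have hneg : n * (n + 1) - 6 * (2 * K) * (n - 2 * K) ≤ 0 := by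
    nlinarith [mul_nonneg (sub_nonneg.2 hN1) (sub_nonneg.2 hN2)]
  have hq1 : 0 ≤ 2 * K * (n - 2 * K) := by
    apply mul_nonneg <;> linarith
  have hb1 : 2 * K * (n - 2 * K) ≤ n ^ 2 / 4 := by nlinarith [sq_nonneg (n - 4 * K)]
  have hb2 : (2 * K - 1) * (n - 2 * K - 1) ≤ (n - 2) ^ 2 / 4 := by nlinarith [sq_nonneg (n - 4 * K)]
  have hb3 : 0 ≤ (2 * K - 1) * (n - 2 * K - 1) := by
    apply mul_nonneg <;> linarith
  have hmain : 2 * K * (n - 2 * K) * (3 * ((2 * K - 1) * (n - 2 * K - 1))) ≤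
      n * (n - 1) * (n - 2) * (n - 3) := by
    have c1 : 2 * K * (n - 2 * K) * (3 * ((2 * K - 1) * (n - 2 * K - 1))) ≤
        n ^ 2 / 4 * (3 * ((n - 2) ^ 2 / 4)) := by
      apply mul_le_mul hb1 (by linarith) (by linarith) (by positivity)
    have c2 : n ^ 2 / 4 * (3 * ((n - 2) ^ 2 / 4)) ≤ n * (n - 1) * (n - 2) * (n - 3) := by
      have c3 : 3 * (n * (n - 2)) ≤ 16 * ((n - 1) * (n - 3)) := by nlinarith
      have c4 : 0 ≤ n * (n - 2) := by
        apply mul_nonneg <;> linarith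
      have c5 := mul_le_mul_of_nonneg_left c3 c4
      nlinarith [c5]
    exact le_trans c1 c2
  have hkey : n * (n - 1) * (n - 2) * (n - 3) * W ≤
      n * (n - 1) * (n - 2) * (n - 3) * (C * S2 ^ 2) := by
    rw [e2]
    have d1 : (n * (n + 1) - 6 * (2 * K) * (n - 2 * K)) * S4 ≤ 0 :=
      mul_nonpos_of_nonpos_of_nonneg hneg hS4'
    have d2 : C * (2 * K) * (n - 2 * K) *
        ((n * (n + 1) - 6 * (2 * K) * (n - 2 * K)) * S4) ≤ 0 := by
      have : 0 ≤ C * (2 * K) * (n - 2 * K) := by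
        have := mul_nonneg hC2.le hq1
        linarith [this]
      exact mul_nonpos_of_nonneg_of_nonpos this d1
    have d3 : C * S2 ^ 2 * (2 * K * (n - 2 * K) * (3 * ((2 * K - 1) * (n - 2 * K - 1)))) ≤
        C * S2 ^ 2 * (n * (n - 1) * (n - 2) * (n - 3)) :=
      mul_le_mul_of_nonneg_left hmain (by positivity)
    linarith [d2, d3]
  have hW' : W ≤ C * S2 ^ 2 := le_of_mul_le_mul_left hkey hD
  have hfin : C * Z ≤ C * (F * S2 ^ 2) := by
    rw [e1']
    calc F * W ≤ F * (C * S2 ^ 2) := mul_le_mul_of_nonneg_left hW' hf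
      _ = C * (F * S2 ^ 2) := by ring
  exact le_of_mul_le_mul_left hfin hC2

theorem p_MO : Stmt_MO := by
  intro k T N x a hk hS
  have hN := hS.hN
  have hT := hS.hT
  have hsum := hS.sum
  have c1 : (blk N k 1 ∪ blk N k 2).card = 2 * k := by
    unfold blk
    rw [card_union_of_disjoint (ORB_disj _ _ _ _ _ (by left; omega)),
      ORB_card_iv _ _ _ (by omega), ORB_card_iv _ _ _ (by omega)]
    omega
  have c2 : (rk N k).card = T := by
    unfold rk
    rw [ORB_card_iv _ _ _ le_rfl]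
    omega
  have hkr : (10 : ℝ) ≤ k := by exact_mod_cast hk
  have hTr : (T : ℝ) ≤ k := by exact_mod_cast hT
  have hT0 : (0 : ℝ) ≤ T := by positivity
  have hNr : (N : ℝ) + 1 = 4 * k + T := by exact_mod_cast hN
  have hf : (0 : ℝ) < (N.factorial : ℝ) := by exact_mod_cast Nat.factorial_pos N
  have hX : 0 ≤ ∑ i, x i ^ 2 := Finset.sum_nonneg (fun i _ => by positivity)
  have ha : 0 ≤ a ^ 2 := sq_nonneg a
  refine ⟨?_, ?_, ?_⟩
  · have h := MO_two x a hsum (blk N k 1 ∪ blk N k 2)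
    rw [c1] at h
    have hIr : ((2 * k : ℕ) : ℝ) = 2 * (k : ℝ) := by push_cast; ring
    rw [hIr] at h
    unfold qe
    set Z : ℝ := ∑ s : Equiv.Perm (Fin N), sm x (blk N k 1 ∪ blk N k 2) s ^ 2 with hZ
    set X : ℝ := ∑ i, x i ^ 2 with hXd
    set F : ℝ := (N.factorial : ℝ) with hF
    set n : ℝ := (N : ℝ) with hn
    set K : ℝ := (k : ℝ) with hK
    set t : ℝ := (T : ℝ) with ht
    set A : ℝ := a ^ 2 with hA
    clear_value Z X F n K t A
    have hn' : n = 4 * K + t - 1 := by linarith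
    have hD : 0 < n * (n - 1) := by
      apply mul_pos <;> linarith
    have p1 : 8 * K * (2 * K * (n - 2 * K)) ≤ (2 * K + 1) * (n * (n - 1)) := by
      rw [hn']
      nlinarith [mul_nonneg hT0 hT0, mul_nonneg hT0 (sub_nonneg.2 hkr),
        mul_nonneg (mul_nonneg hT0 hT0) (sub_nonneg.2 hkr), sq_nonneg (K - 10)]
    have p2 : 8 * K * (2 * K * (2 * K - 1)) ≤ (2 * K + 1) * (n * (n - 1)) := by
      rw [hn']
      nlinarith [mul_nonneg hT0 hT0, mul_nonneg hT0 (sub_nonneg.2 hkr),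
        mul_nonneg (mul_nonneg hT0 hT0) (sub_nonneg.2 hkr), sq_nonneg (K - 10),
        mul_nonneg (mul_nonneg hT0 (sub_nonneg.2 hkr)) (sub_nonneg.2 hkr)]
    have q1 := mul_le_mul_of_nonneg_right p1 (mul_nonneg hf.le hX)
    have q2 := mul_le_mul_of_nonneg_right p2 (mul_nonneg hf.le ha)
    apply le_of_mul_le_mul_left _ hD
    calc n * (n - 1) * (8 * K * Z) = 8 * K * (n * (n - 1) * Z) := by ring
      _ = 8 * K * (F * (2 * K * (n - 2 * K) * X + 2 * K * (2 * K - 1) * A)) := by rw [h]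
      _ = 8 * K * (2 * K * (n - 2 * K)) * (F * X) + 8 * K * (2 * K * (2 * K - 1)) * (F * A) := by
          ring
      _ ≤ (2 * K + 1) * (n * (n - 1)) * (F * X) + (2 * K + 1) * (n * (n - 1)) * (F * A) :=
          add_le_add q1 q2
      _ = n * (n - 1) * ((2 * K + 1) * F * (A + X)) := by ring
  · have h := MO_two x a hsum (rk N k)
    rw [c2] at h
    unfold qe
    set Z : ℝ := ∑ s : Equiv.Perm (Fin N), sm x (rk N k) s ^ 2 with hZ
    set X : ℝ := ∑ i, x i ^ 2 with hXd
    set F : ℝ := (N.factorial : ℝ) with hF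
    set n : ℝ := (N : ℝ) with hn
    set K : ℝ := (k : ℝ) with hK
    set t : ℝ := (T : ℝ) with ht
    set A : ℝ := a ^ 2 with hA
    clear_value Z X F n K t A
    have hn' : n = 4 * K + t - 1 := by linarith
    have hD : 0 < n * (n - 1) := by
      apply mul_pos <;> linarith
    have p1 : K * (n - t) ≤ n * (n - 1) := by
      rw [hn']
      nlinarith [mul_nonneg hT0 hT0, mul_nonneg hT0 (sub_nonneg.2 hkr), sq_nonneg (K - 10)]
    have p2 : K * (t - 1) ≤ n * (n - 1) := by
      rw [hn']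
      nlinarith [mul_nonneg hT0 hT0, mul_nonneg hT0 (sub_nonneg.2 hkr), sq_nonneg (K - 10)]
    have q1 := mul_le_mul_of_nonneg_right p1 (mul_nonneg hT0 (mul_nonneg hf.le hX))
    have q2 := mul_le_mul_of_nonneg_right p2 (mul_nonneg hT0 (mul_nonneg hf.le ha))
    apply le_of_mul_le_mul_left _ hD
    calc n * (n - 1) * (K * Z) = K * (n * (n - 1) * Z) := by ring
      _ = K * (F * (t * (n - t) * X + t * (t - 1) * A)) := by rw [h]
      _ = K * (n - t) * (t * (F * X)) + K * (t - 1) * (t * (F * A)) := by ring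
      _ ≤ n * (n - 1) * (t * (F * X)) + n * (n - 1) * (t * (F * A)) := add_le_add q1 q2
      _ = n * (n - 1) * (t * F * (A + X)) := by ring
  · have hNpos : (0 : ℝ) < N := by linarith
    set y : Fin N → ℝ := fun i => x i + a / N with hyd
    have hy : ∑ i, y i = 0 := by
      rw [hyd, Finset.sum_add_distrib, Finset.sum_const, card_univ, Fintype.card_fin,
        nsmul_eq_mul, mul_div_cancel₀ _ hNpos.ne']
      linarith
    have h4 := MO_four y hy (blk N k 1 ∪ blk N k 2) k hk c1 (by omega) (by omega)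
    have hysq : ∑ i, y i ^ 2 ≤ qe x a := by
      have e : ∑ i, y i ^ 2 = ∑ i, x i ^ 2 + 2 * (a / N) * ∑ i, x i + N * (a / N) ^ 2 := by
        have e0 : ∀ i, y i ^ 2 = x i ^ 2 + 2 * (a / N) * x i + (a / N) ^ 2 := fun i => by
          rw [hyd]; ring
        rw [Finset.sum_congr rfl (fun i _ => e0 i), Finset.sum_add_distrib,
          Finset.sum_add_distrib, ← Finset.mul_sum, Finset.sum_const, card_univ,
          Fintype.card_fin, nsmul_eq_mul]
      have e1 : ∑ i, x i = -a := by linarith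
      rw [e, e1]
      unfold qe
      have e2 : 2 * (a / N) * (-a) + N * (a / N) ^ 2 = - (a ^ 2 / N) := by
        field_simp
        ring
      have e3 : 0 ≤ a ^ 2 / N := by positivity
      linarith
    have hysq0 : 0 ≤ ∑ i, y i ^ 2 := Finset.sum_nonneg (fun i _ => by positivity)
    have hsm : ∀ s : Equiv.Perm (Fin N), sm x (blk N k 1 ∪ blk N k 2) s ^ 4 ≤
        8 * sm y (blk N k 1 ∪ blk N k 2) s ^ 4 + 8 * qe x a ^ 2 := by
      intro s
      have e : sm x (blk N k 1 ∪ blk N k 2) s =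
          sm y (blk N k 1 ∪ blk N k 2) s - 2 * k * (a / N) := by
        unfold sm
        rw [hyd]
        simp only []
        rw [Finset.sum_add_distrib, Finset.sum_const, c1, nsmul_eq_mul]
        push_cast
        ring
      rw [e]
      have hv : (2 * k * (a / N)) ^ 2 ≤ qe x a := by
        have e1 : 2 * (k : ℝ) * (a / N) = (2 * k / N) * a := by ring
        have e2 : 2 * (k : ℝ) / N ≤ 1 := by
          rw [div_le_one hNpos]
          linarith
        have e3 : 0 ≤ 2 * (k : ℝ) / N := by positivity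
        rw [e1, mul_pow]
        unfold qe
        have e4 : (2 * (k : ℝ) / N) ^ 2 ≤ 1 := by
          calc (2 * (k : ℝ) / N) ^ 2 ≤ 1 ^ 2 := pow_le_pow_left₀ e3 e2 2
            _ = 1 := one_pow 2
        have e5 := mul_le_mul_of_nonneg_right e4 ha
        linarith
      set u : ℝ := sm y (blk N k 1 ∪ blk N k 2) s
      set v : ℝ := 2 * k * (a / N)
      have hv4 : v ^ 4 ≤ qe x a ^ 2 := by
        calc v ^ 4 = (v ^ 2) ^ 2 := by ring
          _ ≤ qe x a ^ 2 := pow_le_pow_left₀ (sq_nonneg v) hv 2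
      have huv : (u - v) ^ 4 ≤ 8 * u ^ 4 + 8 * v ^ 4 := by
        have g1 : (u - v) ^ 2 ≤ 2 * u ^ 2 + 2 * v ^ 2 := by nlinarith [sq_nonneg (u + v)]
        have g2 : (u - v) ^ 4 ≤ (2 * u ^ 2 + 2 * v ^ 2) ^ 2 := by
          calc (u - v) ^ 4 = ((u - v) ^ 2) ^ 2 := by ring
            _ ≤ _ := pow_le_pow_left₀ (sq_nonneg _) g1 2
        nlinarith [sq_nonneg (u ^ 2 - v ^ 2)]
      linarith
    calc ∑ s : Equiv.Perm (Fin N), sm x (blk N k 1 ∪ blk N k 2) s ^ 4
        ≤ ∑ s : Equiv.Perm (Fin N), (8 * sm y (blk N k 1 ∪ blk N k 2) s ^ 4 + 8 * qe x a ^ 2) :=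
          Finset.sum_le_sum (fun s _ => hsm s)
      _ = 8 * ∑ s : Equiv.Perm (Fin N), sm y (blk N k 1 ∪ blk N k 2) s ^ 4 +
          (N.factorial : ℝ) * (8 * qe x a ^ 2) := by
          rw [Finset.sum_add_distrib, ← Finset.mul_sum, Finset.sum_const, card_univ,
            Fintype.card_perm, Fintype.card_fin, nsmul_eq_mul]
      _ ≤ 8 * ((N.factorial : ℝ) * qe x a ^ 2) + (N.factorial : ℝ) * (8 * qe x a ^ 2) := by
          have g := mul_le_mul_of_nonneg_left (pow_le_pow_left₀ hysq0 hysq 2) hf.le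
          linarith
      _ = 16 * (N.factorial : ℝ) * qe x a ^ 2 := by ring

end Pool.MMq
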