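import Pool.Agent.Work.MP_9999b5_mq.Interface2
import Pool.Agent.Work.MP_9999b5_mq.MO
import Pool.Agent.Work.MP_9999b5_mm.EXC
import Pool.Agent.Work.MP_9999b5_mm.MEA

set_option autoImplicit false

/-!
Block FIN: from arrangements to `k`-subsets.
-/

namespace Pool.MMq

open Finset Pool.MM15 Pool.Agent.Work.MaxSums

open Classical in
/-- The number of `r`-subsets `R` of `Fin N` with `a + x(R) > 0`. -/
noncomputable def FIN_A {N : ℕ} (x : Fin N → ℝ) (a : ℝ) (r : ℕ) : ℕ :=
  ((Finset.univ.powersetCard r).filter (fun R : Finset (Fin N) => 0 < a + ∑ i ∈ R, x i)).card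

theorem FIN_ra {N : ℕ} (x : Fin N → ℝ) (a : ℝ) (I : Finset (Fin N)) :
    (N.choose I.card : ℝ) * cnt (fun s => 0 < a + sm x I s) =
      (N.factorial : ℝ) * (FIN_A x a I.card : ℝ) := by
  classical
  have h := MO_sum I (fun B => if 0 < a + ∑ i ∈ B, x i then (1 : ℝ) else 0)
  have h1 : cnt (fun s => 0 < a + sm x I s) =
      ∑ s : Equiv.Perm (Fin N), (if 0 < a + ∑ i ∈ im I s, x i then (1 : ℝ) else 0) := by
    unfold cnt
    rw [Finset.sum_boole]
    simp only [MO_sm]
  have h2 : (FIN_A x a I.card : ℝ) = ∑ B ∈ (univ : Finset (Fin N)).powersetCard I.card,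
      (if 0 < a + ∑ i ∈ B, x i then (1 : ℝ) else 0) := by
    unfold FIN_A
    rw [Finset.sum_boole]
  rw [h1, h2]
  exact h

/-- Splitting the `k`-subsets by `i₀`. -/
theorem FIN_split {N k : ℕ} (y : Fin (N + 1) → ℝ) (i₀ : Fin (N + 1)) (hk : 1 ≤ k) :
    FIN_A (fun j => y (i₀.succAbove j)) (y i₀) (k - 1) +
      Pool.MM15.pos (fun j => y (i₀.succAbove j)) k ≤ Pool.MM15.pos y k := by
  classical
  set e : Fin N ↪ Fin (N + 1) := i₀.succAboveEmb with he
  have hemb : ∀ j, e j = i₀.succAbove j := fun j => rfl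
  have hne : ∀ B : Finset (Fin N), i₀ ∉ B.map e := by
    intro B h
    rw [Finset.mem_map] at h
    obtain ⟨j, -, hj⟩ := h
    exact Fin.succAbove_ne i₀ j hj
  set S₁ := ((Finset.univ.powersetCard (k - 1)).filter
    (fun R : Finset (Fin N) => 0 < y i₀ + ∑ i ∈ R, y (i₀.succAbove i))) with hS₁
  set S₂ := ((Finset.univ.powersetCard k).filter
    (fun B : Finset (Fin N) => 0 < ∑ i ∈ B, y (i₀.succAbove i))) with hS₂
  set S := ((Finset.univ.powersetCard k).filter
    (fun B : Finset (Fin (N + 1)) => 0 < ∑ i ∈ B, y i)) with hS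
  have e1 : FIN_A (fun j => y (i₀.succAbove j)) (y i₀) (k - 1) =
      (S₁.image (fun R => insert i₀ (R.map e))).card := by
    have hio : Set.InjOn (fun R : Finset (Fin N) => insert i₀ (R.map e)) (S₁ : Set (Finset (Fin N))) := by
      intro R _ R' _ h
      have h1 : (insert i₀ (R.map e)).erase i₀ = (insert i₀ (R'.map e)).erase i₀ := by
        simp only at h
        rw [h]
      rw [Finset.erase_insert (hne R), Finset.erase_insert (hne R')] at h1
      exact Finset.map_injective e h1
    rw [Finset.card_image_of_injOn hio]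
    rfl
  have e2 : Pool.MM15.pos (fun j => y (i₀.succAbove j)) k =
      (S₂.image (fun B => B.map e)).card := by
    unfold Pool.MM15.pos
    rw [Finset.card_image_of_injective _ (Finset.map_injective e)]
  have e3 : Pool.MM15.pos y k = S.card := by
    unfold Pool.MM15.pos
    rw [hS]
  rw [e1, e2, e3, ← Finset.card_union_of_disjoint]
  · apply Finset.card_le_card
    intro B hB
    rw [Finset.mem_union, Finset.mem_image, Finset.mem_image] at hB
    rcases hB with ⟨R, hR, rfl⟩ | ⟨R, hR, rfl⟩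
    · rw [hS₁, Finset.mem_filter, Finset.mem_powersetCard] at hR
      rw [hS, Finset.mem_filter, Finset.mem_powersetCard]
      refine ⟨⟨Finset.subset_univ _, ?_⟩, ?_⟩
      · rw [Finset.card_insert_of_notMem (hne R), Finset.card_map, hR.1.2]
        omega
      · rw [Finset.sum_insert (hne R), Finset.sum_map]
        exact hR.2
    · rw [hS₂, Finset.mem_filter, Finset.mem_powersetCard] at hR
      rw [hS, Finset.mem_filter, Finset.mem_powersetCard]
      refine ⟨⟨Finset.subset_univ _, ?_⟩, ?_⟩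
      · rw [Finset.card_map, hR.1.2]
      · rw [Finset.sum_map]
        exact hR.2
  · rw [Finset.disjoint_left]
    intro B hB hB'
    rw [Finset.mem_image] at hB hB'
    obtain ⟨R, -, rfl⟩ := hB
    obtain ⟨R', -, h⟩ := hB'
    apply hne R'
    rw [h]
    exact Finset.mem_insert_self _ _

theorem FIN_shift {n : ℕ} (x y : Fin n → ℝ) (k : ℕ) (h : ∀ i, y i ≤ x i) :
    Pool.MM15.pos y k ≤ Pool.MM15.pos x k := by
  classical
  unfold Pool.MM15.pos
  apply Finset.card_le_card
  intro B hB
  rw [Finset.mem_filter] at hB ⊢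
  exact ⟨hB.1, hB.2.trans_le (Finset.sum_le_sum fun i _ => h i)⟩

theorem p_FIN : Stmt_SUM → Stmt_FIN := by
  classical
  intro hSUM n k T x hk hT hn hinj hsum
  obtain ⟨N, rfl⟩ : ∃ N, n = N + 1 := ⟨n - 1, by omega⟩
  have hTk : T ≤ k := by omega
  -- the mean
  set μ : ℝ := (∑ i, x i) / ((N + 1 : ℕ) : ℝ) with hμ
  have hn0 : (0 : ℝ) < ((N + 1 : ℕ) : ℝ) := by exact_mod_cast Nat.succ_pos N
  have hμ0 : 0 ≤ μ := div_nonneg hsum hn0.le
  set y : Fin (N + 1) → ℝ := fun i => x i - μ with hy
  have hy0 : ∑ i, y i = 0 := by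
    simp only [hy]
    rw [Finset.sum_sub_distrib, Finset.sum_const, Finset.card_univ, Fintype.card_fin,
      nsmul_eq_mul, hμ]
    field_simp
    ring
  have hyinj : Function.Injective y := by
    intro i j hij
    apply hinj
    simp only [hy] at hij
    linarith
  obtain ⟨i₀, -, hi₀⟩ := Finset.exists_max_image (univ : Finset (Fin (N + 1))) y
    ⟨0, Finset.mem_univ _⟩
  set a : ℝ := y i₀ with ha
  set x' : Fin N → ℝ := fun j => y (i₀.succAbove j) with hx'
  have hS : Sit k T N x' a := by
    refine ⟨by omega, by omega, hTk, ?_, ?_, ?_⟩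
    · intro i j hij
      exact Fin.succAbove_right_injective (hyinj hij)
    · intro i
      refine lt_of_le_of_ne (hi₀ _ (Finset.mem_univ _)) ?_
      intro h
      exact Fin.succAbove_ne i₀ i (hyinj h)
    · rw [← hy0, Fin.sum_univ_succAbove y i₀]
  have hmain := hSUM k T N x' a hk hT hS
  -- the two parts of the sum
  have hra : (ra N k).card = k - 1 := by
    unfold ra
    rw [ORB_card_iv N _ _ (by omega)]
    omega
  have h1 := FIN_ra x' a (ra N k)
  rw [hra] at h1
  have h2 := stmt_MEA stmt_EXC N k 3 x' (by omega) (by omega)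
  have h3 : ∑ s : Equiv.Perm (Fin N), (jj x' a k s : ℝ) =
      cnt (fun s => 0 < a + sm x' (ra N k) s) +
        ∑ s : Equiv.Perm (Fin N), (nn x' k 3 s : ℝ) := by
    unfold cnt
    rw [← Finset.sum_boole, ← Finset.sum_add_distrib]
    apply Finset.sum_congr rfl
    intro s _
    unfold jj sa
    push_cast
    rfl
  rw [h3] at hmain
  -- binomial coefficients
  have hb : (N.choose k : ℝ) * k = (N.choose (k - 1) : ℝ) * (3 * k + T) := by
    have hb1 := Nat.choose_succ_right_eq N (k - 1)
    have e1 : k - 1 + 1 = k := by omega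
    have e2 : N - (k - 1) = 3 * k + T := by omega
    rw [e1, e2] at hb1
    exact_mod_cast hb1
  set C : ℝ := (N.choose (k - 1) : ℝ) with hC
  set C' : ℝ := (N.choose k : ℝ) with hC'
  set F : ℝ := (N.factorial : ℝ) with hF
  set X := cnt (fun s => 0 < a + sm x' (ra N k) s) with hX
  set Y := ∑ s : Equiv.Perm (Fin N), (nn x' k 3 s : ℝ) with hY
  have hF0 : 0 < F := by
    rw [hF]
    exact_mod_cast Nat.factorial_pos N
  have hk0 : (0 : ℝ) < k := by exact_mod_cast (by omega : 0 < k)
  have hC0 : 0 < C := by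
    rw [hC]
    exact_mod_cast Nat.choose_pos (by omega)
  have hY0 : 0 ≤ Y := by
    rw [hY]
    exact Finset.sum_nonneg fun s _ => Nat.cast_nonneg _
  have hT0 : (0 : ℝ) ≤ T := Nat.cast_nonneg T
  set P : ℝ := (Pool.MM15.pos x' k : ℝ) with hP
  set A : ℝ := (FIN_A x' a (k - 1) : ℝ) with hA
  have h2' : C' * Y = 3 * F * P := by
    rw [h2]
    push_cast
    ring
  -- `C Y ≤ F P`
  have h4 : C * Y ≤ F * P := by
    have h5 : C * (3 * k + T) * Y = 3 * k * (F * P) := by
      rw [← hb]
      calc C' * k * Y = k * (C' * Y) := by ring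
        _ = 3 * k * (F * P) := by rw [h2']; ring
    have h6 : 3 * k * (C * Y) ≤ C * (3 * k + T) * Y := by
      have : 0 ≤ C * Y * T := by positivity
      nlinarith
    rw [h5] at h6
    exact le_of_mul_le_mul_left h6 (by positivity)
  have h7 : C * F ≤ (A + P) * F := by
    calc C * F ≤ C * (X + Y) := mul_le_mul_of_nonneg_left hmain hC0.le
      _ = C * X + C * Y := by ring
      _ ≤ F * A + F * P := add_le_add (le_of_eq h1) h4
      _ = (A + P) * F := by ring
  have h8 : C ≤ A + P := le_of_mul_le_mul_right h7 hF0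
  have h9 : N.choose (k - 1) ≤ FIN_A x' a (k - 1) + Pool.MM15.pos x' k := by
    have : ((N.choose (k - 1) : ℕ) : ℝ) ≤
        ((FIN_A x' a (k - 1) + Pool.MM15.pos x' k : ℕ) : ℝ) := by
      push_cast
      exact h8
    exact_mod_cast this
  have h10 : Pool.MM15.pos y k ≤ Pool.MM15.pos x k :=
    FIN_shift x y k fun i => by simp only [hy]; linarith
  rw [Nat.add_sub_cancel]
  exact h9.trans ((FIN_split y i₀ (by omega)).trans h10)

end Pool.MMq
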