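import Pool.Agent.Work.MP_9999b5_mq.BL

set_option autoImplicit false

/-! Block GD (typed by helper76): `∑ (b1 b2 + (1 - b1)(1 - b2)) ≤ p0 + pp`. -/

namespace Pool.MMq

open Finset Pool.MM15 Pool.Agent.Work.MaxSums

open Classical in
/-- The indicator of a good part of `U₁`. -/
noncomputable def GD_F {N : ℕ} (x : Fin N → ℝ) (a : ℝ) (B W : Finset (Fin N)) : ℝ :=
  if (∑ i ∈ B, x i ≤ 0 ∧ a + ∑ i ∈ W \ B, x i ≤ 0) then 1 else 0

theorem GD_ba {N : ℕ} (x : Fin N → ℝ) (a : ℝ) (k : ℕ) (W : Finset (Fin N)) :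
    ∑ B ∈ W.powersetCard k, GD_F x a B W = ba x a W k := by
  classical
  unfold ba GD_F
  rw [Finset.card_filter]
  push_cast
  refine Finset.sum_congr rfl fun B _ => ?_
  congr
  exact Subsingleton.elim _ _

theorem GD_bb {N : ℕ} (x : Fin N → ℝ) (k : ℕ) (W : Finset (Fin N)) :
    ∑ B ∈ W.powersetCard k, GD_F x 0 B W = bb x W k := by
  classical
  unfold bb GD_F
  rw [Finset.card_filter]
  push_cast
  refine Finset.sum_congr rfl fun B _ => ?_
  rw [zero_add]
  congr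
  exact Subsingleton.elim _ _

open Classical in
theorem GD_eval {N : ℕ} (x : Fin N → ℝ) (a : ℝ) (I J : Finset (Fin N)) (hd : Disjoint I J)
    (s : Equiv.Perm (Fin N)) :
    GD_F x a (im I s) (im (I ∪ J) s) = if (sm x I s ≤ 0 ∧ a + sm x J s ≤ 0) then 1 else 0 := by
  unfold GD_F
  rw [BL_im_sdiff _ _ hd, BL_sum_im, BL_sum_im]

open Classical in
theorem GD_point {N : ℕ} (x : Fin N → ℝ) (a : ℝ) (k : ℕ) (s : Equiv.Perm (Fin N)) :
    (if (sm x (blk N k 0) s ≤ 0 ∧ a + sm x (ra N k) s ≤ 0) then (1 : ℝ) else 0) *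
      (if (sm x (blk N k 1) s ≤ 0 ∧ 0 + sm x (blk N k 2) s ≤ 0) then 1 else 0) +
    (1 - if (sm x (blk N k 0) s ≤ 0 ∧ a + sm x (ra N k) s ≤ 0) then (1 : ℝ) else 0) *
      (1 - if (sm x (blk N k 1) s ≤ 0 ∧ 0 + sm x (blk N k 2) s ≤ 0) then 1 else 0) ≤
    (if jj x a k s = 0 then 1 else 0) + (if 2 ≤ jj x a k s then 1 else 0) := by
  have hnn : nn x k 3 s = (if 0 < sm x (blk N k 0) s then 1 else 0) +
      (if 0 < sm x (blk N k 1) s then 1 else 0) + (if 0 < sm x (blk N k 2) s then 1 else 0) := by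
    unfold nn
    rw [Finset.card_filter, Finset.sum_range_succ, Finset.sum_range_succ, Finset.sum_range_succ,
      Finset.sum_range_zero]
    simp
  unfold jj sa
  rw [hnn, zero_add]
  by_cases ha : 0 < a + sm x (ra N k) s <;> by_cases h0 : 0 < sm x (blk N k 0) s <;>
    by_cases h1 : 0 < sm x (blk N k 1) s <;> by_cases h2 : 0 < sm x (blk N k 2) s <;>
    simp [ha, h0, h1, h2, not_lt.1, not_le.2]

theorem p_GD : Stmt_ORB → Stmt_GD := by
  classical
  intro hORB k T N x a hS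
  have hk := hS.two
  have hN := hS.hN
  have hC1 : (0 : ℝ) < ((2 * k - 1).choose k : ℝ) := by
    exact_mod_cast Nat.choose_pos (by omega : k ≤ 2 * k - 1)
  have hC2 : (0 : ℝ) < ((2 * k).choose k : ℝ) := by
    exact_mod_cast Nat.choose_pos (by omega : k ≤ 2 * k)
  have d01 : Disjoint (blk N k 0) (ra N k) := by
    unfold blk ra
    exact ORB_disj _ _ _ _ _ (Or.inl (by omega))
  have d12 : Disjoint (blk N k 1) (blk N k 2) := by
    unfold blk
    exact ORB_disj _ _ _ _ _ (Or.inl (by omega))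
  have c12 : (blk N k 1 ∪ blk N k 2).card = 2 * k := by
    rw [Finset.card_union_of_disjoint d12]
    unfold blk
    rw [ORB_card_iv _ _ _ (by omega), ORB_card_iv _ _ _ (by omega)]
    omega
  have c01 : (blk N k 0 ∪ ra N k).card = 2 * k - 1 := by
    rw [Finset.card_union_of_disjoint d01]
    unfold blk ra
    rw [ORB_card_iv _ _ _ (by omega), ORB_card_iv _ _ _ (by omega)]
    omega
  have eb1 : ∀ s, ∑ B ∈ (im (blk N k 0 ∪ ra N k) s).powersetCard k,
      GD_F x a B (im (blk N k 0 ∪ ra N k) s) = ((2 * k - 1).choose k : ℝ) * b1 x a k s := by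
    intro s
    rw [GD_ba]
    unfold b1
    field_simp
  have eb2 : ∀ s, ∑ B ∈ (im (blk N k 1 ∪ blk N k 2) s).powersetCard k,
      GD_F x 0 B (im (blk N k 1 ∪ blk N k 2) s) = ((2 * k).choose k : ℝ) * b2 x k s := by
    intro s
    rw [GD_bb]
    unfold b2
    field_simp
  have ec1 : ∀ s, ∑ B ∈ (im (blk N k 0 ∪ ra N k) s).powersetCard k,
      (1 - GD_F x a B (im (blk N k 0 ∪ ra N k) s)) =
        ((2 * k - 1).choose k : ℝ) * (1 - b1 x a k s) := by
    intro s
    rw [Finset.sum_sub_distrib, eb1, Finset.sum_const, nsmul_eq_mul, mul_one,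
      Finset.card_powersetCard, BL_card_im, c01]
    ring
  have ec2 : ∀ s, ∑ B ∈ (im (blk N k 1 ∪ blk N k 2) s).powersetCard k,
      (1 - GD_F x 0 B (im (blk N k 1 ∪ blk N k 2) s)) =
        ((2 * k).choose k : ℝ) * (1 - b2 x k s) := by
    intro s
    rw [Finset.sum_sub_distrib, eb2, Finset.sum_const, nsmul_eq_mul, mul_one,
      Finset.card_powersetCard, BL_card_im, c12]
    ring
  have h := hORB N k hk (by omega) (GD_F x a) (GD_F x 0)
  have h' := hORB N k hk (by omega) (fun B W => 1 - GD_F x a B W) (fun B W => 1 - GD_F x 0 B W)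
  have r1 : ∑ s, GD_F x a (im (blk N k 0) s) (im (blk N k 0 ∪ ra N k) s) *
      GD_F x 0 (im (blk N k 1) s) (im (blk N k 1 ∪ blk N k 2) s) =
      ∑ s, b1 x a k s * b2 x k s := by
    refine mul_left_cancel₀ (mul_pos hC1 hC2).ne' (h.trans ?_)
    rw [Finset.mul_sum]
    refine Finset.sum_congr rfl fun s _ => ?_
    rw [eb1, eb2]
    ring
  have r2 : ∑ s, (1 - GD_F x a (im (blk N k 0) s) (im (blk N k 0 ∪ ra N k) s)) *
      (1 - GD_F x 0 (im (blk N k 1) s) (im (blk N k 1 ∪ blk N k 2) s)) =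
      ∑ s, (1 - b1 x a k s) * (1 - b2 x k s) := by
    refine mul_left_cancel₀ (mul_pos hC1 hC2).ne' (h'.trans ?_)
    rw [Finset.mul_sum]
    refine Finset.sum_congr rfl fun s _ => ?_
    rw [ec1, ec2]
    ring
  rw [Finset.sum_add_distrib, ← r1, ← r2, ← Finset.sum_add_distrib]
  unfold p0 pp
  rw [BL_cnt, BL_cnt, ← Finset.sum_add_distrib]
  refine Finset.sum_le_sum fun s _ => ?_
  rw [GD_eval _ _ _ _ d01, GD_eval _ _ _ _ d12]
  refine (GD_point x a k s).trans (le_of_eq ?_)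
  congr

end Pool.MMq
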