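import Pool.Agent.Work.MP_9999b5_mq.Interface

set_option autoImplicit false

/-! # Block GRP: disjoint groups with large energy -/

namespace Pool.MMq

open Finset Pool.MM15

theorem GRP_one {ι : Type} [DecidableEq ι] (w : ι → ℝ) (c : ℝ) (hc : 0 < c) (S : Finset ι) :
    (∀ i ∈ S, w i ≤ c) → 4 * c ≤ ∑ i ∈ S, w i →
    ∃ A, A ⊆ S ∧ 4 * c ≤ ∑ i ∈ A, w i ∧ ∑ i ∈ A, w i ≤ 5 * c := by
  induction S using Finset.induction_on with
  | empty =>
    intro _ h
    rw [Finset.sum_empty] at h
    exact absurd h (by linarith)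
  | insert a S ha ih =>
    intro hw h
    by_cases h1 : 4 * c ≤ ∑ i ∈ S, w i
    · obtain ⟨A, hA, h2, h3⟩ := ih (fun i hi => hw i (Finset.mem_insert_of_mem hi)) h1
      exact ⟨A, hA.trans (Finset.subset_insert a S), h2, h3⟩
    · refine ⟨insert a S, Finset.Subset.refl _, h, ?_⟩
      rw [Finset.sum_insert ha]
      have h4 := hw a (Finset.mem_insert_self a S)
      push Not at h1
      linarith

theorem GRP_many {ι : Type} [DecidableEq ι] (w : ι → ℝ) (c : ℝ) (hc : 0 < c) (m : ℕ) :
    ∀ S : Finset ι, (∀ i ∈ S, w i ≤ c) → 5 * c * m ≤ ∑ i ∈ S, w i →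
    ∃ g : Fin m → Finset ι, (∀ j, g j ⊆ S) ∧ (∀ j l, j ≠ l → Disjoint (g j) (g l)) ∧
      ∀ j, 4 * c ≤ ∑ i ∈ g j, w i := by
  induction m with
  | zero =>
    intro S _ _
    exact ⟨fun j => j.elim0, fun j => j.elim0, fun j => j.elim0, fun j => j.elim0⟩
  | succ m ih =>
    intro S hw h
    push_cast at h
    have hm : (0 : ℝ) ≤ m := Nat.cast_nonneg m
    have hcm : 0 ≤ 5 * c * m := by positivity
    obtain ⟨A, hA, h2, h3⟩ := GRP_one w c hc S hw (by linarith)
    have h4 := Finset.sum_sdiff (f := w) hA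
    obtain ⟨g, hg1, hg2, hg3⟩ := ih (S \ A)
      (fun i hi => hw i (Finset.mem_sdiff.1 hi).1) (by linarith)
    have hdis : ∀ l, Disjoint A (g l) := fun l =>
      Finset.disjoint_of_subset_right (hg1 l) Finset.disjoint_sdiff
    refine ⟨Fin.cons A g, ?_, ?_, ?_⟩
    · intro j
      refine Fin.cases ?_ (fun j => ?_) j
      · exact hA
      · exact (hg1 j).trans Finset.sdiff_subset
    · intro j l
      refine Fin.cases ?_ (fun j => ?_) j
      · refine Fin.cases ?_ (fun l => ?_) l
        · intro hne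
          exact absurd rfl hne
        · intro _
          exact hdis l
      · refine Fin.cases ?_ (fun l => ?_) l
        · intro _
          exact (hdis j).symm
        · intro hne
          exact hg2 j l (fun e => hne (by rw [e]))
    · intro j
      refine Fin.cases ?_ (fun j => ?_) j
      · exact h2
      · exact hg3 j

/-- Block GRP. -/
theorem p_GRP : Stmt_GRP := by
  intro ι _ S d h hh hd hS
  have hc : 0 < h ^ 2 := by positivity
  have hw : ∀ i ∈ S, d i ^ 2 ≤ h ^ 2 := by
    intro i hi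
    have := hd i hi
    rw [← sq_abs (d i)]
    exact pow_le_pow_left₀ (abs_nonneg _) this 2
  exact GRP_many (fun i => d i ^ 2) (h ^ 2) hc 13 S hw (by push_cast; linarith)

end Pool.MMq
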