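import Pool.Agent.Work.MP_9999b5_mq.ENA

set_option autoImplicit false

namespace Pool.MMq

open Finset Pool.MM15

theorem p_HLA : Stmt_HLV → Stmt_HLA := by
  intro hHLV α W x a k hk hW hs hpos h150
  have hc : (Finset.insertNone W).card = 2 * k := by
    rw [Finset.card_insertNone, hW]; omega
  have e1 : ∑ i ∈ Finset.insertNone W, (fun o : Option α => o.elim a x) i = a + ∑ i ∈ W, x i := by
    rw [Finset.sum_insertNone]; rfl
  have e2 : ∑ i ∈ Finset.insertNone W, ((fun o : Option α => o.elim a x) i) ^ 2 =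
      a ^ 2 + ∑ i ∈ W, x i ^ 2 := by
    rw [Finset.sum_insertNone]; rfl
  have hch : ((2 * k).choose k : ℝ) = 2 * ((2 * k - 1).choose k : ℝ) := by
    obtain ⟨m, rfl⟩ : ∃ m, k = m + 1 := ⟨k - 1, by omega⟩
    have h2 : 2 * (m + 1) - 1 = 2 * m + 1 := by omega
    rw [h2]
    have h3 : (2 * (m + 1)).choose (m + 1) = (2 * m + 1).choose m + (2 * m + 1).choose (m + 1) := by
      rw [show 2 * (m + 1) = (2 * m + 1) + 1 by ring, Nat.choose_succ_succ]
    have h4 : (2 * m + 1).choose m = (2 * m + 1).choose (m + 1) := by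
      apply Nat.choose_symm_of_eq_add
      omega
    rw [h3, h4]
    push_cast
    ring
  have h2 := ENA_two W x a k (by omega) hW
  have h4 := hHLV (Option α) (Finset.insertNone W) (fun o : Option α => o.elim a x) k hk hc
    (by rw [e1]; exact hs) (by rw [e2]; exact hpos) (by rw [e1, e2]; exact h150)
  rw [hch] at h4
  linarith

end Pool.MMq
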