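import Pool.Agent.Work.MP_9999b5_mq.Interface

set_option autoImplicit false

/-! HLV: halvings of a rough set. -/

namespace Pool.MMq

open Finset Pool.MM15

/-- difference of the two halves -/
noncomputable def HLV_D {k : ℕ} (y : Fin k × Bool → ℝ) (B : Finset (Fin k × Bool)) : ℝ :=
  ∑ p ∈ B, y p - ∑ p ∈ Bᶜ, y p

lemma HLV_img {k : ℕ} (y : Fin k × Bool → ℝ) (s : Equiv.Perm (Fin k × Bool))
    (P : Finset (Fin k)) :
    HLV_D y (univ.image (fun i : Fin k => s (i, decide (i ∈ P)))) =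
      ∑ i ∈ P, (y (s (i, true)) - y (s (i, false))) -
        ∑ i ∈ univ \ P, (y (s (i, true)) - y (s (i, false))) := by
  have hinj : Function.Injective (fun i : Fin k => s (i, decide (i ∈ P))) := by
    intro i j hij
    have := s.injective hij
    exact (Prod.mk.inj this).1
  have h1 : ∑ p ∈ univ.image (fun i : Fin k => s (i, decide (i ∈ P))), y p =
      ∑ i, y (s (i, decide (i ∈ P))) := by
    rw [Finset.sum_image (fun a _ b _ h => hinj h)]
  have h2 : ∑ p, y p = ∑ i : Fin k, (y (s (i, true)) + y (s (i, false))) := by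
    rw [← Equiv.sum_comp s y, Fintype.sum_prod_type]
    refine Finset.sum_congr rfl (fun i _ => ?_)
    rw [Fintype.sum_bool]
  have h3 : ∑ p ∈ (univ.image (fun i : Fin k => s (i, decide (i ∈ P))))ᶜ, y p =
      ∑ p, y p - ∑ p ∈ univ.image (fun i : Fin k => s (i, decide (i ∈ P))), y p := by
    rw [eq_sub_iff_add_eq, add_comm]
    exact Finset.sum_add_sum_compl _ _
  unfold HLV_D
  rw [h3, h1, h2, ← Finset.sum_sdiff (Finset.subset_univ P) (f := fun i => y (s (i, decide (i ∈ P)))),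
    ← Finset.sum_sdiff (Finset.subset_univ P) (f := fun i => y (s (i, true)) + y (s (i, false)))]
  have h4 : ∑ i ∈ P, y (s (i, decide (i ∈ P))) = ∑ i ∈ P, y (s (i, true)) := by
    refine Finset.sum_congr rfl (fun i hi => ?_)
    simp [hi]
  have h5 : ∑ i ∈ univ \ P, y (s (i, decide (i ∈ P))) = ∑ i ∈ univ \ P, y (s (i, false)) := by
    refine Finset.sum_congr rfl (fun i hi => ?_)
    have : i ∉ P := (Finset.mem_sdiff.1 hi).2
    simp [this]
  rw [h4, h5]
  simp only [Finset.sum_add_distrib, Finset.sum_sub_distrib]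
  ring

theorem p_HLV : Stmt_SGN → Stmt_MSM → Stmt_UNI → Stmt_HLV := by
  classical
  intro hS hM hU α U x k hk hcard hsum hE hbig
  have hc : Fintype.card (Fin k × Bool) = Fintype.card U := by
    simp [hcard, mul_comm]
  let e : Fin k × Bool ≃ U := Fintype.equivOfCardEq hc
  let φ : Fin k × Bool ↪ α := e.toEmbedding.trans (Function.Embedding.subtype _)
  let y : Fin k × Bool → ℝ := fun p => x (φ p)
  have hφ : ∀ p, φ p ∈ U := fun p => (e p).2
  have hmap : ∀ V, V ⊆ U → (univ.filter (fun p => φ p ∈ V)).map φ = V := by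
    intro V hV
    ext a
    simp only [mem_map, mem_filter, mem_univ, true_and]
    constructor
    · rintro ⟨p, hp, rfl⟩
      exact hp
    · intro ha
      have h0 : φ (e.symm ⟨a, hV ha⟩) = a := by
        show ((e (e.symm ⟨a, hV ha⟩) : U) : α) = a
        rw [Equiv.apply_symm_apply]
      exact ⟨e.symm ⟨a, hV ha⟩, by rw [h0]; exact ha, h0⟩
  have hsumV : ∀ (f : α → ℝ) (V : Finset α), V ⊆ U →
      ∑ p ∈ univ.filter (fun p => φ p ∈ V), f (φ p) = ∑ i ∈ V, f i := by
    intro f V hV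
    conv_rhs => rw [← hmap V hV]
    rw [sum_map]
  have hall : ∀ f : α → ℝ, ∑ p, f (φ p) = ∑ i ∈ U, f i := by
    intro f
    rw [← hsumV f U (Subset.refl U)]
    refine Finset.sum_congr ?_ (fun _ _ => rfl)
    ext p
    simp [hφ p]
  obtain ⟨h, hh⟩ : ∃ h : ℝ, h = -∑ i ∈ U, x i := ⟨_, rfl⟩
  have hh0 : 0 ≤ h := by rw [hh]; linarith
  obtain ⟨E, hEd⟩ : ∃ E : ℝ, E = ∑ p, y p ^ 2 := ⟨_, rfl⟩
  have hEU : E = ∑ i ∈ U, x i ^ 2 := by
    rw [hEd]
    exact hall (fun i => x i ^ 2)
  have hyU : ∑ p, y p = -h := by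
    rw [hh, neg_neg]
    exact hall x
  have hEpos : 0 < E := by rw [hEU]; exact hE
  have hEh : 150 * h ^ 2 ≤ E := by
    rw [hEU, hh]
    have : (-∑ i ∈ U, x i) ^ 2 = (∑ i ∈ U, x i) ^ 2 := by ring
    rw [this]
    exact hbig
  obtain ⟨N, hN⟩ : ∃ N : ℕ, N = (((univ : Finset (Fin k × Bool)).powersetCard k).filter
      (fun B => |HLV_D y B| ≤ h)).card := ⟨_, rfl⟩
  have hbb : bb x U k ≤ (N : ℝ) := by
    unfold bb
    rw [hN]
    norm_cast
    refine Finset.card_le_card_of_injOn
      (fun B => univ.filter (fun p : Fin k × Bool => φ p ∈ B)) ?_ ?_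
    · intro B hB
      have hB' := Finset.mem_filter.1 (Finset.mem_coe.1 hB)
      obtain ⟨hB1, hB2, hB3⟩ := hB'
      obtain ⟨hBU, hBk⟩ := Finset.mem_powersetCard.1 hB1
      refine Finset.mem_coe.2 (Finset.mem_filter.2 ⟨Finset.mem_powersetCard.2
        ⟨Finset.subset_univ _, ?_⟩, ?_⟩)
      · rw [← Finset.card_map φ, hmap B hBU, hBk]
      · have e1 : ∑ p ∈ univ.filter (fun p : Fin k × Bool => φ p ∈ B), y p = ∑ i ∈ B, x i :=
          hsumV x B hBU
        have e2 : (univ.filter (fun p : Fin k × Bool => φ p ∈ B))ᶜ =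
            univ.filter (fun p : Fin k × Bool => φ p ∈ U \ B) := by
          ext p
          simp [hφ p]
        have e3 : ∑ p ∈ univ.filter (fun p : Fin k × Bool => φ p ∈ U \ B), y p =
            ∑ i ∈ U \ B, x i := hsumV x (U \ B) Finset.sdiff_subset
        have e4 : ∑ i ∈ U \ B, x i + ∑ i ∈ B, x i = ∑ i ∈ U, x i := Finset.sum_sdiff hBU
        show |HLV_D y _| ≤ h
        unfold HLV_D
        rw [e2, e1, e3, abs_le]
        constructor <;> linarith
    · intro B hB B' hB' hBB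
      have hB1 := (Finset.mem_powersetCard.1 (Finset.mem_filter.1 (Finset.mem_coe.1 hB)).1).1
      have hB2 := (Finset.mem_powersetCard.1 (Finset.mem_filter.1 (Finset.mem_coe.1 hB')).1).1
      have h5 : univ.filter (fun p : Fin k × Bool => φ p ∈ B) =
          univ.filter (fun p : Fin k × Bool => φ p ∈ B') := hBB
      rw [← hmap B hB1, h5, hmap B' hB2]
  -- the double count
  let Φ : Finset (Fin k × Bool) → ℝ := fun B => if |HLV_D y B| ≤ h then 1 else 0
  let d : Equiv.Perm (Fin k × Bool) → Fin k → ℝ :=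
    fun s i => y (s (i, true)) - y (s (i, false))
  let c : Equiv.Perm (Fin k × Bool) → ℝ := fun s =>
    (((univ : Finset (Fin k)).powerset.filter
      (fun P => |∑ i ∈ P, d s i - ∑ i ∈ univ \ P, d s i| ≤ h)).card : ℝ)
  have hsum1 : ∑ s, c s = (2 : ℝ) ^ k * ((k.factorial : ℝ) ^ 2 * N) := by
    have h1 : ∀ s, c s = ∑ P ∈ (univ : Finset (Fin k)).powerset,
        Φ (univ.image (fun i : Fin k => s (i, decide (i ∈ P)))) := by
      intro s
      show (((univ : Finset (Fin k)).powerset.filter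
        (fun P => |∑ i ∈ P, d s i - ∑ i ∈ univ \ P, d s i| ≤ h)).card : ℝ) = _
      rw [← Finset.sum_boole]
      refine Finset.sum_congr rfl (fun P _ => ?_)
      show _ = if |HLV_D y _| ≤ h then (1 : ℝ) else 0
      rw [HLV_img]
    rw [Finset.sum_congr rfl (fun s _ => h1 s), Finset.sum_comm,
      Finset.sum_congr rfl (fun P _ => hU k P Φ), Finset.sum_const, Finset.card_powerset,
      Finset.card_univ, Fintype.card_fin, nsmul_eq_mul]
    push_cast
    have h2 : ∑ B ∈ (univ : Finset (Fin k × Bool)).powersetCard k, Φ B = (N : ℝ) := by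
      rw [hN]
      exact Finset.sum_boole _ _
    rw [h2]
  let bad : Finset (Equiv.Perm (Fin k × Bool)) :=
    univ.filter (fun s => ∑ i, (y (s (i, true)) - y (s (i, false))) ^ 2 < (∑ p, y p ^ 2) / 2)
  have hbad : (k : ℝ) * (bad.card : ℝ) ≤ 16 * ((2 * k).factorial : ℝ) := by
    refine hM k y (by omega) ?_ (by rw [← hEd]; exact hEpos)
    rw [hyU, ← hEd]
    nlinarith [sq_nonneg h]
  have hcs : ∀ s, c s ≤ 534 / 1000 * (2 : ℝ) ^ k + if s ∈ bad then (2 : ℝ) ^ k else 0 := by
    intro s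
    have htriv : c s ≤ (2 : ℝ) ^ k := by
      have h1 : ((univ : Finset (Fin k)).powerset.filter
        (fun P => |∑ i ∈ P, d s i - ∑ i ∈ univ \ P, d s i| ≤ h)).card ≤ 2 ^ k := by
        refine (Finset.card_filter_le _ _).trans ?_
        rw [Finset.card_powerset, Finset.card_univ, Fintype.card_fin]
      show (((univ : Finset (Fin k)).powerset.filter
        (fun P => |∑ i ∈ P, d s i - ∑ i ∈ univ \ P, d s i| ≤ h)).card : ℝ) ≤ (2 : ℝ) ^ k
      exact_mod_cast h1
    have h2k : (0 : ℝ) < (2 : ℝ) ^ k := by positivity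
    by_cases hs : s ∈ bad
    · rw [if_pos hs]
      linarith
    · rw [if_neg hs, add_zero]
      have hs1 : ¬ ∑ i, (y (s (i, true)) - y (s (i, false))) ^ 2 < (∑ p, y p ^ 2) / 2 := by
        intro hcon
        exact hs (Finset.mem_filter.2 ⟨Finset.mem_univ _, hcon⟩)
      have hs2 : E / 2 ≤ ∑ i, d s i ^ 2 := by
        rw [hEd]
        exact not_lt.1 hs1
      have h3 := hS (Fin k) univ (d s) h hh0 (by linarith) (by linarith)
      rw [Finset.card_univ, Fintype.card_fin] at h3
      have h4 : 1000 * c s ≤ 534 * (2 : ℝ) ^ k := h3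
      linarith
  have hcard2 : (Fintype.card (Equiv.Perm (Fin k × Bool)) : ℝ) = ((2 * k).factorial : ℝ) := by
    rw [Fintype.card_perm, Fintype.card_prod, Fintype.card_fin, Fintype.card_bool, mul_comm]
  have hsum2 : ∑ s, c s ≤ ((2 * k).factorial : ℝ) * (534 / 1000 * (2 : ℝ) ^ k) +
      (bad.card : ℝ) * (2 : ℝ) ^ k := by
    refine (Finset.sum_le_sum (fun s _ => hcs s)).trans ?_
    rw [Finset.sum_add_distrib, Finset.sum_const, Finset.card_univ, nsmul_eq_mul, hcard2,
      ← Finset.sum_filter, Finset.sum_const, nsmul_eq_mul]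
    have h6 : univ.filter (fun s => s ∈ bad) = bad := by
      ext s
      simp
    rw [h6]
  rw [hsum1] at hsum2
  have h2k : (0 : ℝ) < (2 : ℝ) ^ k := by positivity
  have hmain : (k.factorial : ℝ) ^ 2 * N ≤ ((2 * k).factorial : ℝ) * (534 / 1000) +
      (bad.card : ℝ) := by
    have h7 : (2 : ℝ) ^ k * ((k.factorial : ℝ) ^ 2 * N) ≤
        (2 : ℝ) ^ k * (((2 * k).factorial : ℝ) * (534 / 1000) + (bad.card : ℝ)) := by
      refine hsum2.trans (le_of_eq ?_)
      ring
    exact le_of_mul_le_mul_left h7 h2k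
  have hk' : (3000 : ℝ) ≤ k := by exact_mod_cast hk
  have hb0 : (0 : ℝ) ≤ (bad.card : ℝ) := Nat.cast_nonneg _
  have hbad2 : 3000 * (bad.card : ℝ) ≤ 16 * ((2 * k).factorial : ℝ) := by
    refine le_trans ?_ hbad
    exact mul_le_mul_of_nonneg_right hk' hb0
  have hch : ((2 * k).choose k : ℝ) * (k.factorial : ℝ) ^ 2 = ((2 * k).factorial : ℝ) := by
    have h8 := Nat.choose_mul_factorial_mul_factorial (n := 2 * k) (k := k) (by omega)
    rw [show 2 * k - k = k by omega] at h8
    rw [← h8]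
    push_cast
    ring
  have hf : (0 : ℝ) < (k.factorial : ℝ) ^ 2 := by positivity
  have hfin : (k.factorial : ℝ) ^ 2 * (100 * (N : ℝ)) ≤
      (k.factorial : ℝ) ^ 2 * (54 * ((2 * k).choose k : ℝ)) := by
    have h9 : (0 : ℝ) < ((2 * k).factorial : ℝ) := by positivity
    have h10 : (k.factorial : ℝ) ^ 2 * (54 * ((2 * k).choose k : ℝ)) =
        54 * ((2 * k).factorial : ℝ) := by
      rw [← hch]
      ring
    rw [h10]
    nlinarith
  have := le_of_mul_le_mul_left hfin hf
  linarith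

end Pool.MMq
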