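import Pool.Agent.Work.MP_9999b5_mq.Interface

set_option autoImplicit false

namespace Pool.MMq

open Finset Pool.MM15

/-- IND, one step: a subset of `S` is a subset of `A` and a subset of `S \ A`. -/
lemma IND_split {ι : Type} [DecidableEq ι] (S A : Finset ι) (hA : A ⊆ S)
    (p : Finset ι → Prop) (q : Finset ι → Prop) (r : Finset ι → Prop)
    [DecidablePred p] [DecidablePred q] [DecidablePred r]
    (hpqr : ∀ P, P ⊆ S → (r P ↔ p (P ∩ A) ∧ q (P \ A))) :
    (S.powerset.filter r).card = (A.powerset.filter p).card * ((S \ A).powerset.filter q).card := by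
  rw [← Finset.card_product]
  apply Finset.card_nbij' (fun P => (P ∩ A, P \ A)) (fun R => R.1 ∪ R.2)
  · intro P hP
    simp only [Finset.coe_filter, Finset.mem_powerset, Set.mem_setOf_eq] at hP
    simp only [Finset.coe_product, Set.mem_prod, Finset.coe_filter, Finset.mem_powerset,
      Set.mem_setOf_eq]
    have h := (hpqr P hP.1).1 hP.2
    exact ⟨⟨Finset.inter_subset_right, h.1⟩, ⟨Finset.sdiff_subset_sdiff hP.1 le_rfl, h.2⟩⟩
  · rintro ⟨R, T⟩ h
    simp only [Finset.coe_product, Set.mem_prod, Finset.coe_filter, Finset.mem_powerset,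
      Set.mem_setOf_eq] at h
    obtain ⟨⟨h1, h2⟩, ⟨h3, h4⟩⟩ := h
    have hdis : Disjoint T A := by
      rw [Finset.disjoint_left]
      intro i hi
      exact (Finset.mem_sdiff.1 (h3 hi)).2
    have hsub : R ∪ T ⊆ S :=
      Finset.union_subset (h1.trans hA) (h3.trans Finset.sdiff_subset)
    have e1 : (R ∪ T) ∩ A = R := by
      rw [Finset.union_inter_distrib_right, Finset.inter_eq_left.2 h1,
        Finset.disjoint_iff_inter_eq_empty.1 hdis, Finset.union_empty]
    have e2 : (R ∪ T) \ A = T := by
      rw [Finset.union_sdiff_distrib, Finset.sdiff_eq_empty_iff_subset.2 h1, Finset.empty_union,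
        Finset.sdiff_eq_self_of_disjoint hdis]
    simp only [Finset.coe_filter, Finset.mem_powerset, Set.mem_setOf_eq]
    refine ⟨hsub, (hpqr _ hsub).2 ?_⟩
    rw [e1, e2]
    exact ⟨h2, h4⟩
  · intro P hP
    simp only
    rw [Finset.union_comm, Finset.sdiff_union_inter]
  · rintro ⟨R, T⟩ h
    simp only [Finset.coe_product, Set.mem_prod, Finset.coe_filter, Finset.mem_powerset,
      Set.mem_setOf_eq] at h
    obtain ⟨⟨h1, h2⟩, ⟨h3, h4⟩⟩ := h
    have hdis : Disjoint T A := by
      rw [Finset.disjoint_left]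
      intro i hi
      exact (Finset.mem_sdiff.1 (h3 hi)).2
    have e1 : (R ∪ T) ∩ A = R := by
      rw [Finset.union_inter_distrib_right, Finset.inter_eq_left.2 h1,
        Finset.disjoint_iff_inter_eq_empty.1 hdis, Finset.union_empty]
    have e2 : (R ∪ T) \ A = T := by
      rw [Finset.union_sdiff_distrib, Finset.sdiff_eq_empty_iff_subset.2 h1, Finset.empty_union,
        Finset.sdiff_eq_self_of_disjoint hdis]
    simp only [e1, e2]

theorem p_IND : Stmt_IND := by
  intro ι _ S m
  induction m generalizing S with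
  | zero =>
    intro g Q _ _ _
    simp
  | succ m ih =>
    intro g Q _ hg hd
    have hsub : ∀ j : Fin m, g j.succ ⊆ S \ g 0 := by
      intro j i hi
      rw [Finset.mem_sdiff]
      exact ⟨hg _ hi, Finset.disjoint_left.1 (hd j.succ 0 (Fin.succ_ne_zero j)) hi⟩
    have h1 := ih (S \ g 0) (fun j => g j.succ) (fun j => Q j.succ) hsub
      (fun j l hjl => hd _ _ (fun h => hjl (Fin.succ_injective m h)))
    have h2 := IND_split S (g 0) (hg 0) (Q 0) (fun P => ∀ j : Fin m, Q j.succ (P ∩ g j.succ))
      (fun P => ∀ j, Q j (P ∩ g j)) (by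
        intro P hP
        rw [Fin.forall_fin_succ]
        refine and_congr_right fun _ => forall_congr' fun j => ?_
        have : (P \ g 0) ∩ g j.succ = P ∩ g j.succ := by
          ext i
          simp only [Finset.mem_inter, Finset.mem_sdiff]
          constructor
          · rintro ⟨⟨a, b⟩, c⟩
            exact ⟨a, c⟩
          · rintro ⟨a, c⟩
            exact ⟨⟨a, (Finset.mem_sdiff.1 (hsub j c)).2⟩, c⟩
        rw [this])
    have h3 : S.card = (g 0).card + (S \ g 0).card := by
      rw [add_comm]
      exact (Finset.card_sdiff_add_card_eq_card (hg 0)).symm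
    rw [Fin.prod_univ_succ, Fin.prod_univ_succ, h2, h3, pow_add]
    push_cast
    calc (((g 0).powerset.filter (Q 0)).card : ℝ) *
          (((S \ g 0).powerset.filter fun P => ∀ j : Fin m, Q j.succ (P ∩ g j.succ)).card : ℝ) *
          ((2 : ℝ) ^ (g 0).card * ∏ j : Fin m, (2 : ℝ) ^ (g j.succ).card)
        = (((g 0).powerset.filter (Q 0)).card : ℝ) * (2 : ℝ) ^ (g 0).card *
          ((((S \ g 0).powerset.filter fun P => ∀ j : Fin m, Q j.succ (P ∩ g j.succ)).card : ℝ) *
          ∏ j : Fin m, (2 : ℝ) ^ (g j.succ).card) := by ring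
      _ = _ := by
          rw [h1]
          ring

end Pool.MMq
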