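import Pool.Agent.Work.MP_9999b5_mm.Interface
import Pool.Agent.Work.MP_9999b5_ms.Defs

set_option autoImplicit false

/-!
# Manickam-Miklos-Singhi for `n = 4k + T`, `T ≤ ε k`, `k ≥ K₀` (proof of helper83), and lemmas for all `T`

Strict version: distinct reals, blocks with POSITIVE sum are counted, a low block is one with sum `≤ 0`.

MODEL. `a` is the largest number, it sits in a fixed block. The other numbers are `x : Fin N → ℝ`, `N = 4k + T - 1`, arranged by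
`s : Equiv.Perm (Fin N)` (the position `p` carries `x (s p)`, `sm x I s` is the sum over the positions `I`, `cnt P` the number of
arrangements with `P`, see `MP_9999b5_mm/Interface.lean`). Positions: `blk N k 0, blk N k 1, blk N k 2` = the three blocks without
`a`; `ra N k` = the other `k - 1` positions of the block of `a`; `rk N k` = the rest `K` (`T` positions). `jj` = number of positive
blocks among the four. `U₁ = a`, `ra`, `blk 0`; `U₂ = blk 1`, `blk 2` (the pairing used everywhere).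

RULES. One file `Pool/Agent/Work/MP_9999b5_mq/<ID>.lean` per block, `import Pool.Agent.Work.MP_9999b5_mq.Interface`, the `namespace`
and `open` lines of this file, theorem `p_<ID> : Stmt_X → Stmt_Y → Stmt_<ID>` with exactly the statements of the column `uses` of
the table `mmq_blocks` as hypotheses, in this order. Auxiliary lemmas with the name of the block in front. No straight double
quotes. Typed files of `MP_9999b5_mm`, `MP_9999b5_ms*` may be imported (`Pool.MM15.stmt_EXC`, `stmt_MOM`, `stmt_MEA`,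
`Pool.Agent.Work.MaxSums`: `SumLin`, `SumSq` = second moment over `j`-subsets, `Exchange`, `Swap`, `Cheb`, their proofs are in the
folders `MP_9999b5_ms_helper*`).
-/

namespace Pool.MMq

open Finset Pool.MM15

/-- The positions of the block of `a` (besides `a`). -/
def ra (N k : ℕ) : Finset (Fin N) := iv N (3 * k) (4 * k - 1)

/-- The positions of the rest `K`. -/
def rk (N k : ℕ) : Finset (Fin N) := iv N (4 * k - 1) N

/-- The sum of the block of `a`. -/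
noncomputable def sa {N : ℕ} (x : Fin N → ℝ) (a : ℝ) (k : ℕ) (s : Equiv.Perm (Fin N)) : ℝ :=
  a + sm x (ra N k) s

open Classical in
/-- The number of positive blocks among the four. -/
noncomputable def jj {N : ℕ} (x : Fin N → ℝ) (a : ℝ) (k : ℕ) (s : Equiv.Perm (Fin N)) : ℕ :=
  (if 0 < sa x a k s then 1 else 0) + nn x k 3 s

/-- The situation: `4k + T` distinct numbers with sum `0`, the largest is `a`. -/
structure Sit (k T N : ℕ) (x : Fin N → ℝ) (a : ℝ) : Prop where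
  two : 2 ≤ k
  hN : N + 1 = 4 * k + T
  hT : T ≤ k
  inj : Function.Injective x
  lt : ∀ i, x i < a
  sum : a + ∑ i, x i = 0

/-- Number of arrangements with no positive block. -/
noncomputable def p0 {N : ℕ} (x : Fin N → ℝ) (a : ℝ) (k : ℕ) : ℝ := cnt (fun s => jj x a k s = 0)

/-- Number of arrangements with at least two positive blocks. -/
noncomputable def pp {N : ℕ} (x : Fin N → ℝ) (a : ℝ) (k : ℕ) : ℝ := cnt (fun s => 2 ≤ jj x a k s)

/-- Number of arrangements in which the block of `a` is low. -/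
noncomputable def lam {N : ℕ} (x : Fin N → ℝ) (a : ℝ) (k : ℕ) : ℝ := cnt (fun s => sa x a k s ≤ 0)

/-- The elements on the positions `I`. -/
def im {N : ℕ} (I : Finset (Fin N)) (s : Equiv.Perm (Fin N)) : Finset (Fin N) := I.map s.toEmbedding

open Classical in
/-- Number of `k`-subsets `B` of `U` with `B` and `U \ B` low. -/
noncomputable def bb {α : Type} (x : α → ℝ) (U : Finset α) (k : ℕ) : ℝ :=
  (((U.powersetCard k).filter (fun B => ∑ i ∈ B, x i ≤ 0 ∧ ∑ i ∈ U \ B, x i ≤ 0)).card : ℝ)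

open Classical in
/-- Number of `k`-subsets `B` of `W` with `B` and `a ∪ (W \ B)` low. -/
noncomputable def ba {α : Type} (x : α → ℝ) (a : ℝ) (W : Finset α) (k : ℕ) : ℝ :=
  (((W.powersetCard k).filter (fun B => ∑ i ∈ B, x i ≤ 0 ∧ a + ∑ i ∈ W \ B, x i ≤ 0)).card : ℝ)

/-- Proportion of the halvings of `U₁` (arrangement `s`) with both parts low. -/
noncomputable def b1 {N : ℕ} (x : Fin N → ℝ) (a : ℝ) (k : ℕ) (s : Equiv.Perm (Fin N)) : ℝ :=
  ba x a (im (blk N k 0 ∪ ra N k) s) k / ((2 * k - 1).choose k : ℝ)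

/-- Proportion of the halvings of `U₂` (arrangement `s`) with both parts low. -/
noncomputable def b2 {N : ℕ} (x : Fin N → ℝ) (k : ℕ) (s : Equiv.Perm (Fin N)) : ℝ :=
  bb x (im (blk N k 1 ∪ blk N k 2) s) k / ((2 * k).choose k : ℝ)

/-! ### Negative correlation (all `T`) -/

/-- NEG (150 lines). Negative correlation of low disjoint sets. For finite types, by induction on `|V|`: remove `z ∈ V` with the
smallest `x z`. With `π = p/|V|`, `κ = q/|V|` and the conditional probabilities `α' ≥ α` (`x(C) ≤ u` if `z ∈ C`, resp. `z ∉ C`), `β' ≥ β`: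
`P(A ∩ B) ≤ π α' β + κ α β' + (1 - π - κ) α β` (induction for `V - z`), and `P(A) P(B)` minus this is `π κ (α' - α)(β' - β) ≥ 0`. `α' ≥ α`:
`p #{C ∋ z : x(C) ≤ u} ≥ ...`: replace an element of a `p`-set `C` of `V - z` by `z`. In numbers: the left side counts pairs. -/
def Stmt_NEG : Prop := ∀ (α : Type) [DecidableEq α] (V : Finset α) (x : α → ℝ) (p q : ℕ) (u v : ℝ),
  p + q ≤ V.card →
  (∑ C ∈ (V.powersetCard p).filter (fun C => ∑ i ∈ C, x i ≤ u),
      ((((V \ C).powersetCard q).filter (fun D => ∑ i ∈ D, x i ≤ v)).card : ℝ)) *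
      (V.card.choose q : ℝ) ≤
    (((V.powersetCard p).filter (fun C => ∑ i ∈ C, x i ≤ u)).card : ℝ) *
      (((V.powersetCard q).filter (fun D => ∑ i ∈ D, x i ≤ v)).card : ℝ) *
      ((V.card - p).choose q : ℝ)

/-- NES (80 lines; uses NEG). The same for arrangements: disjoint sets of positions. `cnt (Φ (im I s, im J s))` is
`|I|! |J|! (N - |I| - |J|)!` times the sum over the pairs `(C, D)` of disjoint sets of sizes `|I|`, `|J|`. -/
def Stmt_NES : Prop := ∀ (N : ℕ) (x : Fin N → ℝ) (I J : Finset (Fin N)) (u v : ℝ), Disjoint I J →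
  (N.factorial : ℝ) * cnt (fun s => sm x I s ≤ u ∧ sm x J s ≤ v) ≤
    cnt (fun s => sm x I s ≤ u) * cnt (fun s => sm x J s ≤ v)

/-- N2 (120 lines; uses NES). `C = ra`, `C₁` = the first `k - 1` positions of `blk 2`, `y` its last position. `G`: `sa ≤ 0`, `a + x(C₁) > 0` and
`blk 0` or `blk 1` positive. Exchange the contents of `C` and `C₁` (right multiplication by a permutation of positions): `jj ≥ 2`. So
`pp ≥ cnt G ≥ cnt (sa ≤ 0, a + x(C₁) > 0) - cnt (sa ≤ 0, blk 0, blk 1 low)`. First term: `lam - cnt (sa ≤ 0, a + x(C₁) ≤ 0) ≥ lam - lam²/N!`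
(NES with `u = v = -a`). Second: `= p0 + cnt (sa ≤ 0, only blk 2 positive)`, and three times the last is
`cnt (sa ≤ 0, exactly one of the blocks positive) ≤ lam` (EXC with the index type `Fin 4` for `ra`, `blk 0, 1, 2`). -/
def Stmt_N2 : Prop := ∀ (k T N : ℕ) (x : Fin N → ℝ) (a : ℝ), Sit k T N x a →
  2 / 3 * lam x a k * (N.factorial : ℝ) ≤ lam x a k ^ 2 + (N.factorial : ℝ) * (p0 x a k + pp x a k)

/-! ### The rough part (all `T`) -/

/-- ORB (150 lines). Given `U₁` and `U₂` the two halvings are independent and uniform. Average over the permutations of the positions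
`blk 0 ∪ ra` and of `blk 1 ∪ blk 2` (right multiplication of `s`); for a finite set `W` and a set of positions `I ⊆ P`, `|P| = |W|`, the
bijections `P → W` map `I` to each `|I|`-subset of `W` equally often. -/
def Stmt_ORB : Prop := ∀ (N k : ℕ), 2 ≤ k → 4 * k - 1 ≤ N →
  ∀ F₁ F₂ : Finset (Fin N) → Finset (Fin N) → ℝ,
    ((2 * k - 1).choose k : ℝ) * ((2 * k).choose k : ℝ) *
      ∑ s : Equiv.Perm (Fin N), F₁ (im (blk N k 0) s) (im (blk N k 0 ∪ ra N k) s) *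
        F₂ (im (blk N k 1) s) (im (blk N k 1 ∪ blk N k 2) s) =
    ∑ s : Equiv.Perm (Fin N),
      (∑ B ∈ (im (blk N k 0 ∪ ra N k) s).powersetCard k, F₁ B (im (blk N k 0 ∪ ra N k) s)) *
      (∑ B ∈ (im (blk N k 1 ∪ blk N k 2) s).powersetCard k, F₂ B (im (blk N k 1 ∪ blk N k 2) s))

/-- R1 (80 lines; uses ORB). If `b1, b2 ≤ .54`: no positive block has proportion `b1 b2` (ORB) and, if `b1 b2 > 0` (then `x(U₁) ≤ 0`,
`x(U₂) ≤ 0`, no halving has two positive parts), one positive block in each of `U₁`, `U₂` has proportion `(1 - b1)(1 - b2) ≥ (46/54)² b1 b2`. -/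
def Stmt_R1 : Prop := ∀ (k T N : ℕ) (x : Fin N → ℝ) (a : ℝ), Sit k T N x a →
  (46 / 54) ^ 2 * cnt (fun s => jj x a k s = 0 ∧ b1 x a k s ≤ 54 / 100 ∧ b2 x k s ≤ 54 / 100) ≤
    cnt (fun s => jj x a k s = 2 ∧ ((0 < sa x a k s ∧ sm x (blk N k 0) s ≤ 0) ∨
      (sa x a k s ≤ 0 ∧ 0 < sm x (blk N k 0) s)))

/-- R2 (60 lines). Two positive blocks are separated by the pairing in `4` of `6` cases; `EXC` for `ra`, `blk 0, 1, 2`. -/
def Stmt_R2 : Prop := ∀ (k T N : ℕ) (x : Fin N → ℝ) (a : ℝ), Sit k T N x a →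
  3 * cnt (fun s => jj x a k s = 2 ∧ ((0 < sa x a k s ∧ sm x (blk N k 0) s ≤ 0) ∨
      (sa x a k s ≤ 0 ∧ 0 < sm x (blk N k 0) s))) =
    2 * cnt (fun s => jj x a k s = 2)

/-! ### Rough or flat (all `T`) -/

/-- PZ (60 lines). `Z = D²`, `D` = random signed sum: `E Z = e := ∑ d²`, `E Z² ≤ 3 e²`. `e = E Z ≤ e/4 + E (Z; Z > e/4)`, Cauchy-Schwarz. -/
def Stmt_PZ : Prop := ∀ (ι : Type) [DecidableEq ι] (S : Finset ι) (d : ι → ℝ) (h : ℝ), 0 ≤ h →
  0 < ∑ i ∈ S, d i ^ 2 → 4 * h ^ 2 ≤ ∑ i ∈ S, d i ^ 2 →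
  3 * (2 : ℝ) ^ S.card ≤
    16 * ((S.powerset.filter (fun P => h < |∑ i ∈ P, d i - ∑ i ∈ S \ P, d i|)).card : ℝ)

/-- GRP (60 lines). Greedy: a minimal subset with `∑ d² ≥ 4h²` has `∑ d² ≤ 5h²`. -/
def Stmt_GRP : Prop := ∀ (ι : Type) [DecidableEq ι] (S : Finset ι) (d : ι → ℝ) (h : ℝ), 0 < h →
  (∀ i ∈ S, |d i| ≤ h) → 75 * h ^ 2 ≤ ∑ i ∈ S, d i ^ 2 →
  ∃ g : Fin 13 → Finset ι, (∀ j, g j ⊆ S) ∧ (∀ j l, j ≠ l → Disjoint (g j) (g l)) ∧
    ∀ j, 4 * h ^ 2 ≤ ∑ i ∈ g j, d i ^ 2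

/-- IND (80 lines). Independence over disjoint groups. -/
def Stmt_IND : Prop := ∀ (ι : Type) [DecidableEq ι] (S : Finset ι) (m : ℕ) (g : Fin m → Finset ι)
  (Q : Fin m → Finset ι → Prop) [∀ j, DecidablePred (Q j)], (∀ j, g j ⊆ S) →
  (∀ j l, j ≠ l → Disjoint (g j) (g l)) →
  ((S.powerset.filter (fun P => ∀ j, Q j (P ∩ g j))).card : ℝ) * ∏ j, (2 : ℝ) ^ (g j).card =
    (2 : ℝ) ^ S.card * ∏ j, (((g j).powerset.filter (Q j)).card : ℝ)

/-- SGN (150 lines; uses PZ GRP IND). If some `|d i| > h`: at most one of `P`, `P ∆ {i}` is in the window. Otherwise `h > 0`; groups from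
GRP; `D_j(P)` = signed sum over `g j`. Flipping whole groups: if some `|D_j(P)| > h`, at most half of the `2^13` flips are in the window
(`|R ± D_j| ≤ h` not for both signs); `P(all |D_j| ≤ h) ≤ (13/16)^13` (PZ, IND). Total `1/2 + (1/2)(13/16)^13 ≤ .534`. (Sum over `P` of the
number of flips of `P` in the window = `2^13` times the number in question.) -/
def Stmt_SGN : Prop := ∀ (ι : Type) [DecidableEq ι] (S : Finset ι) (d : ι → ℝ) (h : ℝ), 0 ≤ h →
  0 < ∑ i ∈ S, d i ^ 2 → 75 * h ^ 2 ≤ ∑ i ∈ S, d i ^ 2 →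
  1000 * ((S.powerset.filter (fun P => |∑ i ∈ P, d i - ∑ i ∈ S \ P, d i| ≤ h)).card : ℝ) ≤
    534 * (2 : ℝ) ^ S.card

/-- MSM (150 lines), second moment of a random matching. The positions are `Fin k × Bool`, the pairs `(i, true), (i, false)`.
`∑ᵢ dᵢ² = E - 2 Z`, `E = ∑ y²`, `Z = ∑ᵢ y(s(i,1)) y(s(i,0))`. `E_s Z² = k · E[y_p² y_q²] + k(k-1) E[y_p y_q y_r y_t]` (distinct indices),
`E[y_p² y_q²] ≤ E²/(2k(2k-1))`, and the sum over the ordered 4-tuples of distinct indices is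
`t⁴ - 6 t² E + 3 E² + 8 t ∑ y³ - 6 ∑ y⁴ ≤ 24 E²` with `t = ∑ y`, `t² ≤ E`. So `E_s Z² ≤ E²/k` and Markov. (Alternative: compare
`E D⁴` for halvings, `stmt_MOM`, with `E_s E_signs D⁴ = E_s (3 (∑ d²)² - 2 ∑ d⁴)`.) -/
def Stmt_MSM : Prop := ∀ (k : ℕ) (y : Fin k × Bool → ℝ), 10 ≤ k →
  (∑ p, y p) ^ 2 ≤ ∑ p, y p ^ 2 → 0 < ∑ p, y p ^ 2 →
  (k : ℝ) * ((univ.filter (fun s : Equiv.Perm (Fin k × Bool) =>
      ∑ i, (y (s (i, true)) - y (s (i, false))) ^ 2 < (∑ p, y p ^ 2) / 2)).card : ℝ) ≤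
    16 * ((2 * k).factorial : ℝ)

/-- UNI (80 lines). Random matching and random signs give a uniform half. -/
def Stmt_UNI : Prop := ∀ (k : ℕ) (P : Finset (Fin k)) (Φ : Finset (Fin k × Bool) → ℝ),
  ∑ s : Equiv.Perm (Fin k × Bool), Φ (univ.image (fun i : Fin k => s (i, decide (i ∈ P)))) =
    (k.factorial : ℝ) ^ 2 * ∑ B ∈ (univ : Finset (Fin k × Bool)).powersetCard k, Φ B

/-- HLV (80 lines; uses SGN MSM UNI). `h = -x(U) ≥ 0`, transport to `Fin k × Bool`. Both halves low: `|D| ≤ h`, `D` = difference of the halves.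
Average over the matchings `s` and the signs `P`: good matchings (`∑ d² ≥ E/2 ≥ 75 h²`) give `≤ .534`, the others are at most `16/k ≤ .006`. -/
def Stmt_HLV : Prop := ∀ (α : Type) (U : Finset α) (x : α → ℝ) (k : ℕ), 3000 ≤ k → U.card = 2 * k →
  ∑ i ∈ U, x i ≤ 0 → 0 < ∑ i ∈ U, x i ^ 2 → 150 * (∑ i ∈ U, x i) ^ 2 ≤ ∑ i ∈ U, x i ^ 2 →
  100 * bb x U k ≤ 54 * ((2 * k).choose k : ℝ)

/-- HLA (60 lines; uses HLV). HLV for `U = {none} ∪ W` in `Option α`: the halvings of `U` with both parts low are twice the `ba`, and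
`C(2k,k) = 2 C(2k-1,k)`. -/
def Stmt_HLA : Prop := ∀ (α : Type) (W : Finset α) (x : α → ℝ) (a : ℝ) (k : ℕ), 3000 ≤ k →
  W.card = 2 * k - 1 → a + ∑ i ∈ W, x i ≤ 0 → 0 < a ^ 2 + ∑ i ∈ W, x i ^ 2 →
  150 * (a + ∑ i ∈ W, x i) ^ 2 ≤ a ^ 2 + ∑ i ∈ W, x i ^ 2 →
  100 * ba x a W k ≤ 54 * ((2 * k - 1).choose k : ℝ)

/-- RGH (100 lines; uses R1 R2 HLV HLA). `jj = 0`, then `x(K) = -x(U₁) - x(U₂)`, `x(U₁), x(U₂) ≤ 0`, so `|x(U₁)|, |x(U₂)| ≤ x(K)`. If `b2 > .54`: HLV,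
`∑_{U₂} x² < 150 x(U₂)² ≤ 150 x(K)²`, so this holds for `blk 1`; exchange `blk 0` and `blk 1` (`EXC`-like, right multiplication by a
permutation of positions: `jj`, `rk` do not change). If `b1 > .54`: HLA, `blk 0`. -/
def Stmt_RGH : Prop := ∀ (k T N : ℕ) (x : Fin N → ℝ) (a : ℝ), 3000 ≤ k → Sit k T N x a →
  p0 x a k ≤ 919 / 1000 * cnt (fun s => jj x a k s = 2) +
    2 * cnt (fun s => jj x a k s = 0 ∧ ∑ p ∈ blk N k 0, x (s p) ^ 2 ≤ 150 * sm x (rk N k) s ^ 2)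

/-! ### The flat part, `T ≤ ε k` -/

/-- YL (120 lines). `Y`, `|Y| = k + T`, `e = ∑_Y x² > 0`. Either `∑_{K'} x² ≥ e/2` (Markov, proportion `≤ 2T/(k+T)`), or
`e ≤ 2 ∑_{Y \ K'} x² ≤ 300 x(K')²`; with `x(K') ≥ x(Y) ≥ 0`: `x(K') - (T/(k+T)) x(Y) ≥ (k/(k+T)) x(K') ≥ (k/(k+T)) √(e/300)`. Chebyshev
(`SumSq`, variance `≤ (T/(k+T)) e`): proportion `≤ 300 T (k+T)/k² ≤ 600 T/k`. -/
def Stmt_YL : Prop := ∀ (α : Type) [DecidableEq α] (Y : Finset α) (x : α → ℝ) (k T : ℕ), 2 ≤ k →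
  T ≤ k → Y.card = k + T → 0 ≤ ∑ i ∈ Y, x i → 0 < ∑ i ∈ Y, x i ^ 2 →
  (k : ℝ) * (((Y.powersetCard T).filter (fun K => ∑ i ∈ Y, x i ≤ ∑ i ∈ K, x i ∧
      ∑ i ∈ Y \ K, x i ^ 2 ≤ 150 * (∑ i ∈ K, x i) ^ 2)).card : ℝ) ≤
    700 * T * ((k + T).choose T : ℝ)

/-- YY (100 lines; uses YL). Re-randomise `blk 0` and `rk` (positions `blk 0 ∪ rk`, `k + T` of them): the sets `im (blk 0 ∪ rk)` and the
contents of the other positions are fixed. If `jj = 0`: `x(Y) = -` (sum of the three other blocks) `≥ 0` and `x(K) = x(Y) - x(blk 0) ≥ x(Y)`.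
The block of `a` stays low. -/
def Stmt_YY : Prop := ∀ (k T N : ℕ) (x : Fin N → ℝ) (a : ℝ), Sit k T N x a →
  (k : ℝ) * cnt (fun s => jj x a k s = 0 ∧
      ∑ p ∈ blk N k 0, x (s p) ^ 2 ≤ 150 * sm x (rk N k) s ^ 2) ≤
    700 * T * lam x a k

/-! ### Energy, `T ≤ ε k` -/

/-- EN (100 lines; uses `stmt_MOM`, or a hypothesis is not needed: import `MP_9999b5_mm.MOM`). Let `h = -x(U) ≥ 0`, `D` = difference of the halves,
`E D² = 4 E(∑_B y)² = (2k/(2k-1)) (e - h²/2k)` with `y` = centred `x`, `e = ∑_U x²`; `E D⁴ ≤ 4 (E D²)²` (MOM with `|K| = 2k`; the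
coefficient of `∑ y⁴` is `≤ 0`, the quotient is `3(k-1)(2k-1)/(k(2k-3)) ≤ 4` for `k ≥ 3`). If `|D| ≤ h` with proportion `≥ 1 - η`: `E D² ≤ h² + √(η E D⁴) ≤ h² + 2√η E D²`. With
`(2k - 1) E D² = 2k e - h²` this is `(1 - 2√η) e ≤ h²`. -/
def Stmt_EN : Prop := ∀ (α : Type) (U : Finset α) (x : α → ℝ) (k : ℕ) (η : ℝ), 3 ≤ k →
  U.card = 2 * k → ∑ i ∈ U, x i ≤ 0 → 0 ≤ η → η ≤ 1 / 16 →
  (1 - η) * ((2 * k).choose k : ℝ) ≤ bb x U k →
  (1 - 2 * √η) * ∑ i ∈ U, x i ^ 2 ≤ (∑ i ∈ U, x i) ^ 2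

/-- ENA (50 lines; uses EN), the same for `U = {a} ∪ W` (as HLA). -/
def Stmt_ENA : Prop := ∀ (α : Type) (W : Finset α) (x : α → ℝ) (a : ℝ) (k : ℕ) (η : ℝ), 3 ≤ k →
  W.card = 2 * k - 1 → a + ∑ i ∈ W, x i ≤ 0 → 0 ≤ η → η ≤ 1 / 16 →
  (1 - η) * ((2 * k - 1).choose k : ℝ) ≤ ba x a W k →
  (1 - 2 * √η) * (a ^ 2 + ∑ i ∈ W, x i ^ 2) ≤ (a + ∑ i ∈ W, x i) ^ 2

end Pool.MMq
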