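import Pool.Agent.Work.MP_9999b5_mq.Interface
import Pool.Agent.Work.MP_9999b5_ms_helper84.Top

set_option autoImplicit false

/-!
# Manickam-Miklos-Singhi for `n = 4k + T`, `10¹¹ T ≤ k`, `k ≥ 3000`: second half of the interface

Blocks GD BL SWP RKB MO EGY N3 SUM FIN FI2. Conventions of `Interface.lean`; the files import this file.
-/

namespace Pool.MMq

open Finset Pool.MM15 Pool.Agent.Work.MaxSums

/-- The total energy `a² + ∑ x²`. -/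
noncomputable def qe {N : ℕ} (x : Fin N → ℝ) (a : ℝ) : ℝ := a ^ 2 + ∑ i, x i ^ 2

/-- GD (80 lines; uses ORB). With `F₁ B W = [x(B) ≤ 0, a + x(W \ B) ≤ 0]`, `F₂ B U = [x(B) ≤ 0, x(U \ B) ≤ 0]`: ORB for `F₁, F₂` gives
`∑ b1 b2 ≤ p0` (`jj = 0`), ORB for `1 - F₁, 1 - F₂` gives `∑ (1-b1)(1-b2) ≤ pp` (a positive block in `U₁` and one in `U₂`).
(`im (blk 0 ∪ ra) s \ im (blk 0) s = im ra s`, `∑_{i ∈ im I s} x i = sm x I s`.) -/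
def Stmt_GD : Prop := ∀ (k T N : ℕ) (x : Fin N → ℝ) (a : ℝ), Sit k T N x a →
  ∑ s : Equiv.Perm (Fin N),
      (b1 x a k s * b2 x k s + (1 - b1 x a k s) * (1 - b2 x k s)) ≤ p0 x a k + pp x a k

/-- BL (100 lines; uses ORB). ORB with `F₂ = 1`: `∑ b1 = cnt (sa ≤ 0, blk 0 low)`. This is at least `cnt (sa ≤ 0, only blk 1 positive) +
cnt (sa ≤ 0, only blk 2 positive) = (2/3) cnt (sa ≤ 0, exactly one positive block)` (EXC for `ra, blk 0, blk 1, blk 2`) and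
`cnt (sa ≤ 0, jj = 1) ≥ lam - p0 - pp`. -/
def Stmt_BL : Prop := ∀ (k T N : ℕ) (x : Fin N → ℝ) (a : ℝ), Sit k T N x a →
  2 * lam x a k ≤ 3 * ∑ s : Equiv.Perm (Fin N), b1 x a k s + 2 * (p0 x a k + pp x a k)

/-- SWP (120 lines). `cnt (1-η ≤ b1) = ` the parts with `b ∈ im (blk 0 ∪ ra)`, `b ∈ im (blk 1 ∪ blk 2)`, `b ∈ im rk`. In the second part fix the
position `p ∈ blk 1 ∪ blk 2` of `b` (`s p = b`) and an involution `σ` of the positions which exchanges `blk 0 ∪ ra` with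
`(blk 1 ∪ blk 2) \ {p}` (both `2k - 1` positions) and fixes the others. For `s' = s ∘ σ`: `s' p = b`, `U₂(s') = {b} ∪ W` with
`W = im (blk 0 ∪ ra) s`, and `b2(s') ≥ b1(s)`: a `k`-subset `B` of `W` with `B`, `a + (W \ B)` low gives the two `k`-subsets `B` and
`{b} ∪ (W \ B)` of `U₂(s')`, since `x b < a`; and `C(2k,k) = 2 C(2k-1,k)`. (For the doubling see `ENA_two` in `ENA.lean`.) -/
def Stmt_SWP : Prop := ∀ (k T N : ℕ) (x : Fin N → ℝ) (a η : ℝ) (b : Fin N), Sit k T N x a →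
  cnt (fun s => 1 - η ≤ b1 x a k s) ≤
    cnt (fun s => 1 - η ≤ b1 x a k s ∧ b ∈ im (blk N k 0 ∪ ra N k) s) +
    cnt (fun s => 1 - η ≤ b2 x k s ∧ b ∈ im (blk N k 1 ∪ blk N k 2) s) +
    cnt (fun s => b ∈ im (rk N k) s)

/-- RKB (40 lines). `cnt (s p = b) = (N-1)!` for each `p`. -/
def Stmt_RKB : Prop := ∀ (N : ℕ) (I : Finset (Fin N)) (b : Fin N),
  (N : ℝ) * cnt (fun s => b ∈ im I s) = (I.card : ℝ) * (N.factorial : ℝ)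

/-- MO (150 lines), moments over the arrangements. `∑_s Φ (im I s) = |I|! (N-|I|)! ∑_{B ∈ powersetCard |I|} Φ B` and `SumSq`, `stmt_MOM`
(proved, import). Second moments (`∑ x = -a`): `E x(I)² = |I|(N-|I|)/(N(N-1)) ∑ x² + |I|(|I|-1)/(N(N-1)) a²`; for `|I| = 2k`, `N ≥ 4k - 1` both
coefficients are `≤ 1/4 + 1/(8k)`; for `|I| = T` they are `≤ T/N ≤ T/k`. Fourth moment: `y = x + a/N` is centred, `∑ y² ≤ ∑ x²`, `MOM` gives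
`E y(I)⁴ ≤ (∑ y²)²` (`∑ y⁴ ≤ (∑ y²)²`, `k ≥ 10`), `x(I) = y(I) - (2k/N) a`, `(u+v)⁴ ≤ 8u⁴ + 8v⁴`, `(2k/N)⁴ ≤ 1`. -/
def Stmt_MO : Prop := ∀ (k T N : ℕ) (x : Fin N → ℝ) (a : ℝ), 10 ≤ k → Sit k T N x a →
  (8 * (k : ℝ) * ∑ s : Equiv.Perm (Fin N), sm x (blk N k 1 ∪ blk N k 2) s ^ 2 ≤
    (2 * k + 1) * (N.factorial : ℝ) * qe x a) ∧
  ((k : ℝ) * ∑ s : Equiv.Perm (Fin N), sm x (rk N k) s ^ 2 ≤
    (T : ℝ) * (N.factorial : ℝ) * qe x a) ∧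
  (∑ s : Equiv.Perm (Fin N), sm x (blk N k 1 ∪ blk N k 2) s ^ 4 ≤
    16 * (N.factorial : ℝ) * qe x a ^ 2)

open Classical in
/-- EGY (150 lines; uses GD MO EN ENA). `I₁ = [399/400 ≤ b1]`, `I₂ = [399/400 ≤ b2]`. ENA/EN with `η = 1/400`, `√η = 1/20`: on `I₁`
`0.9 (a² + ∑_{W₁} x²) ≤ x(U₁)²`, on `I₂` `0.9 ∑_{U₂} x² ≤ x(U₂)²` (`b > 0` gives `x(U) ≤ 0`). `x(U₁) = -x(U₂) - x(K)`, so
`x(U₁)² ≤ 1.05 x(U₂)² + 21 x(K)²`. `[I₁] + [I₂] ≤ 1 + [I₁ I₂]`, `x(U₂)² [I₁ I₂] ≤ x(U₂)⁴/(2000 Q) + 500 Q [I₁ I₂]`, `cnt (I₁ I₂) ≤ 2 ∑ b1 b2 ≤ 2 (p0 + pp)`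
(GD). With MO the sum is at most `(1.05 (.2501 + .008 + .001) + .0021)/.9 ≤ .31` times `N! Q`. -/
def Stmt_EGY : Prop := ∀ (k T N : ℕ) (x : Fin N → ℝ) (a : ℝ), 3000 ≤ k → 10000 * T ≤ k →
  Sit k T N x a → 1000000 * (p0 x a k + pp x a k) ≤ (N.factorial : ℝ) →
  100 * ∑ s : Equiv.Perm (Fin N),
      ((if 1 - 1 / 400 ≤ b1 x a k s then a ^ 2 + ∑ i ∈ im (blk N k 0 ∪ ra N k) s, x i ^ 2 else 0) +
        (if 1 - 1 / 400 ≤ b2 x k s then ∑ i ∈ im (blk N k 1 ∪ blk N k 2) s, x i ^ 2 else 0)) ≤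
    32 * (N.factorial : ℝ) * qe x a

/-- N3 (120 lines; uses GD BL SWP RKB EGY). The sum in EGY is `a² cnt I₁ + ∑_b x_b² (cnt (I₁, b ∈ W₁) + cnt (I₂, b ∈ U₂))`, by SWP, RKB
`≥ Q (cnt I₁ - (T/k) N!)`, so `cnt I₁ ≤ .3201 N!` (`Q > 0`). Pointwise `b1 ≤ [I₁] + 1/400 + 400 φ` with `φ = b1 b2 + (1-b1)(1-b2)` (`φ ≥ min(b1, 1-b1)`).
So `∑ b1 ≤ (.3201 + .0025 + .0004) N!` (GD), and BL. -/
def Stmt_N3 : Prop := ∀ (k T N : ℕ) (x : Fin N → ℝ) (a : ℝ), 3000 ≤ k → 10000 * T ≤ k →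
  Sit k T N x a → 1000000 * (p0 x a k + pp x a k) ≤ (N.factorial : ℝ) →
  2 * lam x a k ≤ (N.factorial : ℝ)

/-- SUM (80 lines; uses N2 RGH YY N3). `lam ≤ 10⁶ (p0 + pp)`: if `10⁶ (p0+pp) > N!` since `lam ≤ N!`, otherwise `2 lam ≤ N!` (N3) and N2 gives
`lam ≤ 6 (p0 + pp)`. `p0 ≤ .919 pp + 1400 (T/k) lam ≤ .919 pp + .014 (p0 + pp)` (`cnt (jj = 2) ≤ pp`), so `p0 ≤ pp`, and
`∑ jj ≥ N! - p0 + pp`. -/
def Stmt_SUM : Prop := ∀ (k T N : ℕ) (x : Fin N → ℝ) (a : ℝ), 3000 ≤ k →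
  100000000000 * T ≤ k → Sit k T N x a →
  (N.factorial : ℝ) ≤ ∑ s : Equiv.Perm (Fin N), (jj x a k s : ℝ)

/-- FIN (150 lines; uses SUM). `a'` = the largest of the `x i`, at `i₀`, `x'` the others (`Fin N`, `N = n - 1`, by `i₀.succAbove`), both minus the
mean. `C(N,k) ∑ nn x' k 3 = 3 N! pos x' k` (`stmt_MEA`), `C(N,k-1) ∑ [sa > 0] = N! A`, `A = #{R : |R| = k-1, a' + x'(R) > 0}`,
`C(N,k) = C(N,k-1) (3k+T)/k`. So SUM gives `C(N,k-1) ≤ A + (3k/(3k+T)) pos x' k ≤ A + pos x' k ≤ pos x k` (split the `k`-sets by `i₀`). -/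
def Stmt_FIN : Prop := ∀ (n k T : ℕ) (x : Fin n → ℝ), 3000 ≤ k → 100000000000 * T ≤ k →
  n = 4 * k + T → Function.Injective x → 0 ≤ ∑ i, x i → (n - 1).choose (k - 1) ≤ Pool.MM15.pos x k

/-- FI2 (60 lines; uses FIN). `q = 4`: as `MP_9999b5_mm/FIN2.lean`; `q → q+1`: `Transfer.greatest_of_MMS`, `Transfer.MMS_of_greatest` in
`MP_9999b5_ms_helper84.Transfer4`. -/
def Stmt_FI2 : Prop := ∀ (q k T : ℕ), 4 ≤ q → 3000 ≤ k → 100000000000 * T ≤ k →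
  IsGreatest (values k (q * k + T)) ((q * k + T - 1).choose k) ∧ MMS k (q * k + T)

end Pool.MMq
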