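import Pool.Agent.Work.MP_9999b5_mq.Interface

set_option autoImplicit false

/-! # Block MSM: second moment of a random matching -/

namespace Pool.MMq

open Finset Pool.MM15

section
variable {A : Type} [Fintype A] [DecidableEq A]

/-- The basic step: an unused position is averaged. -/
theorem MSM_lin (P : Finset A) (t0 : A) (g : Equiv.Perm A → ℝ)
    (hg : ∀ t, t ∉ P → ∀ s : Equiv.Perm A, g (s * Equiv.swap t t0) = g s) (φ : A → ℝ) :
    ((Fintype.card A : ℝ) - P.card) * ∑ s : Equiv.Perm A, g s * φ (s t0) =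
      ∑ s : Equiv.Perm A, g s * (∑ a, φ a - ∑ p ∈ P, φ (s p)) := by
  have h1 : ∀ s : Equiv.Perm A, ∑ a, φ a - ∑ p ∈ P, φ (s p) = ∑ t ∈ Pᶜ, φ (s t) := by
    intro s
    have : ∑ a, φ a = ∑ t, φ (s t) := (Equiv.sum_comp s φ).symm
    rw [this, ← Finset.sum_add_sum_compl P (fun t => φ (s t))]
    ring
  have h2 : ∀ t ∈ Pᶜ, ∑ s : Equiv.Perm A, g s * φ (s t) = ∑ s : Equiv.Perm A, g s * φ (s t0) := by
    intro t ht
    rw [Finset.mem_compl] at ht
    have := (Equiv.sum_comp (Equiv.mulRight (Equiv.swap t t0)) (fun s : Equiv.Perm A => g s * φ (s t)))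
    rw [← this]
    refine Finset.sum_congr rfl fun s _ => ?_
    simp only [Equiv.coe_mulRight]
    rw [hg t ht s]
    simp [Equiv.Perm.mul_apply]
  calc ((Fintype.card A : ℝ) - P.card) * ∑ s : Equiv.Perm A, g s * φ (s t0)
      = ∑ _t ∈ Pᶜ, ∑ s : Equiv.Perm A, g s * φ (s t0) := by
        rw [Finset.sum_const, nsmul_eq_mul, Finset.card_compl,
          Nat.cast_sub (Finset.card_le_univ P)]
    _ = ∑ t ∈ Pᶜ, ∑ s : Equiv.Perm A, g s * φ (s t) :=
        (Finset.sum_congr rfl fun t ht => (h2 t ht)).symm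
    _ = ∑ s : Equiv.Perm A, ∑ t ∈ Pᶜ, g s * φ (s t) := Finset.sum_comm
    _ = _ := by
        refine Finset.sum_congr rfl fun s _ => ?_
        rw [h1 s, Finset.mul_sum]

theorem MSM_one (p : A) (φ : A → ℝ) :
    (Fintype.card A : ℝ) * ∑ s : Equiv.Perm A, φ (s p) =
      (Fintype.card A).factorial * ∑ a, φ a := by
  have := MSM_lin (∅ : Finset A) p (fun _ => (1 : ℝ)) (by intros; rfl) φ
  simp only [Finset.card_empty, Nat.cast_zero, sub_zero, one_mul, Finset.sum_empty,
    Finset.sum_const, Finset.card_univ, nsmul_eq_mul, Fintype.card_perm] at this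
  exact this

theorem MSM_two (p q : A) (hpq : p ≠ q) (φ ψ : A → ℝ) :
    (Fintype.card A : ℝ) * ((Fintype.card A : ℝ) - 1) *
        ∑ s : Equiv.Perm A, φ (s p) * ψ (s q) =
      (Fintype.card A).factorial * ((∑ a, φ a) * (∑ a, ψ a) - ∑ a, φ a * ψ a) := by
  have h := MSM_lin ({p} : Finset A) q (fun s => φ (s p))
    (by
      intro t ht s
      have hp : p ≠ t := by
        intro h; apply ht; simp [h]
      simp [Equiv.Perm.mul_apply, Equiv.swap_apply_of_ne_of_ne hp hpq]) ψ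
  simp only [Finset.card_singleton, Nat.cast_one, Finset.sum_singleton] at h
  have h1 := MSM_one p φ
  have h2 := MSM_one p (fun a => φ a * ψ a)
  have h3 : ∑ s : Equiv.Perm A, φ (s p) * (∑ a, ψ a - ψ (s p)) =
      (∑ a, ψ a) * ∑ s : Equiv.Perm A, φ (s p) - ∑ s : Equiv.Perm A, φ (s p) * ψ (s p) := by
    rw [Finset.mul_sum, ← Finset.sum_sub_distrib]
    exact Finset.sum_congr rfl fun s _ => by ring
  rw [h3] at h
  have h4 : (Fintype.card A : ℝ) * (((Fintype.card A : ℝ) - 1) *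
        ∑ s : Equiv.Perm A, φ (s p) * ψ (s q)) =
      (∑ a, ψ a) * ((Fintype.card A : ℝ) * ∑ s : Equiv.Perm A, φ (s p)) -
      (Fintype.card A : ℝ) * ∑ s : Equiv.Perm A, φ (s p) * ψ (s p) := by
    rw [h]; ring
  rw [mul_assoc, h4, h1, h2]
  ring

theorem MSM_three (p q r : A) (hpq : p ≠ q) (hpr : p ≠ r) (hqr : q ≠ r) (φ ψ χ : A → ℝ) :
    (Fintype.card A : ℝ) * ((Fintype.card A : ℝ) - 1) * ((Fintype.card A : ℝ) - 2) *
        ∑ s : Equiv.Perm A, φ (s p) * ψ (s q) * χ (s r) =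
      (Fintype.card A).factorial *
        ((∑ a, χ a) * ((∑ a, φ a) * (∑ a, ψ a) - ∑ a, φ a * ψ a)
          - ((∑ a, φ a * χ a) * (∑ a, ψ a) - ∑ a, φ a * χ a * ψ a)
          - ((∑ a, φ a) * (∑ a, ψ a * χ a) - ∑ a, φ a * (ψ a * χ a))) := by
  have h := MSM_lin ({p, q} : Finset A) r
    (fun s => φ (s p) * ψ (s q))
    (by
      intro t ht s
      have hp : p ≠ t := by
        intro h; apply ht; simp [h]
      have hq : q ≠ t := by
        intro h; apply ht; simp [h]
      simp [Equiv.Perm.mul_apply, Equiv.swap_apply_of_ne_of_ne hp hpr,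
        Equiv.swap_apply_of_ne_of_ne hq hqr]) χ
  rw [Finset.card_pair hpq] at h
  have h3 : ∑ s : Equiv.Perm A, φ (s p) * ψ (s q) * (∑ a, χ a - ∑ x ∈ ({p, q} : Finset A), χ (s x)) =
      (∑ a, χ a) * ∑ s : Equiv.Perm A, φ (s p) * ψ (s q)
        - ∑ s : Equiv.Perm A, (φ (s p) * χ (s p)) * ψ (s q)
        - ∑ s : Equiv.Perm A, φ (s p) * (ψ (s q) * χ (s q)) := by
    rw [Finset.mul_sum, ← Finset.sum_sub_distrib, ← Finset.sum_sub_distrib]
    refine Finset.sum_congr rfl fun s _ => ?_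
    rw [Finset.sum_pair hpq]; ring
  rw [h3] at h
  have a1 := MSM_two p q hpq φ ψ
  have a2 := MSM_two p q hpq (fun a => φ a * χ a) ψ
  have a3 := MSM_two p q hpq φ (fun a => ψ a * χ a)
  have h4 : (Fintype.card A : ℝ) * ((Fintype.card A : ℝ) - 1) * (((Fintype.card A : ℝ) - 2) *
        ∑ s : Equiv.Perm A, φ (s p) * ψ (s q) * χ (s r)) =
      (∑ a, χ a) * ((Fintype.card A : ℝ) * ((Fintype.card A : ℝ) - 1) *
        ∑ s : Equiv.Perm A, φ (s p) * ψ (s q))
      - (Fintype.card A : ℝ) * ((Fintype.card A : ℝ) - 1) *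
        ∑ s : Equiv.Perm A, (φ (s p) * χ (s p)) * ψ (s q)
      - (Fintype.card A : ℝ) * ((Fintype.card A : ℝ) - 1) *
        ∑ s : Equiv.Perm A, φ (s p) * (ψ (s q) * χ (s q)) := by
    rw [Nat.cast_ofNat] at h
    rw [h]; ring
  rw [mul_assoc, h4, a1, a2, a3]
  ring

theorem MSM_four (p q r u : A) (hpq : p ≠ q) (hpr : p ≠ r) (hqr : q ≠ r) (hpu : p ≠ u)
    (hqu : q ≠ u) (hru : r ≠ u) (y : A → ℝ) :
    (Fintype.card A : ℝ) * ((Fintype.card A : ℝ) - 1) * ((Fintype.card A : ℝ) - 2) *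
      ((Fintype.card A : ℝ) - 3) *
        ∑ s : Equiv.Perm A, y (s p) * y (s q) * y (s r) * y (s u) =
      (Fintype.card A).factorial *
        ((∑ a, y a) ^ 4 - 6 * (∑ a, y a) ^ 2 * (∑ a, y a ^ 2) + 8 * (∑ a, y a) * (∑ a, y a ^ 3)
          + 3 * (∑ a, y a ^ 2) ^ 2 - 6 * ∑ a, y a ^ 4) := by
  have hc : ({p, q, r} : Finset A).card = 3 := by
    rw [Finset.card_eq_three]
    exact ⟨p, q, r, hpq, hpr, hqr, rfl⟩
  have h := MSM_lin ({p, q, r} : Finset A) u
    (fun s => y (s p) * y (s q) * y (s r))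
    (by
      intro t ht s
      have hp : p ≠ t := by
        intro h; apply ht; simp [h]
      have hq : q ≠ t := by
        intro h; apply ht; simp [h]
      have hr : r ≠ t := by
        intro h; apply ht; simp [h]
      simp [Equiv.Perm.mul_apply, Equiv.swap_apply_of_ne_of_ne hp hpu,
        Equiv.swap_apply_of_ne_of_ne hq hqu, Equiv.swap_apply_of_ne_of_ne hr hru]) y
  rw [hc] at h
  have h3 : ∑ s : Equiv.Perm A, y (s p) * y (s q) * y (s r) *
        (∑ a, y a - ∑ x ∈ ({p, q, r} : Finset A), y (s x)) =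
      (∑ a, y a) * ∑ s : Equiv.Perm A, y (s p) * y (s q) * y (s r)
        - ∑ s : Equiv.Perm A, y (s p) ^ 2 * y (s q) * y (s r)
        - ∑ s : Equiv.Perm A, y (s p) * y (s q) ^ 2 * y (s r)
        - ∑ s : Equiv.Perm A, y (s p) * y (s q) * y (s r) ^ 2 := by
    rw [Finset.mul_sum, ← Finset.sum_sub_distrib, ← Finset.sum_sub_distrib,
      ← Finset.sum_sub_distrib]
    refine Finset.sum_congr rfl fun s _ => ?_
    rw [Finset.sum_insert (by simp [hpq, hpr]), Finset.sum_pair hqr]; ring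
  rw [h3] at h
  have a1 := MSM_three p q r hpq hpr hqr y y y
  have a2 := MSM_three p q r hpq hpr hqr (fun a => y a ^ 2) y y
  have a3 := MSM_three p q r hpq hpr hqr y (fun a => y a ^ 2) y
  have a4 := MSM_three p q r hpq hpr hqr y y (fun a => y a ^ 2)
  have h4 : (Fintype.card A : ℝ) * ((Fintype.card A : ℝ) - 1) * ((Fintype.card A : ℝ) - 2) *
      (((Fintype.card A : ℝ) - 3) *
        ∑ s : Equiv.Perm A, y (s p) * y (s q) * y (s r) * y (s u)) =
      (∑ a, y a) * ((Fintype.card A : ℝ) * ((Fintype.card A : ℝ) - 1) *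
        ((Fintype.card A : ℝ) - 2) * ∑ s : Equiv.Perm A, y (s p) * y (s q) * y (s r))
      - (Fintype.card A : ℝ) * ((Fintype.card A : ℝ) - 1) * ((Fintype.card A : ℝ) - 2) *
        ∑ s : Equiv.Perm A, y (s p) ^ 2 * y (s q) * y (s r)
      - (Fintype.card A : ℝ) * ((Fintype.card A : ℝ) - 1) * ((Fintype.card A : ℝ) - 2) *
        ∑ s : Equiv.Perm A, y (s p) * y (s q) ^ 2 * y (s r)
      - (Fintype.card A : ℝ) * ((Fintype.card A : ℝ) - 1) * ((Fintype.card A : ℝ) - 2) *
        ∑ s : Equiv.Perm A, y (s p) * y (s q) * y (s r) ^ 2 := by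
    rw [Nat.cast_ofNat] at h
    rw [h]; ring
  rw [mul_assoc, h4, a1, a2, a3, a4]
  have f0 : ∀ a : A, y a * y a = y a ^ 2 := fun a => by ring
  have f1 : ∀ a : A, y a ^ 2 * y a = y a ^ 3 := fun a => by ring
  have f2 : ∀ a : A, y a * y a ^ 2 = y a ^ 3 := fun a => by ring
  have f4 : ∀ a : A, y a ^ 2 * y a ^ 2 = y a ^ 4 := fun a => by ring
  have f5 : ∀ a : A, y a ^ 3 * y a = y a ^ 4 := fun a => by ring
  have f6 : ∀ a : A, y a * y a ^ 3 = y a ^ 4 := fun a => by ring
  simp only [f0, f1, f2, f4, f5, f6]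
  ring

end

/-- Sum of fourth powers and the mixed term. -/
theorem MSM_bd {A : Type} [Fintype A] (y : A → ℝ) (hT : (∑ p, y p) ^ 2 ≤ ∑ p, y p ^ 2) :
    (∑ a, y a) ^ 4 - 6 * (∑ a, y a) ^ 2 * (∑ a, y a ^ 2) + 8 * (∑ a, y a) * (∑ a, y a ^ 3)
          + 3 * (∑ a, y a ^ 2) ^ 2 - 6 * ∑ a, y a ^ 4 ≤ 12 * (∑ a, y a ^ 2) ^ 2 := by
  set t := ∑ a, y a with ht
  set E := ∑ a, y a ^ 2 with hE
  set S := ∑ a, y a ^ 3 with hS
  set Q := ∑ a, y a ^ 4 with hQ
  have hE0 : 0 ≤ E := Finset.sum_nonneg fun a _ => sq_nonneg _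
  have hQ0 : 0 ≤ Q := Finset.sum_nonneg fun a _ => by positivity
  have hQE : Q ≤ E ^ 2 := by
    have h1 : ∀ a ∈ (univ : Finset A), y a ^ 4 ≤ y a ^ 2 * E := by
      intro a ha
      have h2 : y a ^ 2 ≤ E :=
        Finset.single_le_sum (f := fun a => y a ^ 2) (fun b _ => sq_nonneg _) ha
      nlinarith [mul_le_mul_of_nonneg_left h2 (sq_nonneg (y a))]
    calc Q ≤ ∑ a, y a ^ 2 * E := Finset.sum_le_sum h1
      _ = E ^ 2 := by rw [← Finset.sum_mul, ← hE]; ring
  have hSE : S ^ 2 ≤ E * Q := by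
    have := Finset.sum_mul_sq_le_sq_mul_sq (univ : Finset A) (fun a => y a) (fun a => y a ^ 2)
    calc S ^ 2 = (∑ a, y a * y a ^ 2) ^ 2 := by
          rw [hS]; congr 1; exact Finset.sum_congr rfl fun a _ => by ring
      _ ≤ (∑ a, y a ^ 2) * ∑ a, (y a ^ 2) ^ 2 := this
      _ = E * Q := by
          rw [hE, hQ]; congr 1; exact Finset.sum_congr rfl fun a _ => by ring
  have hts : t * S ≤ E ^ 2 := by
    have h1 : (t * S) ^ 2 ≤ (E ^ 2) ^ 2 := by
      calc (t * S) ^ 2 = t ^ 2 * S ^ 2 := by ring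
        _ ≤ E * (E * Q) := mul_le_mul hT hSE (sq_nonneg _) hE0
        _ ≤ E * (E * E ^ 2) := by gcongr
        _ = (E ^ 2) ^ 2 := by ring
    exact (abs_le_of_sq_le_sq' h1 (sq_nonneg _)).2
  have ht4 : t ^ 4 ≤ E ^ 2 := by
    have : (t ^ 2) ^ 2 ≤ E ^ 2 := pow_le_pow_left₀ (sq_nonneg _) hT 2
    calc t ^ 4 = (t ^ 2) ^ 2 := by ring
      _ ≤ _ := this
  nlinarith [mul_nonneg (sq_nonneg t) hE0]

theorem p_MSM : Stmt_MSM := by
  intro k y hk hT hE
  classical
  set E := ∑ p, y p ^ 2 with hEdef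
  have hk' : (10 : ℝ) ≤ k := by exact_mod_cast hk
  have hcard : Fintype.card (Fin k × Bool) = 2 * k := by
    simp [Fintype.card_prod, mul_comm]
  set Z : Equiv.Perm (Fin k × Bool) → ℝ := fun s => ∑ i, y (s (i, true)) * y (s (i, false)) with hZ
  -- the sum of squares of the differences
  have hd : ∀ s : Equiv.Perm (Fin k × Bool),
      ∑ i, (y (s (i, true)) - y (s (i, false))) ^ 2 = E - 2 * Z s := by
    intro s
    have h1 : E = ∑ i : Fin k, (y (s (i, true)) ^ 2 + y (s (i, false)) ^ 2) := by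
      rw [hEdef, ← Equiv.sum_comp s (fun p => y p ^ 2), Fintype.sum_prod_type]
      refine Finset.sum_congr rfl fun i _ => ?_
      rw [Fintype.sum_bool]
    rw [h1, hZ, Finset.mul_sum, ← Finset.sum_sub_distrib]
    exact Finset.sum_congr rfl fun i _ => by ring
  -- second moment
  set F : ℝ := ((2 * k).factorial : ℝ) with hF
  have hF0 : 0 < F := by rw [hF]; exact_mod_cast Nat.factorial_pos _
  have hN : ((Fintype.card (Fin k × Bool) : ℕ) : ℝ) = 2 * k := by rw [hcard]; push_cast; ring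
  set M4 : Fin k → Fin k → ℝ := fun i j => ∑ s : Equiv.Perm (Fin k × Bool),
    (y (s (i, true)) * y (s (i, false))) * (y (s (j, true)) * y (s (j, false))) with hM4
  have hb2 : ∀ i, M4 i i ≤ F * E ^ 2 / (2 * k * (2 * k - 1)) := by
    intro i
    have h := MSM_two ((i, true) : Fin k × Bool) (i, false) (by simp)
      (fun a => y a ^ 2) (fun a => y a ^ 2)
    rw [hN, hcard] at h
    have h1 : M4 i i = ∑ s : Equiv.Perm (Fin k × Bool), y (s (i, true)) ^ 2 * y (s (i, false)) ^ 2 :=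
      Finset.sum_congr rfl fun s _ => by ring
    rw [h1, le_div_iff₀ (by nlinarith)]
    have h2 : 0 ≤ ∑ a : Fin k × Bool, y a ^ 2 * y a ^ 2 :=
      Finset.sum_nonneg fun a _ => by positivity
    have h3 : (∑ s : Equiv.Perm (Fin k × Bool), y (s (i, true)) ^ 2 * y (s (i, false)) ^ 2) *
        (2 * k * (2 * k - 1)) = F * (E * E - ∑ a : Fin k × Bool, y a ^ 2 * y a ^ 2) := by
      rw [mul_comm]; exact h
    rw [h3]
    have h4 : F * (E * E - ∑ a : Fin k × Bool, y a ^ 2 * y a ^ 2) ≤ F * (E * E) :=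
      mul_le_mul_of_nonneg_left (by linarith) hF0.le
    calc _ ≤ F * (E * E) := h4
      _ = F * E ^ 2 := by ring
  have hb4 : ∀ i j, i ≠ j →
      M4 i j ≤ F * (12 * E ^ 2) / (2 * k * (2 * k - 1) * (2 * k - 2) * (2 * k - 3)) := by
    intro i j hij
    have h := MSM_four ((i, true) : Fin k × Bool) (i, false) (j, true) (j, false)
      (by simp) (by simp [hij]) (by simp [hij]) (by simp [hij]) (by simp [hij]) (by simp) y
    rw [hN, hcard] at h
    have hpos : (0 : ℝ) < 2 * k * (2 * k - 1) * (2 * k - 2) * (2 * k - 3) := by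
      have a1 : (0 : ℝ) < 2 * k - 1 := by linarith
      have a2 : (0 : ℝ) < 2 * k - 2 := by linarith
      have a3 : (0 : ℝ) < 2 * k - 3 := by linarith
      positivity
    have h1 : M4 i j = ∑ s : Equiv.Perm (Fin k × Bool),
        y (s (i, true)) * y (s (i, false)) * y (s (j, true)) * y (s (j, false)) :=
      Finset.sum_congr rfl fun s _ => by ring
    rw [h1, le_div_iff₀ hpos, mul_comm, h]
    exact mul_le_mul_of_nonneg_left (MSM_bd y hT) hF0.le
  have hsum : ∑ s : Equiv.Perm (Fin k × Bool), Z s ^ 2 ≤ F * E ^ 2 / k := by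
    have h1 : ∑ s : Equiv.Perm (Fin k × Bool), Z s ^ 2 = ∑ i, ∑ j, M4 i j := by
      calc ∑ s : Equiv.Perm (Fin k × Bool), Z s ^ 2
          = ∑ s : Equiv.Perm (Fin k × Bool), ∑ i, ∑ j,
              (y (s (i, true)) * y (s (i, false))) * (y (s (j, true)) * y (s (j, false))) := by
            refine Finset.sum_congr rfl fun s _ => ?_
            rw [hZ, sq, Finset.sum_mul_sum]
        _ = ∑ i, ∑ s : Equiv.Perm (Fin k × Bool), ∑ j,
              (y (s (i, true)) * y (s (i, false))) * (y (s (j, true)) * y (s (j, false))) :=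
            Finset.sum_comm
        _ = _ := Finset.sum_congr rfl fun i _ => Finset.sum_comm
    rw [h1]
    set a := F * E ^ 2 / (2 * k * (2 * k - 1)) with ha
    set b := F * (12 * E ^ 2) / (2 * k * (2 * k - 1) * (2 * k - 2) * (2 * k - 3)) with hb
    have h2 : ∀ i, ∑ j, M4 i j ≤ a + (k - 1) * b := by
      intro i
      rw [← Finset.add_sum_erase _ _ (Finset.mem_univ i)]
      have h3 : ∑ j ∈ univ.erase i, M4 i j ≤ ∑ _j ∈ univ.erase i, b :=
        Finset.sum_le_sum fun j hj => hb4 i j (Finset.ne_of_mem_erase hj).symm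
      have h4 : ∑ _j ∈ (univ : Finset (Fin k)).erase i, b = (k - 1) * b := by
        rw [Finset.sum_const, nsmul_eq_mul, Finset.card_erase_of_mem (Finset.mem_univ i),
          Finset.card_univ, Fintype.card_fin, Nat.cast_sub (by omega)]
        simp
      linarith [hb2 i]
    calc ∑ i, ∑ j, M4 i j ≤ ∑ _i : Fin k, (a + (k - 1) * b) := Finset.sum_le_sum fun i _ => h2 i
      _ = k * (a + (k - 1) * b) := by
          rw [Finset.sum_const, nsmul_eq_mul, Finset.card_univ, Fintype.card_fin]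
      _ ≤ F * E ^ 2 / k := by
          have hFE : 0 ≤ F * E ^ 2 := by positivity
          have a0 : (0 : ℝ) < k := by linarith
          have a1 : (0 : ℝ) < 2 * k - 1 := by linarith
          have a2 : (0 : ℝ) < 2 * k - 2 := by linarith
          have a3 : (0 : ℝ) < 2 * k - 3 := by linarith
          have a4 : (0 : ℝ) < k - 1 := by linarith
          have e1 : k * (a + (k - 1) * b) =
              F * E ^ 2 * (1 / (2 * (2 * k - 1)) + 3 / ((2 * k - 1) * (2 * k - 3))) := by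
            rw [ha, hb]
            have : (2 * (k : ℝ) - 2) = 2 * (k - 1) := by ring
            rw [this]
            field_simp
            ring
          rw [e1]
          have e2 : 1 / (2 * (2 * (k : ℝ) - 1)) + 3 / ((2 * k - 1) * (2 * k - 3)) ≤ 1 / k := by
            have : 1 / (2 * (2 * (k : ℝ) - 1)) + 3 / ((2 * k - 1) * (2 * k - 3)) =
                (2 * k + 3) / (2 * (2 * k - 1) * (2 * k - 3)) := by
              field_simp
              ring
            rw [this, div_le_div_iff₀ (by positivity) a0]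
            nlinarith
          calc _ ≤ F * E ^ 2 * (1 / k) := mul_le_mul_of_nonneg_left e2 hFE
            _ = _ := by ring
  -- Markov
  set B := univ.filter (fun s : Equiv.Perm (Fin k × Bool) =>
      ∑ i, (y (s (i, true)) - y (s (i, false))) ^ 2 < E / 2) with hB
  have hm : (B.card : ℝ) * (E / 4) ^ 2 ≤ ∑ s : Equiv.Perm (Fin k × Bool), Z s ^ 2 := by
    calc (B.card : ℝ) * (E / 4) ^ 2 = ∑ _s ∈ B, (E / 4) ^ 2 := by
          rw [Finset.sum_const, nsmul_eq_mul]
      _ ≤ ∑ s ∈ B, Z s ^ 2 := by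
          refine Finset.sum_le_sum fun s hs => ?_
          rw [hB, Finset.mem_filter, hd s] at hs
          have h0 : E / 4 ≤ Z s := by linarith [hs.2]
          exact pow_le_pow_left₀ (by linarith) h0 2
      _ ≤ _ := Finset.sum_le_sum_of_subset_of_nonneg (Finset.subset_univ _)
          fun s _ _ => sq_nonneg _
  have h5 : (B.card : ℝ) * (E / 4) ^ 2 ≤ F * E ^ 2 / k := le_trans hm hsum
  have a0 : (0 : ℝ) < k := by linarith
  rw [le_div_iff₀ a0] at h5
  have hE2 : 0 < E ^ 2 := by positivity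
  have h6 : ((k : ℝ) * B.card) * E ^ 2 ≤ (16 * F) * E ^ 2 := by nlinarith
  exact le_of_mul_le_mul_right h6 hE2

end Pool.MMq
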