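import Pool.Agent.Work.MP_9999b5_mq.Interface
import Pool.Agent.Work.MP_9999b5_mm.EXC

set_option autoImplicit false

/-! R2: two positive blocks are separated by the pairing in `4` of `6` cases. -/

namespace Pool.MMq

open Finset Pool.MM15

theorem R2_iv_disj {n a b c d : ℕ} (h : b ≤ c) : Disjoint (iv n a b) (iv n c d) := by
  rw [Finset.disjoint_left]
  intro p h1 h2
  simp only [iv, Finset.mem_filter, Finset.mem_univ, true_and] at h1 h2
  omega

theorem R2_iv_card {n a b : ℕ} (hb : b ≤ n) : (iv n a b).card = b - a := by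
  have e : (iv n a b).map Fin.valEmbedding = Finset.Ico a b := by
    ext x
    simp only [iv, Finset.mem_map, Finset.mem_filter, Finset.mem_univ, true_and, Fin.valEmbedding_apply,
      Finset.mem_Ico]
    constructor
    · rintro ⟨p, hp, rfl⟩
      exact hp
    · intro hx
      exact ⟨⟨x, by omega⟩, hx, rfl⟩
  rw [← Finset.card_map Fin.valEmbedding, e, Nat.card_Ico]

/-- the four disjoint position sets -/
def R2_I (N k a b c : ℕ) : Fin 4 → Finset (Fin N) := ![ra N k, blk N k a, blk N k b, blk N k c]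

theorem R2_ra_disj {N k c : ℕ} (h : c < 3) : Disjoint (ra N k) (blk N k c) := by
  unfold ra blk
  refine (R2_iv_disj ?_).symm
  exact Nat.mul_le_mul_right k (by omega)

theorem R2_blk_disj {N k c d : ℕ} (h : c ≠ d) : Disjoint (blk N k c) (blk N k d) := by
  rcases lt_or_gt_of_ne h with h | h
  · exact R2_iv_disj (Nat.mul_le_mul_right k (by omega))
  · exact (R2_iv_disj (Nat.mul_le_mul_right k (by omega))).symm

theorem R2_exc {k T N : ℕ} {x : Fin N → ℝ} {a : ℝ} (hS : Sit k T N x a) (Φ : ℝ → ℝ → ℝ → ℝ → Prop)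
    (u v w : ℕ) (hu : u < 3) (hv : v < 3) (hw : w < 3) (huv : u ≠ v) (huw : u ≠ w) (hvw : v ≠ w) :
    cnt (fun s => Φ (sa x a k s) (sm x (blk N k 0) s) (sm x (blk N k 1) s) (sm x (blk N k 2) s)) =
    cnt (fun s => Φ (sa x a k s) (sm x (blk N k u) s) (sm x (blk N k v) s) (sm x (blk N k w) s)) := by
  have hN := hS.hN
  have h2 := hS.two
  have cb : ∀ c < 3, (blk N k c).card = k := by
    intro c hc
    unfold blk
    have h1 : (c + 1) * k ≤ 3 * k := Nat.mul_le_mul_right k (by omega)
    have h3 : c * k ≤ (c + 1) * k := Nat.mul_le_mul_right k (by omega)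
    rw [R2_iv_card (by omega), Nat.succ_mul]
    omega
  have hd : ∀ u v w : ℕ, u < 3 → v < 3 → w < 3 → u ≠ v → u ≠ w → v ≠ w →
      ∀ i j : Fin 4, i ≠ j → Disjoint (R2_I N k u v w i) (R2_I N k u v w j) := by
    intro u v w hu hv hw huv huw hvw i j hij
    fin_cases i <;> fin_cases j <;> simp [R2_I] at hij ⊢ <;>
      first
        | exact R2_ra_disj (by assumption)
        | exact (R2_ra_disj (by assumption)).symm
        | exact R2_blk_disj (by assumption)
        | exact (R2_blk_disj (by assumption)).symm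
  have key := stmt_EXC N x (Fin 4) (R2_I N k 0 1 2) (R2_I N k u v w)
    (hd 0 1 2 (by omega) (by omega) (by omega) (by omega) (by omega) (by omega))
    (hd u v w hu hv hw huv huw hvw) (by
      intro i
      fin_cases i
      · rfl
      · change (blk N k 0).card = (blk N k u).card
        rw [cb 0 (by omega), cb u hu]
      · change (blk N k 1).card = (blk N k v).card
        rw [cb 1 (by omega), cb v hv]
      · change (blk N k 2).card = (blk N k w).card
        rw [cb 2 (by omega), cb w hw])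
    (fun f => Φ (a + f 0) (f 1) (f 2) (f 3))
  exact key

open Classical in
theorem R2_nn {N k : ℕ} (x : Fin N → ℝ) (s : Equiv.Perm (Fin N)) :
    nn x k 3 s = (if 0 < sm x (blk N k 0) s then 1 else 0) + (if 0 < sm x (blk N k 1) s then 1 else 0) +
      (if 0 < sm x (blk N k 2) s then 1 else 0) := by
  unfold nn
  rw [Finset.card_filter, Finset.sum_range_succ, Finset.sum_range_succ, Finset.sum_range_succ,
    Finset.sum_range_zero, zero_add]

open Classical in
theorem R2_cnt {n : ℕ} (P : Equiv.Perm (Fin n) → Prop) :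
    cnt P = ∑ s : Equiv.Perm (Fin n), (if P s then (1 : ℝ) else 0) := by
  unfold cnt
  rw [Finset.card_filter]
  push_cast
  rfl

/-- `sa` positive and exactly the first of the three positive -/
def R2_A (y p q r : ℝ) : Prop := 0 < y ∧ 0 < p ∧ ¬ 0 < q ∧ ¬ 0 < r

/-- `sa` low and exactly the first of the three low -/
def R2_B (y p q r : ℝ) : Prop := ¬ 0 < y ∧ ¬ 0 < p ∧ 0 < q ∧ 0 < r

theorem p_R2 : Stmt_R2 := by
  classical
  intro k T N x a hS
  have A1 : cnt (fun s => R2_A (sa x a k s) (sm x (blk N k 0) s) (sm x (blk N k 1) s) (sm x (blk N k 2) s)) =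
      cnt (fun s => R2_A (sa x a k s) (sm x (blk N k 1) s) (sm x (blk N k 0) s) (sm x (blk N k 2) s)) :=
    R2_exc hS R2_A 1 0 2 (by omega) (by omega) (by omega) (by omega) (by omega) (by omega)
  have A2 : cnt (fun s => R2_A (sa x a k s) (sm x (blk N k 0) s) (sm x (blk N k 1) s) (sm x (blk N k 2) s)) =
      cnt (fun s => R2_A (sa x a k s) (sm x (blk N k 2) s) (sm x (blk N k 0) s) (sm x (blk N k 1) s)) :=
    R2_exc hS R2_A 2 0 1 (by omega) (by omega) (by omega) (by omega) (by omega) (by omega)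
  have B1 : cnt (fun s => R2_B (sa x a k s) (sm x (blk N k 0) s) (sm x (blk N k 1) s) (sm x (blk N k 2) s)) =
      cnt (fun s => R2_B (sa x a k s) (sm x (blk N k 1) s) (sm x (blk N k 0) s) (sm x (blk N k 2) s)) :=
    R2_exc hS R2_B 1 0 2 (by omega) (by omega) (by omega) (by omega) (by omega) (by omega)
  have B2 : cnt (fun s => R2_B (sa x a k s) (sm x (blk N k 0) s) (sm x (blk N k 1) s) (sm x (blk N k 2) s)) =
      cnt (fun s => R2_B (sa x a k s) (sm x (blk N k 2) s) (sm x (blk N k 0) s) (sm x (blk N k 1) s)) :=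
    R2_exc hS R2_B 2 0 1 (by omega) (by omega) (by omega) (by omega) (by omega) (by omega)
  have e1 : cnt (fun s => jj x a k s = 2 ∧ ((0 < sa x a k s ∧ sm x (blk N k 0) s ≤ 0) ∨
      (sa x a k s ≤ 0 ∧ 0 < sm x (blk N k 0) s))) =
      cnt (fun s => R2_A (sa x a k s) (sm x (blk N k 1) s) (sm x (blk N k 0) s) (sm x (blk N k 2) s)) +
      cnt (fun s => R2_A (sa x a k s) (sm x (blk N k 2) s) (sm x (blk N k 0) s) (sm x (blk N k 1) s)) +
      (cnt (fun s => R2_B (sa x a k s) (sm x (blk N k 1) s) (sm x (blk N k 0) s) (sm x (blk N k 2) s)) +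
      cnt (fun s => R2_B (sa x a k s) (sm x (blk N k 2) s) (sm x (blk N k 0) s) (sm x (blk N k 1) s))) := by
    rw [R2_cnt, R2_cnt, R2_cnt, R2_cnt, R2_cnt, ← Finset.sum_add_distrib, ← Finset.sum_add_distrib,
      ← Finset.sum_add_distrib]
    refine Finset.sum_congr rfl fun s _ => ?_
    rw [jj, R2_nn]
    unfold R2_A R2_B
    generalize sa x a k s = y
    generalize sm x (blk N k 0) s = u
    generalize sm x (blk N k 1) s = v
    generalize sm x (blk N k 2) s = w
    rw [← not_lt (a := (0 : ℝ)) (b := u), ← not_lt (a := (0 : ℝ)) (b := y)]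
    by_cases h0 : 0 < y <;> by_cases h1 : 0 < u <;> by_cases h2 : 0 < v <;> by_cases h3 : 0 < w <;>
      simp [h0, h1, h2, h3]
  have e2 : cnt (fun s => jj x a k s = 2) =
      cnt (fun s => R2_A (sa x a k s) (sm x (blk N k 0) s) (sm x (blk N k 1) s) (sm x (blk N k 2) s)) +
      cnt (fun s => R2_A (sa x a k s) (sm x (blk N k 1) s) (sm x (blk N k 0) s) (sm x (blk N k 2) s)) +
      cnt (fun s => R2_A (sa x a k s) (sm x (blk N k 2) s) (sm x (blk N k 0) s) (sm x (blk N k 1) s)) +
      (cnt (fun s => R2_B (sa x a k s) (sm x (blk N k 0) s) (sm x (blk N k 1) s) (sm x (blk N k 2) s)) +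
      cnt (fun s => R2_B (sa x a k s) (sm x (blk N k 1) s) (sm x (blk N k 0) s) (sm x (blk N k 2) s)) +
      cnt (fun s => R2_B (sa x a k s) (sm x (blk N k 2) s) (sm x (blk N k 0) s) (sm x (blk N k 1) s))) := by
    rw [R2_cnt, R2_cnt, R2_cnt, R2_cnt, R2_cnt, R2_cnt, R2_cnt, ← Finset.sum_add_distrib,
      ← Finset.sum_add_distrib, ← Finset.sum_add_distrib, ← Finset.sum_add_distrib, ← Finset.sum_add_distrib]
    refine Finset.sum_congr rfl fun s _ => ?_
    rw [jj, R2_nn]
    unfold R2_A R2_B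
    generalize sa x a k s = y
    generalize sm x (blk N k 0) s = u
    generalize sm x (blk N k 1) s = v
    generalize sm x (blk N k 2) s = w
    by_cases h0 : 0 < y <;> by_cases h1 : 0 < u <;> by_cases h2 : 0 < v <;> by_cases h3 : 0 < w <;>
      simp [h0, h1, h2, h3]
  rw [e1, e2]
  linarith

end Pool.MMq

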