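import Pool.Agent.Work.MP_9999b5_mq.Interface
import Pool.Agent.Work.MP_9999b5_mm.EXC
import Pool.Agent.Work.MP_9999b5_mq.R2

set_option autoImplicit false

/-! Block N2 (typed by helper95): `2/3 lam N! ≤ lam² + N! (p0 + pp)`. -/

namespace Pool.MMq

open Finset Pool.MM15

/-- the first `k - 1` positions of `blk 2` -/
def N2_C (N k : ℕ) : Finset (Fin N) := iv N (2 * k) (3 * k - 1)

theorem N2_fam {k T N : ℕ} {x : Fin N → ℝ} {a : ℝ} (hS : Sit k T N x a) :
    (N2_C N k).card = k - 1 ∧ (ra N k).card = k - 1 ∧ Disjoint (ra N k) (N2_C N k) ∧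
    (∀ c < 2, Disjoint (N2_C N k) (blk N k c)) := by
  have hN := hS.hN
  have h2 := hS.two
  refine ⟨?_, ?_, ?_, ?_⟩
  · unfold N2_C
    rw [R2_iv_card (by omega)]
    omega
  · unfold ra
    rw [R2_iv_card (by omega)]
    omega
  · unfold N2_C ra
    exact (R2_iv_disj (by omega)).symm
  · intro c hc
    unfold N2_C blk
    refine (R2_iv_disj ?_).symm
    exact Nat.mul_le_mul_right k (by omega)

theorem N2_swap {k T N : ℕ} {x : Fin N → ℝ} {a : ℝ} (hS : Sit k T N x a)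
    (Φ : ℝ → ℝ → ℝ → ℝ → Prop) :
    cnt (fun s => Φ (sm x (ra N k) s) (sm x (N2_C N k) s) (sm x (blk N k 0) s) (sm x (blk N k 1) s)) =
    cnt (fun s => Φ (sm x (N2_C N k) s) (sm x (ra N k) s) (sm x (blk N k 0) s) (sm x (blk N k 1) s)) := by
  obtain ⟨c1, c2, d1, d2⟩ := N2_fam hS
  have r0 : Disjoint (ra N k) (blk N k 0) := R2_ra_disj (by omega)
  have r1 : Disjoint (ra N k) (blk N k 1) := R2_ra_disj (by omega)
  have b01 : Disjoint (blk N k 0) (blk N k 1) := R2_blk_disj (by omega)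
  have e0 := d2 0 (by omega)
  have e1 := d2 1 (by omega)
  have key := stmt_EXC N x (Fin 4) ![ra N k, N2_C N k, blk N k 0, blk N k 1]
    ![N2_C N k, ra N k, blk N k 0, blk N k 1]
    (by
      intro i j hij
      fin_cases i <;> fin_cases j <;> simp at hij ⊢ <;>
        first | assumption | exact Disjoint.symm (by assumption))
    (by
      intro i j hij
      fin_cases i <;> fin_cases j <;> simp at hij ⊢ <;>
        first | assumption | exact Disjoint.symm (by assumption))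
    (by
      intro i
      fin_cases i
      · exact c2.trans c1.symm
      · exact c1.trans c2.symm
      · rfl
      · rfl)
    (fun f => Φ (f 0) (f 1) (f 2) (f 3))
  exact key

theorem p_N2 : Stmt_NES → Stmt_N2 := by
  classical
  intro hNES k T N x a hS
  obtain ⟨c1, c2, d1, d2⟩ := N2_fam hS
  have hF : (0 : ℝ) < (N.factorial : ℝ) := by exact_mod_cast N.factorial_pos
  -- exchange
  have E1 := N2_swap hS (fun u v p q => a + u ≤ 0 ∧ 0 < a + v ∧ (0 < p ∨ 0 < q))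
  have E2 := N2_swap hS (fun u _ _ _ => a + u ≤ 0)
  have H1 := hNES N x (ra N k) (N2_C N k) (-a) (-a) d1
  have hl : lam x a k = cnt (fun s => a + sm x (ra N k) s ≤ 0) := rfl
  have hu : ∀ u : ℝ, (u ≤ -a) = (a + u ≤ 0) := fun u => propext ⟨fun h => by linarith, fun h => by linarith⟩
  simp only [hu] at H1
  rw [← E2, ← hl] at H1
  -- exchangeability of the three blocks
  have X0 := R2_exc hS (fun y p q r => y ≤ 0 ∧ p ≤ 0 ∧ q ≤ 0 ∧ 0 < r) 0 2 1
    (by omega) (by omega) (by omega) (by omega) (by omega) (by omega)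
  have X1 := R2_exc hS (fun y p q r => y ≤ 0 ∧ p ≤ 0 ∧ q ≤ 0 ∧ 0 < r) 1 2 0
    (by omega) (by omega) (by omega) (by omega) (by omega) (by omega)
  have X2 : cnt (fun s => sa x a k s ≤ 0 ∧ sm x (blk N k 0) s ≤ 0 ∧ sm x (blk N k 1) s ≤ 0 ∧
        0 < sm x (blk N k 2) s) +
      cnt (fun s => sa x a k s ≤ 0 ∧ sm x (blk N k 0) s ≤ 0 ∧ sm x (blk N k 2) s ≤ 0 ∧
        0 < sm x (blk N k 1) s) +
      cnt (fun s => sa x a k s ≤ 0 ∧ sm x (blk N k 1) s ≤ 0 ∧ sm x (blk N k 2) s ≤ 0 ∧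
        0 < sm x (blk N k 0) s) ≤ lam x a k := by
    unfold lam
    rw [R2_cnt, R2_cnt, R2_cnt, R2_cnt, ← Finset.sum_add_distrib, ← Finset.sum_add_distrib]
    refine Finset.sum_le_sum fun s _ => ?_
    by_cases ha : sa x a k s ≤ 0 <;> by_cases h0 : 0 < sm x (blk N k 0) s <;>
      by_cases h1 : 0 < sm x (blk N k 1) s <;> by_cases h2 : 0 < sm x (blk N k 2) s <;>
      simp [ha, h0, h1, h2, not_lt.2, not_le.2, not_lt.1]
  -- pointwise splitting
  have S1 : lam x a k ≤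
      cnt (fun s => a + sm x (ra N k) s ≤ 0 ∧ 0 < a + sm x (N2_C N k) s ∧
        (0 < sm x (blk N k 0) s ∨ 0 < sm x (blk N k 1) s)) +
      cnt (fun s => a + sm x (ra N k) s ≤ 0 ∧ a + sm x (N2_C N k) s ≤ 0) +
      (p0 x a k + cnt (fun s => sa x a k s ≤ 0 ∧ sm x (blk N k 0) s ≤ 0 ∧ sm x (blk N k 1) s ≤ 0 ∧
        0 < sm x (blk N k 2) s)) := by
    unfold lam p0
    rw [R2_cnt, R2_cnt, R2_cnt, R2_cnt, R2_cnt, ← Finset.sum_add_distrib, ← Finset.sum_add_distrib,
      ← Finset.sum_add_distrib]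
    refine Finset.sum_le_sum fun s _ => ?_
    rw [jj, R2_nn]
    unfold sa
    by_cases ha : a + sm x (ra N k) s ≤ 0 <;> by_cases hc : 0 < a + sm x (N2_C N k) s <;>
      by_cases h0 : 0 < sm x (blk N k 0) s <;>
      by_cases h1 : 0 < sm x (blk N k 1) s <;> by_cases h2 : 0 < sm x (blk N k 2) s <;>
      simp [ha, hc, h0, h1, h2, not_lt.2, not_le.2, not_lt.1, not_le.1]
  have S2 : cnt (fun s => a + sm x (N2_C N k) s ≤ 0 ∧ 0 < a + sm x (ra N k) s ∧
        (0 < sm x (blk N k 0) s ∨ 0 < sm x (blk N k 1) s)) ≤ pp x a k := by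
    unfold pp
    rw [R2_cnt, R2_cnt]
    refine Finset.sum_le_sum fun s _ => ?_
    rw [jj, R2_nn]
    unfold sa
    by_cases ha : 0 < a + sm x (ra N k) s <;> by_cases hc : a + sm x (N2_C N k) s ≤ 0 <;>
      by_cases h0 : 0 < sm x (blk N k 0) s <;>
      by_cases h1 : 0 < sm x (blk N k 1) s <;> by_cases h2 : 0 < sm x (blk N k 2) s <;>
      simp [ha, hc, h0, h1, h2]
  rw [← E1] at S2
  have hfin : 2 / 3 * lam x a k ≤ cnt (fun s => a + sm x (ra N k) s ≤ 0 ∧ a + sm x (N2_C N k) s ≤ 0) +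
      (p0 x a k + pp x a k) := by
    linarith
  nlinarith [mul_le_mul_of_nonneg_left hfin hF.le]

end Pool.MMq
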