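import Pool.Agent.Work.MP_9999b5_mq.Interface2
import Pool.Agent.Work.MP_9999b5_mq.EGY

set_option autoImplicit false

/-!
Block N3: if there are few arrangements with no or with at least two positive blocks, then the block of `a` is low in at most half
of the arrangements.
-/

namespace Pool.MMq

open Finset Pool.MM15 Pool.Agent.Work.MaxSums

theorem N3_cnt {N : ℕ} (P : Equiv.Perm (Fin N) → Prop) [DecidablePred P] :
    cnt P = ∑ s : Equiv.Perm (Fin N), (if P s then (1 : ℝ) else 0) := by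
  unfold cnt
  rw [Finset.sum_boole]
  congr

theorem N3_swap {N : ℕ} (x : Fin N → ℝ) (P : Equiv.Perm (Fin N) → Prop) [DecidablePred P]
    (W : Equiv.Perm (Fin N) → Finset (Fin N)) :
    ∑ s : Equiv.Perm (Fin N), (if P s then ∑ i ∈ W s, x i ^ 2 else 0) =
      ∑ b, x b ^ 2 * cnt (fun s => P s ∧ b ∈ W s) := by
  classical
  have h1 : ∀ b : Fin N, x b ^ 2 * cnt (fun s => P s ∧ b ∈ W s) =
      ∑ s : Equiv.Perm (Fin N), (if P s ∧ b ∈ W s then x b ^ 2 else 0) := by
    intro b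
    rw [N3_cnt, Finset.mul_sum]
    refine Finset.sum_congr rfl (fun s _ => ?_)
    by_cases h : P s ∧ b ∈ W s
    · rw [if_pos h, if_pos h, mul_one]
    · rw [if_neg h, if_neg h, mul_zero]
  rw [Finset.sum_congr rfl (fun b _ => h1 b), Finset.sum_comm]
  refine Finset.sum_congr rfl (fun s _ => ?_)
  by_cases h : P s
  · rw [if_pos h]
    simp only [h, true_and]
    rw [Finset.sum_ite_mem, Finset.univ_inter]
  · rw [if_neg h]
    simp only [h, false_and, if_false]
    rw [Finset.sum_const_zero]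

/-- The energy is positive. -/
theorem N3_pos {k T N : ℕ} {x : Fin N → ℝ} {a : ℝ} (h : Sit k T N x a) : 0 < qe x a := by
  unfold qe
  have h0 : 0 ≤ ∑ i, x i ^ 2 := Finset.sum_nonneg (fun i _ => sq_nonneg _)
  by_cases ha : a = 0
  · have hN : 0 < N := by
      have h1 := h.two
      have h2 := h.hN
      omega
    have h1 : x ⟨0, hN⟩ < 0 := by
      have := h.lt ⟨0, hN⟩
      rwa [ha] at this
    have h2 : x ⟨0, hN⟩ ^ 2 ≤ ∑ i, x i ^ 2 :=
      Finset.single_le_sum (f := fun i => x i ^ 2) (fun i _ => sq_nonneg _) (Finset.mem_univ _)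
    have h3 : 0 < x ⟨0, hN⟩ ^ 2 := by
      have := mul_pos (neg_pos.mpr h1) (neg_pos.mpr h1)
      nlinarith
    nlinarith [sq_nonneg a]
  · have h1 : 0 < a ^ 2 := by positivity
    linarith

/-- A fixed element is in the rest with small probability. -/
theorem N3_rest (hRKB : Stmt_RKB) {k T N : ℕ} {x : Fin N → ℝ} {a : ℝ} (h : Sit k T N x a)
    (hT : 10000 * T ≤ k) (b : Fin N) :
    10000 * cnt (fun s => b ∈ im (rk N k) s) ≤ (N.factorial : ℝ) := by
  have h1 := h.two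
  have h2 := h.hN
  have h3 := hRKB N (rk N k) b
  have h4 : (rk N k).card = T := by
    unfold rk
    rw [LOC.iv_card (le_refl N)]
    omega
  rw [h4] at h3
  have hN : (0 : ℝ) < (N : ℝ) := by
    exact_mod_cast (by omega : 0 < N)
  have hf : (0 : ℝ) < (N.factorial : ℝ) := by exact_mod_cast Nat.factorial_pos N
  have h5 : (10000 : ℝ) * (T : ℝ) ≤ (N : ℝ) := by
    exact_mod_cast (by omega : 10000 * T ≤ N)
  have h6 : (N : ℝ) * (10000 * cnt (fun s => b ∈ im (rk N k) s)) ≤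
      (N : ℝ) * (N.factorial : ℝ) := by
    calc (N : ℝ) * (10000 * cnt (fun s => b ∈ im (rk N k) s))
        = 10000 * ((N : ℝ) * cnt (fun s => b ∈ im (rk N k) s)) := by ring
      _ = 10000 * (T : ℝ) * (N.factorial : ℝ) := by rw [h3]; ring
      _ ≤ (N : ℝ) * (N.factorial : ℝ) := mul_le_mul_of_nonneg_right h5 hf.le
  exact le_of_mul_le_mul_left h6 hN

/-- The pointwise bound. -/
theorem N3_point (u v : ℝ) (hu : 0 ≤ u) (hu1 : u ≤ 1) (hv : 0 ≤ v) (hv1 : v ≤ 1) (w : ℝ)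
    (hw : 0 ≤ w) (hw1 : 1 - 1 / 400 ≤ u → 1 ≤ w) :
    u ≤ w + 1 / 400 + 400 * (u * v + (1 - u) * (1 - v)) := by
  have hφ : 0 ≤ u * v + (1 - u) * (1 - v) :=
    add_nonneg (mul_nonneg hu hv) (mul_nonneg (by linarith) (by linarith))
  by_cases h1 : 1 - 1 / 400 ≤ u
  · have := hw1 h1
    linarith
  · push Not at h1
    by_cases h2 : u ≤ 1 / 400
    · linarith
    · push Not at h2
      have h3 : 1 / 400 * v ≤ u * v := mul_le_mul_of_nonneg_right h2.le hv
      have h4 : 1 / 400 * (1 - v) ≤ (1 - u) * (1 - v) :=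
        mul_le_mul_of_nonneg_right (by linarith) (by linarith)
      linarith

theorem p_N3 : Stmt_GD → Stmt_BL → Stmt_SWP → Stmt_RKB → Stmt_EGY → Stmt_N3 := by
  classical
  intro hGD hBL hSWP hRKB hEGY k T N x a hk hT hS hp
  have hf : (0 : ℝ) < (N.factorial : ℝ) := by exact_mod_cast Nat.factorial_pos N
  have hQ := N3_pos hS
  have h1 := hEGY k T N x a hk hT hS hp
  have h2 := hGD k T N x a hS
  have h3 := hBL k T N x a hS
  set c1 : ℝ := cnt (fun s => 1 - 1 / 400 ≤ b1 x a k s) with hc1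
  -- the sum of EGY
  have hsum : ∑ s : Equiv.Perm (Fin N),
      ((if 1 - 1 / 400 ≤ b1 x a k s then a ^ 2 + ∑ i ∈ im (blk N k 0 ∪ ra N k) s, x i ^ 2 else 0) +
        (if 1 - 1 / 400 ≤ b2 x k s then ∑ i ∈ im (blk N k 1 ∪ blk N k 2) s, x i ^ 2 else 0)) =
      a ^ 2 * c1 + ∑ b, x b ^ 2 *
        (cnt (fun s => 1 - 1 / 400 ≤ b1 x a k s ∧ b ∈ im (blk N k 0 ∪ ra N k) s) +
          cnt (fun s => 1 - 1 / 400 ≤ b2 x k s ∧ b ∈ im (blk N k 1 ∪ blk N k 2) s)) := by
    have e1 : ∀ s : Equiv.Perm (Fin N),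
        (if 1 - 1 / 400 ≤ b1 x a k s then a ^ 2 + ∑ i ∈ im (blk N k 0 ∪ ra N k) s, x i ^ 2 else 0) =
        a ^ 2 * (if 1 - 1 / 400 ≤ b1 x a k s then (1 : ℝ) else 0) +
          (if 1 - 1 / 400 ≤ b1 x a k s then ∑ i ∈ im (blk N k 0 ∪ ra N k) s, x i ^ 2 else 0) := by
      intro s
      split_ifs <;> ring
    rw [Finset.sum_add_distrib, Finset.sum_congr rfl (fun s _ => e1 s), Finset.sum_add_distrib,
      ← Finset.mul_sum, ← N3_cnt, N3_swap, N3_swap, add_assoc, ← Finset.sum_add_distrib]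
    congr 1
    refine Finset.sum_congr rfl (fun b _ => ?_)
    ring
  have hlow : qe x a * (c1 - (N.factorial : ℝ) / 10000) ≤ ∑ s : Equiv.Perm (Fin N),
      ((if 1 - 1 / 400 ≤ b1 x a k s then a ^ 2 + ∑ i ∈ im (blk N k 0 ∪ ra N k) s, x i ^ 2 else 0) +
        (if 1 - 1 / 400 ≤ b2 x k s then
          ∑ i ∈ im (blk N k 1 ∪ blk N k 2) s, x i ^ 2 else 0)) := by
    rw [hsum]
    have e2 : ∀ b : Fin N, x b ^ 2 * (c1 - (N.factorial : ℝ) / 10000) ≤ x b ^ 2 *
        (cnt (fun s => 1 - 1 / 400 ≤ b1 x a k s ∧ b ∈ im (blk N k 0 ∪ ra N k) s) +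
          cnt (fun s => 1 - 1 / 400 ≤ b2 x k s ∧ b ∈ im (blk N k 1 ∪ blk N k 2) s)) := by
      intro b
      refine mul_le_mul_of_nonneg_left ?_ (sq_nonneg _)
      have e3 := hSWP k T N x a (1 / 400) b hS
      have e4 := N3_rest hRKB hS hT b
      linarith
    have e5 := Finset.sum_le_sum (fun b (_ : b ∈ (Finset.univ : Finset (Fin N))) => e2 b)
    rw [← Finset.sum_mul] at e5
    have e6 : a ^ 2 * (c1 - (N.factorial : ℝ) / 10000) ≤ a ^ 2 * c1 :=
      mul_le_mul_of_nonneg_left (by linarith) (sq_nonneg a)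
    have e7 : qe x a * (c1 - (N.factorial : ℝ) / 10000) =
        a ^ 2 * (c1 - (N.factorial : ℝ) / 10000) +
          (∑ i, x i ^ 2) * (c1 - (N.factorial : ℝ) / 10000) := by
      unfold qe
      ring
    rw [e7]
    linarith
  have hc : 100 * (c1 - (N.factorial : ℝ) / 10000) ≤ 32 * (N.factorial : ℝ) := by
    have e8 : qe x a * (100 * (c1 - (N.factorial : ℝ) / 10000)) ≤
        qe x a * (32 * (N.factorial : ℝ)) := by
      calc qe x a * (100 * (c1 - (N.factorial : ℝ) / 10000))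
          = 100 * (qe x a * (c1 - (N.factorial : ℝ) / 10000)) := by ring
        _ ≤ _ := mul_le_mul_of_nonneg_left hlow (by norm_num)
        _ ≤ 32 * (N.factorial : ℝ) * qe x a := h1
        _ = qe x a * (32 * (N.factorial : ℝ)) := by ring
    exact le_of_mul_le_mul_left e8 hQ
  -- the sum of `b1`
  have hb : ∑ s : Equiv.Perm (Fin N), b1 x a k s ≤
      c1 + (N.factorial : ℝ) * (1 / 400) + 400 * ∑ s : Equiv.Perm (Fin N),
        (b1 x a k s * b2 x k s + (1 - b1 x a k s) * (1 - b2 x k s)) := by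
    have e9 : ∀ s : Equiv.Perm (Fin N), b1 x a k s ≤
        (if 1 - 1 / 400 ≤ b1 x a k s then (1 : ℝ) else 0) + 1 / 400 +
          400 * (b1 x a k s * b2 x k s + (1 - b1 x a k s) * (1 - b2 x k s)) := by
      intro s
      refine N3_point _ _ (EGY_b1 hS s).1 (EGY_b1 hS s).2 (EGY_b2 hS s).1 (EGY_b2 hS s).2 _ ?_ ?_
      · split_ifs <;> norm_num
      · intro h
        rw [if_pos h]
    refine (Finset.sum_le_sum (fun s _ => e9 s)).trans_eq ?_
    rw [Finset.sum_add_distrib, Finset.sum_add_distrib, ← N3_cnt, ← Finset.mul_sum,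
      Finset.sum_const, Finset.card_univ, Fintype.card_perm, Fintype.card_fin, nsmul_eq_mul]
  linarith

end Pool.MMq
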