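import Pool.Agent.Work.MP_9999b5_mq.Interface

set_option autoImplicit false

/-!
# Block NEG: negative correlation of low disjoint sets
-/

namespace Pool.MMq

open Finset Pool.MM15

variable {α : Type} [DecidableEq α]

/-- Number of low `p`-subsets. -/
noncomputable def NEG_A (x : α → ℝ) (V : Finset α) (p : ℕ) (u : ℝ) : ℝ :=
  ∑ C ∈ V.powersetCard p, if ∑ i ∈ C, x i ≤ u then (1 : ℝ) else 0

/-- Number of pairs of low disjoint sets. -/
noncomputable def NEG_J (x : α → ℝ) (V : Finset α) (p q : ℕ) (u v : ℝ) : ℝ :=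
  ∑ C ∈ V.powersetCard p, if ∑ i ∈ C, x i ≤ u then NEG_A x (V \ C) q v else 0

theorem NEG_sum {V : Finset α} {z : α} (hz : z ∉ V) (p : ℕ) (g : Finset α → ℝ) :
    ∑ C ∈ (insert z V).powersetCard (p + 1), g C =
      ∑ C ∈ V.powersetCard (p + 1), g C + ∑ C ∈ V.powersetCard p, g (insert z C) := by
  rw [powersetCard_succ_insert hz, sum_union, sum_image]
  · intro C hC D hD h
    have h1 : z ∉ C := fun h' => hz ((mem_powersetCard.1 hC).1 h')
    have h2 : z ∉ D := fun h' => hz ((mem_powersetCard.1 hD).1 h')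
    rw [← erase_insert h1, ← erase_insert h2, h]
  · rw [disjoint_left]
    intro C hC hC'
    obtain ⟨D, -, rfl⟩ := mem_image.1 hC'
    exact hz ((mem_powersetCard.1 hC).1 (mem_insert_self z D))

theorem NEG_A_nonneg (x : α → ℝ) (V : Finset α) (p : ℕ) (u : ℝ) : 0 ≤ NEG_A x V p u := by
  unfold NEG_A
  exact sum_nonneg fun C _ => by split_ifs <;> norm_num

theorem NEG_A_rec (x : α → ℝ) {V : Finset α} {z : α} (hz : z ∉ V) (p : ℕ) (u : ℝ) :
    NEG_A x (insert z V) (p + 1) u = NEG_A x V (p + 1) u + NEG_A x V p (u - x z) := by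
  unfold NEG_A
  rw [NEG_sum hz]
  congr 1
  refine sum_congr rfl fun C hC => ?_
  have h1 : z ∉ C := fun h' => hz ((mem_powersetCard.1 hC).1 h')
  rw [sum_insert h1]
  have : (x z + ∑ i ∈ C, x i ≤ u) ↔ (∑ i ∈ C, x i ≤ u - x z) := by
    constructor <;> intro h <;> linarith
  simp only [this]

theorem NEG_J_rec (x : α → ℝ) {V : Finset α} {z : α} (hz : z ∉ V) (p q : ℕ) (u v : ℝ) :
    NEG_J x (insert z V) (p + 1) (q + 1) u v =
      NEG_J x V (p + 1) (q + 1) u v + NEG_J x V (p + 1) q u (v - x z) +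
        NEG_J x V p (q + 1) (u - x z) v := by
  unfold NEG_J
  rw [NEG_sum hz, ← sum_add_distrib]
  congr 1
  · refine sum_congr rfl fun C hC => ?_
    have h1 : z ∉ C := fun h' => hz ((mem_powersetCard.1 hC).1 h')
    rw [insert_sdiff_of_notMem _ h1, NEG_A_rec x (fun h' => hz (mem_sdiff.1 h').1)]
    split_ifs
    · rfl
    · simp
  · refine sum_congr rfl fun C hC => ?_
    have h1 : z ∉ C := fun h' => hz ((mem_powersetCard.1 hC).1 h')
    rw [sum_insert h1]
    have h2 : (x z + ∑ i ∈ C, x i ≤ u) ↔ (∑ i ∈ C, x i ≤ u - x z) := by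
      constructor <;> intro h <;> linarith
    have h3 : insert z V \ insert z C = V \ C := by
      ext i
      simp only [mem_sdiff, mem_insert, not_or]
      constructor
      · rintro ⟨h | h, h4, h5⟩
        · exact absurd h h4
        · exact ⟨h, h5⟩
      · rintro ⟨h, h5⟩
        exact ⟨Or.inr h, fun h' => hz (h' ▸ h), h5⟩
    simp only [h2, h3]

/-- Replace an element by the smallest one. -/
theorem NEG_swap (x : α → ℝ) (V : Finset α) (z : α) (hz : ∀ i ∈ V, x z ≤ x i) (p : ℕ) (u : ℝ)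
    (hp : p ≤ V.card) :
    ((p : ℝ) + 1) * NEG_A x V (p + 1) u ≤ ((V.card : ℝ) - p) * NEG_A x V p (u - x z) := by
  have h1 : ((p : ℝ) + 1) * NEG_A x V (p + 1) u =
      ∑ C ∈ V.powersetCard (p + 1), ∑ _i ∈ C, if ∑ i ∈ C, x i ≤ u then (1 : ℝ) else 0 := by
    unfold NEG_A
    rw [mul_sum]
    refine sum_congr rfl fun C hC => ?_
    rw [sum_const, (mem_powersetCard.1 hC).2, nsmul_eq_mul]
    push_cast
    ring
  have h2 : ((V.card : ℝ) - p) * NEG_A x V p (u - x z) =
      ∑ C ∈ V.powersetCard p, ∑ _i ∈ V \ C, if ∑ i ∈ C, x i ≤ u - x z then (1 : ℝ) else 0 := by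
    unfold NEG_A
    rw [mul_sum]
    refine sum_congr rfl fun C hC => ?_
    obtain ⟨h3, h4⟩ := mem_powersetCard.1 hC
    rw [sum_const, card_sdiff_of_subset h3, h4, nsmul_eq_mul, Nat.cast_sub hp]
  rw [h1, h2]
  have h3 : ∑ C ∈ V.powersetCard p, ∑ _i ∈ V \ C,
        (if ∑ i ∈ C, x i ≤ u - x z then (1 : ℝ) else 0) =
      ∑ C ∈ V.powersetCard (p + 1), ∑ i ∈ C,
        (if ∑ j ∈ C.erase i, x j ≤ u - x z then (1 : ℝ) else 0) := by
    rw [sum_sigma', sum_sigma']
    refine sum_bij' (fun c _ => ⟨insert c.2 c.1, c.2⟩) (fun c _ => ⟨c.1.erase c.2, c.2⟩)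
      ?_ ?_ ?_ ?_ ?_
    · rintro ⟨C, i⟩ h
      simp only [mem_sigma, mem_powersetCard, mem_sdiff] at h ⊢
      obtain ⟨⟨h4, h5⟩, h6, h7⟩ := h
      refine ⟨⟨insert_subset h6 h4, ?_⟩, mem_insert_self _ _⟩
      rw [card_insert_of_notMem h7, h5]
    · rintro ⟨C, i⟩ h
      simp only [mem_sigma, mem_powersetCard, mem_sdiff] at h ⊢
      obtain ⟨⟨h4, h5⟩, h6⟩ := h
      refine ⟨⟨(erase_subset _ _).trans h4, ?_⟩, h4 h6, notMem_erase _ _⟩
      rw [card_erase_of_mem h6, h5]
      rfl
    · rintro ⟨C, i⟩ h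
      simp only [mem_sigma, mem_powersetCard, mem_sdiff] at h
      obtain ⟨⟨h4, h5⟩, h6, h7⟩ := h
      simp [erase_insert h7]
    · rintro ⟨C, i⟩ h
      simp only [mem_sigma, mem_powersetCard] at h
      simp [insert_erase h.2]
    · rintro ⟨C, i⟩ h
      simp only [mem_sigma, mem_powersetCard, mem_sdiff] at h
      simp only [erase_insert h.2.2]
  rw [h3]
  refine sum_le_sum fun C hC => sum_le_sum fun i hi => ?_
  have h4 : x z ≤ x i := hz i ((mem_powersetCard.1 hC).1 hi)
  have h5 : ∑ j ∈ C.erase i, x j + x i = ∑ j ∈ C, x j := sum_erase_add _ _ hi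
  split_ifs with h6 h7 h7
  · exact le_rfl
  · exact absurd (by linarith) h7
  · norm_num
  · exact le_rfl

theorem NEG_J_empty (x : α → ℝ) (V : Finset α) (p q : ℕ) (u v : ℝ) (h : V.card < p + q) :
    NEG_J x V p q u v = 0 := by
  unfold NEG_J
  refine sum_eq_zero fun C hC => ?_
  obtain ⟨h3, h4⟩ := mem_powersetCard.1 hC
  have h5 : NEG_A x (V \ C) q v = 0 := by
    unfold NEG_A
    rw [powersetCard_eq_empty.2, sum_empty]
    rw [card_sdiff_of_subset h3, h4]
    have := card_le_card h3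
    omega
  rw [h5]
  simp

theorem NEG_alg (J10 J01 J00 a1 a0 b1 b0 X Y W0 W1 N p q : ℝ) (hp : 0 ≤ p) (hq : 0 ≤ q)
    (hN : p + q + 1 ≤ N) (hX : 0 < X) (_ha0 : 0 ≤ a0) (_hb0 : 0 ≤ b0)
    (hW : 0 ≤ W0 + W1)
    (hY : (q + 1) * Y = (N - q) * X) (hW1 : (q + 1) * W1 = (N - p - 1 - q) * W0)
    (h1 : J10 * Y ≤ a1 * b0 * (W0 + W1)) (h2 : J01 * X ≤ a0 * b1 * W0)
    (h3 : J00 * Y ≤ a0 * b0 * W1) (h4 : (p + 1) * a0 ≤ (N - p) * a1)
    (h5 : (q + 1) * b0 ≤ (N - q) * b1) :
    (J00 + J01 + J10) * (X + Y) ≤ (a0 + a1) * (b0 + b1) * (W0 + W1) := by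
  have hM : 0 < N - p := by linarith
  have hNq : 0 < N - q := by linarith
  have hq1 : 0 < q + 1 := by linarith
  set W := W0 + W1 with hWdef
  have e0 : (N - p) * W0 = (q + 1) * W := by
    rw [hWdef]
    linear_combination (-1 : ℝ) * hW1
  have e1 : (N - p) * W1 = (N - p - 1 - q) * W := by
    rw [hWdef]
    linear_combination hW1
  -- multiplied forms
  have g1 : J10 * ((N - q) * X) ≤ (q + 1) * (a1 * b0 * W) := by
    rw [← hY]
    nlinarith [mul_le_mul_of_nonneg_left h1 hq1.le]
  have g2 : J01 * X * (N - p) ≤ (q + 1) * (a0 * b1 * W) := by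
    have := mul_le_mul_of_nonneg_right h2 hM.le
    calc J01 * X * (N - p) ≤ a0 * b1 * W0 * (N - p) := this
      _ = a0 * b1 * ((N - p) * W0) := by ring
      _ = (q + 1) * (a0 * b1 * W) := by rw [e0]; ring
  have g3 : J00 * ((N - q) * X) * (N - p) ≤ (q + 1) * (a0 * b0 * ((N - p - 1 - q) * W)) := by
    rw [← hY, ← e1]
    have := mul_le_mul_of_nonneg_right (mul_le_mul_of_nonneg_left h3 hq1.le) hM.le
    nlinarith [this]
  have g4 : 0 ≤ ((N - p) * a1 - (p + 1) * a0) * ((N - q) * b1 - (q + 1) * b0) :=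
    mul_nonneg (sub_nonneg.2 h4) (sub_nonneg.2 h5)
  have hXY : (q + 1) * (X + Y) = (N + 1) * X := by linear_combination hY
  have hpos : 0 < (q + 1) * ((N - p) * (N - q)) := mul_pos hq1 (mul_pos hM hNq)
  refine le_of_mul_le_mul_left ?_ hpos
  have hN1 : 0 < N + 1 := by linarith
  have k1 : (q + 1) * ((N - p) * (N - q)) * ((J00 + J01 + J10) * (X + Y)) =
      (N + 1) * ((N - p) * (J10 * ((N - q) * X)) + (N - q) * (J01 * X * (N - p)) +
        J00 * ((N - q) * X) * (N - p)) := by
    linear_combination ((N - p) * (N - q) * (J00 + J01 + J10)) * hXY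
  rw [k1]
  have k2 : (N - p) * (J10 * ((N - q) * X)) + (N - q) * (J01 * X * (N - p)) +
        J00 * ((N - q) * X) * (N - p) ≤
      (N - p) * ((q + 1) * (a1 * b0 * W)) + (N - q) * ((q + 1) * (a0 * b1 * W)) +
        (q + 1) * (a0 * b0 * ((N - p - 1 - q) * W)) := by
    have m1 := mul_le_mul_of_nonneg_left g1 hM.le
    have m2 := mul_le_mul_of_nonneg_left g2 hNq.le
    linarith
  refine (mul_le_mul_of_nonneg_left k2 hN1.le).trans ?_
  have k3 := mul_nonneg (mul_nonneg hq1.le hW) g4
  have k4 : (q + 1) * ((N - p) * (N - q)) * ((a0 + a1) * (b0 + b1) * W) -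
      (N + 1) * ((N - p) * ((q + 1) * (a1 * b0 * W)) + (N - q) * ((q + 1) * (a0 * b1 * W)) +
        (q + 1) * (a0 * b0 * ((N - p - 1 - q) * W))) =
      (q + 1) * W * (((N - p) * a1 - (p + 1) * a0) * ((N - q) * b1 - (q + 1) * b0)) := by
    ring
  linarith

theorem NEG_main (x : α → ℝ) (V : Finset α) : ∀ (p q : ℕ) (u v : ℝ),
    NEG_J x V p q u v * (V.card.choose q : ℝ) ≤
      NEG_A x V p u * NEG_A x V q v * ((V.card - p).choose q : ℝ) := by
  induction V using Finset.induction_on_min_value (f := x) with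
  | empty =>
    intro p q u v
    rcases Nat.eq_zero_or_pos p with rfl | hp
    · rcases Nat.eq_zero_or_pos q with rfl | hq
      · simp only [NEG_J, NEG_A, powersetCard_zero, sum_singleton, sum_empty, sdiff_empty,
          Nat.choose_zero_right, Nat.cast_one]
        split_ifs <;> norm_num
      · rw [NEG_J_empty x ∅ 0 q u v (by simpa using hq)]
        rw [zero_mul]
        exact mul_nonneg (mul_nonneg (NEG_A_nonneg _ _ _ _) (NEG_A_nonneg _ _ _ _))
          (Nat.cast_nonneg _)
    · rw [NEG_J_empty x ∅ p q u v (by rw [card_empty]; omega)]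
      rw [zero_mul]
      exact mul_nonneg (mul_nonneg (NEG_A_nonneg _ _ _ _) (NEG_A_nonneg _ _ _ _))
        (Nat.cast_nonneg _)
  | insert z V hz hmin ih =>
    intro p q u v
    rcases p with _ | p
    · -- `p = 0`
      simp only [NEG_J, NEG_A, powersetCard_zero, sum_singleton, sum_empty, sdiff_empty,
        Nat.sub_zero]
      split_ifs <;> simp
    rcases q with _ | q
    · -- `q = 0`
      have h1 : NEG_J x (insert z V) (p + 1) 0 u v =
          NEG_A x (insert z V) (p + 1) u * NEG_A x (insert z V) 0 v := by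
        unfold NEG_J
        have h2 : ∀ U : Finset α, NEG_A x U 0 v = if (0 : ℝ) ≤ v then 1 else 0 := by
          intro U
          simp only [NEG_A, powersetCard_zero, sum_singleton, sum_empty]
          split_ifs <;> rfl
        rw [h2]
        simp only [h2]
        unfold NEG_A
        rw [sum_mul]
        refine sum_congr rfl fun C _ => ?_
        split_ifs <;> simp
      rw [h1]
      simp
    -- both positive
    rcases Nat.lt_or_ge V.card (p + q + 1) with hlt | hge
    · rw [NEG_J_empty x (insert z V) (p + 1) (q + 1) u v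
        (by rw [card_insert_of_notMem hz]; omega)]
      rw [zero_mul]
      exact mul_nonneg (mul_nonneg (NEG_A_nonneg _ _ _ _) (NEG_A_nonneg _ _ _ _))
        (Nat.cast_nonneg _)
    · rw [NEG_J_rec x hz, NEG_A_rec x hz, NEG_A_rec x hz, card_insert_of_notMem hz]
      have i1 := ih p (q + 1) (u - x z) v
      have i2 := ih (p + 1) q u (v - x z)
      have i3 := ih (p + 1) (q + 1) u v
      have s1 := NEG_swap x V z hmin p u (by omega)
      have s2 := NEG_swap x V z hmin q v (by omega)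
      obtain ⟨M, hM⟩ : ∃ M, V.card = p + 1 + M := ⟨V.card - (p + 1), by omega⟩
      have c1 : (V.card + 1).choose (q + 1) = V.card.choose q + V.card.choose (q + 1) :=
        Nat.choose_succ_succ _ _
      have c2 : V.card + 1 - (p + 1) = M + 1 := by omega
      have c3 : V.card - p = M + 1 := by omega
      have c4 : V.card - (p + 1) = M := by omega
      have c5 : (M + 1).choose (q + 1) = M.choose q + M.choose (q + 1) :=
        Nat.choose_succ_succ _ _
      have c6 : V.card.choose (q + 1) * (q + 1) = V.card.choose q * (V.card - q) :=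
        Nat.choose_succ_right_eq _ _
      have c7 : M.choose (q + 1) * (q + 1) = M.choose q * (M - q) :=
        Nat.choose_succ_right_eq _ _
      rw [c1, c2, c5]
      rw [c3, c5] at i1
      rw [c4] at i2 i3
      push_cast at i1 ⊢
      have hqN : q ≤ V.card := by omega
      have hqM : q ≤ M := by omega
      have c6' : ((q : ℝ) + 1) * (V.card.choose (q + 1) : ℝ) =
          ((V.card : ℝ) - q) * (V.card.choose q : ℝ) := by
        have := congrArg (Nat.cast (R := ℝ)) c6
        push_cast [Nat.cast_sub hqN] at this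
        linarith
      have c7' : ((q : ℝ) + 1) * (M.choose (q + 1) : ℝ) =
          ((V.card : ℝ) - p - 1 - q) * (M.choose q : ℝ) := by
        have := congrArg (Nat.cast (R := ℝ)) c7
        push_cast [Nat.cast_sub hqM] at this
        have e : (V.card : ℝ) - p - 1 - q = (M : ℝ) - q := by
          rw [hM]
          push_cast
          ring
        rw [e]
        linarith
      have hXpos : (0 : ℝ) < (V.card.choose q : ℝ) := by
        exact_mod_cast Nat.choose_pos hqN
      have hN' : (p : ℝ) + q + 1 ≤ (V.card : ℝ) := by exact_mod_cast hge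
      exact NEG_alg _ _ _ _ _ _ _ _ _ _ _ (V.card : ℝ) p q (Nat.cast_nonneg _)
        (Nat.cast_nonneg _) hN' hXpos (NEG_A_nonneg _ _ _ _) (NEG_A_nonneg _ _ _ _)
        (by positivity) c6' c7' i1 i2 i3 s1 s2

theorem p_NEG : Stmt_NEG := by
  intro α _ V x p q u v _
  have h := NEG_main x V p q u v
  have hA : ∀ (U : Finset α) (r : ℕ) (w : ℝ), NEG_A x U r w =
      (((U.powersetCard r).filter (fun C => ∑ i ∈ C, x i ≤ w)).card : ℝ) := by
    intro U r w
    unfold NEG_A
    rw [sum_boole]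
  have hJ : NEG_J x V p q u v =
      ∑ C ∈ (V.powersetCard p).filter (fun C => ∑ i ∈ C, x i ≤ u),
      ((((V \ C).powersetCard q).filter (fun D => ∑ i ∈ D, x i ≤ v)).card : ℝ) := by
    unfold NEG_J
    rw [sum_filter]
    refine sum_congr rfl fun C _ => ?_
    rw [hA]
  rw [hJ, hA, hA] at h
  exact h

end Pool.MMq
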