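import Pool.Agent.Work.MP_9999b5_mq.Interface
import Pool.Agent.Work.MP_9999b5_mm.EXC

set_option autoImplicit false

namespace Pool.MMq

open Finset Pool.MM15

theorem NES_cnt_sum {N : ℕ} (P : Equiv.Perm (Fin N) → Prop) [DecidablePred P] :
    cnt P = ∑ s : Equiv.Perm (Fin N), if P s then (1 : ℝ) else 0 := by
  unfold cnt
  rw [← Finset.sum_filter, Finset.sum_const, nsmul_eq_mul, mul_one]
  congr!

theorem NES_perm_card {N : ℕ} (x : Fin N → ℝ) (p : ℕ) (u : ℝ) (s : Equiv.Perm (Fin N)) :
    (((univ : Finset (Fin N)).powersetCard p).filter (fun B => ∑ i ∈ B, x (s i) ≤ u)).card =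
      (((univ : Finset (Fin N)).powersetCard p).filter (fun B => ∑ i ∈ B, x i ≤ u)).card := by
  refine Finset.card_bij (fun B _ => B.map s.toEmbedding) ?_ ?_ ?_
  · intro B hB
    simp only [Finset.mem_filter, Finset.mem_powersetCard, Finset.card_map] at hB ⊢
    refine ⟨⟨Finset.subset_univ _, hB.1.2⟩, ?_⟩
    rw [Finset.sum_map]
    exact hB.2
  · intro B _ B' _ h
    exact Finset.map_injective _ h
  · intro B hB
    simp only [Finset.mem_filter, Finset.mem_powersetCard] at hB
    refine ⟨B.map s.symm.toEmbedding, ?_, ?_⟩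
    · simp only [Finset.mem_filter, Finset.mem_powersetCard, Finset.card_map]
      refine ⟨⟨Finset.subset_univ _, hB.1.2⟩, ?_⟩
      rw [Finset.sum_map]
      simpa using hB.2
    · ext i
      simp

theorem NES_exc {N : ℕ} (x : Fin N → ℝ) {I J C D : Finset (Fin N)} (h1 : Disjoint I J)
    (h2 : Disjoint C D) (hc : I.card = C.card) (hd : J.card = D.card) (u v : ℝ) :
    cnt (fun s => sm x I s ≤ u ∧ sm x J s ≤ v) = cnt (fun s => sm x C s ≤ u ∧ sm x D s ≤ v) := by
  have h := stmt_EXC N x Bool (fun b => if b then I else J) (fun b => if b then C else D)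
    (by rintro (_ | _) (_ | _) hab
        · exact absurd rfl hab
        · exact h1.symm
        · exact h1
        · exact absurd rfl hab)
    (by rintro (_ | _) (_ | _) hab
        · exact absurd rfl hab
        · exact h2.symm
        · exact h2
        · exact absurd rfl hab)
    (by rintro (_ | _)
        · exact hd
        · exact hc)
    (fun f => f true ≤ u ∧ f false ≤ v)
  exact h

/-- one set -/
theorem NES_one {N : ℕ} (x : Fin N → ℝ) (I : Finset (Fin N)) (u : ℝ) :
    (N.choose I.card : ℝ) * cnt (fun s => sm x I s ≤ u) =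
      (N.factorial : ℝ) * ((((univ : Finset (Fin N)).powersetCard I.card).filter
        (fun B => ∑ i ∈ B, x i ≤ u)).card : ℝ) := by
  have h2 : ∀ J ∈ (univ : Finset (Fin N)).powersetCard I.card,
      cnt (fun s => sm x J s ≤ u) = cnt (fun s => sm x I s ≤ u) := by
    intro J hJ
    have hJk : J.card = I.card := (Finset.mem_powersetCard.1 hJ).2
    exact stmt_EXC N x Unit (fun _ => J) (fun _ => I) (fun a b hab => absurd rfl hab)
      (fun a b hab => absurd rfl hab) (fun _ => hJk) (fun f => f () ≤ u)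
  have h3 : (N.choose I.card : ℝ) * cnt (fun s => sm x I s ≤ u) =
      ∑ J ∈ (univ : Finset (Fin N)).powersetCard I.card, cnt (fun s => sm x J s ≤ u) := by
    rw [Finset.sum_congr rfl h2, Finset.sum_const, Finset.card_powersetCard, Finset.card_univ,
      Fintype.card_fin, nsmul_eq_mul]
  rw [h3, Finset.sum_congr rfl fun J _ => NES_cnt_sum (fun s => sm x J s ≤ u), Finset.sum_comm]
  have h5 : ∀ s : Equiv.Perm (Fin N),
      ∑ J ∈ (univ : Finset (Fin N)).powersetCard I.card,
        (if sm x J s ≤ u then (1 : ℝ) else 0) =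
      ((((univ : Finset (Fin N)).powersetCard I.card).filter
        (fun B => ∑ i ∈ B, x i ≤ u)).card : ℝ) := by
    intro s
    rw [← NES_perm_card x I.card u s, ← Finset.sum_filter, Finset.sum_const, nsmul_eq_mul, mul_one]
    rfl
  rw [Finset.sum_congr rfl fun s _ => h5 s, Finset.sum_const, nsmul_eq_mul, Finset.card_univ,
    Fintype.card_perm, Fintype.card_fin]

/-- two sets -/
theorem NES_two {N : ℕ} (x : Fin N → ℝ) {I J : Finset (Fin N)} (hIJ : Disjoint I J) (u v : ℝ) :
    (N.choose I.card : ℝ) * ((N - I.card).choose J.card : ℝ) *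
      cnt (fun s => sm x I s ≤ u ∧ sm x J s ≤ v) =
    ∑ s : Equiv.Perm (Fin N), ∑ C ∈ ((univ : Finset (Fin N)).powersetCard I.card).filter
      (fun C => ∑ i ∈ C, x (s i) ≤ u),
      ((((univ \ C).powersetCard J.card).filter (fun D => ∑ i ∈ D, x (s i) ≤ v)).card : ℝ) := by
  have h1 : ∀ s : Equiv.Perm (Fin N), ∑ C ∈ ((univ : Finset (Fin N)).powersetCard I.card).filter
      (fun C => ∑ i ∈ C, x (s i) ≤ u),
      ((((univ \ C).powersetCard J.card).filter (fun D => ∑ i ∈ D, x (s i) ≤ v)).card : ℝ) =
      ∑ C ∈ (univ : Finset (Fin N)).powersetCard I.card, ∑ D ∈ (univ \ C).powersetCard J.card,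
        if sm x C s ≤ u ∧ sm x D s ≤ v then (1 : ℝ) else 0 := by
    intro s
    rw [Finset.sum_filter]
    apply Finset.sum_congr rfl
    intro C _
    by_cases h : ∑ i ∈ C, x (s i) ≤ u
    · rw [if_pos h]
      have h' : sm x C s ≤ u := h
      simp only [h', true_and]
      rw [← Finset.sum_filter, Finset.sum_const, nsmul_eq_mul, mul_one]
      rfl
    · rw [if_neg h]
      have h' : ¬ sm x C s ≤ u := h
      simp only [h', false_and, if_false, Finset.sum_const_zero]
  rw [Finset.sum_congr rfl fun s _ => h1 s, Finset.sum_comm]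
  have h2 : ∀ C ∈ (univ : Finset (Fin N)).powersetCard I.card,
      ∑ s : Equiv.Perm (Fin N), ∑ D ∈ (univ \ C).powersetCard J.card,
        (if sm x C s ≤ u ∧ sm x D s ≤ v then (1 : ℝ) else 0) =
      ((N - I.card).choose J.card : ℝ) * cnt (fun s => sm x I s ≤ u ∧ sm x J s ≤ v) := by
    intro C hC
    have hCk : C.card = I.card := (Finset.mem_powersetCard.1 hC).2
    rw [Finset.sum_comm]
    have h3 : ∀ D ∈ (univ \ C).powersetCard J.card,
        ∑ s : Equiv.Perm (Fin N), (if sm x C s ≤ u ∧ sm x D s ≤ v then (1 : ℝ) else 0) =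
        cnt (fun s => sm x I s ≤ u ∧ sm x J s ≤ v) := by
      intro D hD
      obtain ⟨hD1, hD2⟩ := Finset.mem_powersetCard.1 hD
      have hdis : Disjoint C D := by
        rw [Finset.disjoint_left]
        intro i hi hi'
        exact (Finset.mem_sdiff.1 (hD1 hi')).2 hi
      rw [← NES_cnt_sum (fun s => sm x C s ≤ u ∧ sm x D s ≤ v)]
      exact NES_exc x hdis hIJ hCk hD2 u v
    rw [Finset.sum_congr rfl h3, Finset.sum_const, Finset.card_powersetCard, nsmul_eq_mul,
      Finset.card_sdiff_of_subset (Finset.subset_univ C), Finset.card_univ, Fintype.card_fin, hCk]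
  rw [Finset.sum_congr rfl h2, Finset.sum_const, Finset.card_powersetCard, Finset.card_univ,
    Fintype.card_fin, nsmul_eq_mul, mul_assoc]

theorem p_NES : Stmt_NEG → Stmt_NES := by
  intro hNEG N x I J u v hIJ
  have hle : I.card + J.card ≤ N := by
    rw [← Finset.card_union_of_disjoint hIJ]
    exact (Finset.card_le_univ _).trans (by rw [Fintype.card_fin])
  have h1 := NES_one x I u
  have h2 := NES_one x J v
  have h3 := NES_two x hIJ u v
  set A : ℝ := ((((univ : Finset (Fin N)).powersetCard I.card).filter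
    (fun B => ∑ i ∈ B, x i ≤ u)).card : ℝ) with hA
  set B : ℝ := ((((univ : Finset (Fin N)).powersetCard J.card).filter
    (fun B => ∑ i ∈ B, x i ≤ v)).card : ℝ) with hB
  have h4 : ∀ s : Equiv.Perm (Fin N), (∑ C ∈ ((univ : Finset (Fin N)).powersetCard I.card).filter
      (fun C => ∑ i ∈ C, x (s i) ≤ u),
      ((((univ \ C).powersetCard J.card).filter (fun D => ∑ i ∈ D, x (s i) ≤ v)).card : ℝ)) *
      (N.choose J.card : ℝ) ≤ A * B * ((N - I.card).choose J.card : ℝ) := by
    intro s
    have h := hNEG (Fin N) univ (fun i => x (s i)) I.card J.card u v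
      (by rw [Finset.card_univ, Fintype.card_fin]; exact hle)
    rw [Finset.card_univ, Fintype.card_fin] at h
    rw [NES_perm_card x I.card u s, NES_perm_card x J.card v s] at h
    exact h
  have h5 := Finset.sum_le_sum (fun s (_ : s ∈ (univ : Finset (Equiv.Perm (Fin N)))) => h4 s)
  rw [← Finset.sum_mul, ← h3, Finset.sum_const, nsmul_eq_mul, Finset.card_univ,
    Fintype.card_perm, Fintype.card_fin] at h5
  have c1 : (0 : ℝ) < (N.choose I.card : ℝ) := by
    exact_mod_cast Nat.choose_pos (by omega)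
  have c2 : (0 : ℝ) < (N.choose J.card : ℝ) := by
    exact_mod_cast Nat.choose_pos (by omega)
  have c3 : (0 : ℝ) < ((N - I.card).choose J.card : ℝ) := by
    exact_mod_cast Nat.choose_pos (by omega)
  set c := cnt (fun s => sm x I s ≤ u ∧ sm x J s ≤ v) with hc
  set cu := cnt (fun s => sm x I s ≤ u) with hcu
  set cv := cnt (fun s => sm x J s ≤ v) with hcv
  have hN : (0 : ℝ) ≤ (N.factorial : ℝ) := by positivity
  have h6 : (N.choose I.card : ℝ) * (N.choose J.card : ℝ) * c ≤ (N.factorial : ℝ) * (A * B) := by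
    have h7 : ((N - I.card).choose J.card : ℝ) *
        ((N.choose I.card : ℝ) * (N.choose J.card : ℝ) * c) ≤
        ((N - I.card).choose J.card : ℝ) * ((N.factorial : ℝ) * (A * B)) := by
      calc _ = (N.choose I.card : ℝ) * ((N - I.card).choose J.card : ℝ) * c *
            (N.choose J.card : ℝ) := by ring
        _ ≤ _ := h5
        _ = _ := by ring
    exact le_of_mul_le_mul_left h7 c3
  have h8 : (N.choose I.card : ℝ) * (N.choose J.card : ℝ) * ((N.factorial : ℝ) * c) ≤
      (N.choose I.card : ℝ) * (N.choose J.card : ℝ) * (cu * cv) := by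
    calc _ = (N.factorial : ℝ) * ((N.choose I.card : ℝ) * (N.choose J.card : ℝ) * c) := by ring
      _ ≤ (N.factorial : ℝ) * ((N.factorial : ℝ) * (A * B)) := mul_le_mul_of_nonneg_left h6 hN
      _ = ((N.factorial : ℝ) * A) * ((N.factorial : ℝ) * B) := by ring
      _ = ((N.choose I.card : ℝ) * cu) * ((N.choose J.card : ℝ) * cv) := by rw [h1, h2]
      _ = _ := by ring
  exact le_of_mul_le_mul_left h8 (mul_pos c1 c2)

end Pool.MMq
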