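import Pool.Agent.Work.MP_9999b5_mq.Interface

/-! MP_9999b5_mq, block PZ: Paley-Zygmund for signed sums. -/

set_option autoImplicit false

namespace Pool.MMq

open Finset

namespace PZ

variable {ι : Type} [DecidableEq ι]

/-- the signed sum -/
def D (d : ι → ℝ) (S P : Finset ι) : ℝ := ∑ i ∈ P, d i - ∑ i ∈ S \ P, d i

lemma D_insert_out (d : ι → ℝ) {a : ι} {S P : Finset ι} (ha : a ∉ S) (hP : P ⊆ S) :
    D d (insert a S) P = D d S P - d a := by
  have haP : a ∉ P := fun h => ha (hP h)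
  have h1 : insert a S \ P = insert a (S \ P) := by
    rw [insert_sdiff_of_notMem _ haP]
  have h2 : a ∉ S \ P := fun h => ha (mem_sdiff.1 h).1
  unfold D
  rw [h1, sum_insert h2]
  ring

lemma D_insert_in (d : ι → ℝ) {a : ι} {S P : Finset ι} (ha : a ∉ S) (hP : P ⊆ S) :
    D d (insert a S) (insert a P) = D d S P + d a := by
  have haP : a ∉ P := fun h => ha (hP h)
  have h1 : insert a S \ insert a P = S \ P := by
    ext x
    simp only [mem_sdiff, mem_insert, not_or]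
    constructor
    · rintro ⟨h | h, h2, h3⟩
      · exact absurd h h2
      · exact ⟨h, h3⟩
    · rintro ⟨h, h3⟩
      exact ⟨Or.inr h, fun e => ha (e ▸ h), h3⟩
  unfold D
  rw [h1, sum_insert haP]
  ring

lemma mom2 (d : ι → ℝ) (S : Finset ι) :
    ∑ P ∈ S.powerset, D d S P ^ 2 = 2 ^ S.card * ∑ i ∈ S, d i ^ 2 := by
  induction S using Finset.induction_on with
  | empty => simp [D]
  | insert a S ha ih =>
    rw [sum_powerset_insert ha, card_insert_of_notMem ha, sum_insert ha]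
    have h1 : ∑ P ∈ S.powerset, D d (insert a S) P ^ 2 = ∑ P ∈ S.powerset, (D d S P - d a) ^ 2 :=
      sum_congr rfl fun P hP => by rw [D_insert_out d ha (mem_powerset.1 hP)]
    have h2 : ∑ P ∈ S.powerset, D d (insert a S) (insert a P) ^ 2 =
        ∑ P ∈ S.powerset, (D d S P + d a) ^ 2 :=
      sum_congr rfl fun P hP => by rw [D_insert_in d ha (mem_powerset.1 hP)]
    rw [h1, h2, ← sum_add_distrib]
    have h3 : ∑ P ∈ S.powerset, ((D d S P - d a) ^ 2 + (D d S P + d a) ^ 2) =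
        2 * ∑ P ∈ S.powerset, D d S P ^ 2 + (2 ^ S.card) * (2 * d a ^ 2) := by
      have : ∀ P ∈ S.powerset, (D d S P - d a) ^ 2 + (D d S P + d a) ^ 2 =
          2 * D d S P ^ 2 + 2 * d a ^ 2 := fun P _ => by ring
      rw [sum_congr rfl this, sum_add_distrib, ← mul_sum, sum_const, card_powerset, nsmul_eq_mul]
      push_cast
      ring
    rw [h3, ih]
    ring

lemma mom4 (d : ι → ℝ) (S : Finset ι) :
    ∑ P ∈ S.powerset, D d S P ^ 4 ≤ 2 ^ S.card * (3 * (∑ i ∈ S, d i ^ 2) ^ 2) := by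
  induction S using Finset.induction_on with
  | empty => simp [D]
  | insert a S ha ih =>
    rw [sum_powerset_insert ha, card_insert_of_notMem ha, sum_insert ha]
    have h1 : ∑ P ∈ S.powerset, D d (insert a S) P ^ 4 = ∑ P ∈ S.powerset, (D d S P - d a) ^ 4 :=
      sum_congr rfl fun P hP => by rw [D_insert_out d ha (mem_powerset.1 hP)]
    have h2 : ∑ P ∈ S.powerset, D d (insert a S) (insert a P) ^ 4 =
        ∑ P ∈ S.powerset, (D d S P + d a) ^ 4 :=
      sum_congr rfl fun P hP => by rw [D_insert_in d ha (mem_powerset.1 hP)]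
    rw [h1, h2, ← sum_add_distrib]
    have h3 : ∑ P ∈ S.powerset, ((D d S P - d a) ^ 4 + (D d S P + d a) ^ 4) =
        2 * ∑ P ∈ S.powerset, D d S P ^ 4 + 12 * d a ^ 2 * ∑ P ∈ S.powerset, D d S P ^ 2 +
          (2 ^ S.card) * (2 * d a ^ 4) := by
      have : ∀ P ∈ S.powerset, (D d S P - d a) ^ 4 + (D d S P + d a) ^ 4 =
          2 * D d S P ^ 4 + 12 * d a ^ 2 * D d S P ^ 2 + 2 * d a ^ 4 := fun P _ => by ring
      rw [sum_congr rfl this, sum_add_distrib, sum_add_distrib, ← mul_sum, ← mul_sum, sum_const,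
        card_powerset, nsmul_eq_mul]
      push_cast
      ring
    rw [h3, mom2]
    have hp : (0 : ℝ) < 2 ^ S.card := by positivity
    have he : 0 ≤ d a ^ 4 := by positivity
    have := mul_nonneg hp.le he
    have hpw : (2 : ℝ) ^ (S.card + 1) = 2 * 2 ^ S.card := by ring
    rw [hpw]
    nlinarith [ih]

end PZ

open PZ in
theorem p_PZ : Stmt_PZ := by
  intro ι _ S d h hh he h4
  set e : ℝ := ∑ i ∈ S, d i ^ 2 with hedef
  set G := S.powerset.filter (fun P => h < |∑ i ∈ P, d i - ∑ i ∈ S \ P, d i|) with hG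
  have hD : ∀ P, ∑ i ∈ P, d i - ∑ i ∈ S \ P, d i = D d S P := fun P => rfl
  have hp : (0 : ℝ) < 2 ^ S.card := by positivity
  -- the part of the second moment outside G is small
  have hout : ∑ P ∈ S.powerset.filter (fun P => ¬ h < |∑ i ∈ P, d i - ∑ i ∈ S \ P, d i|),
      D d S P ^ 2 ≤ 2 ^ S.card * (e / 4) := by
    calc ∑ P ∈ S.powerset.filter (fun P => ¬ h < |∑ i ∈ P, d i - ∑ i ∈ S \ P, d i|), D d S P ^ 2
        ≤ ∑ P ∈ S.powerset.filter (fun P => ¬ h < |∑ i ∈ P, d i - ∑ i ∈ S \ P, d i|), (e / 4) := by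
          refine sum_le_sum fun P hP => ?_
          have hP2 := (mem_filter.1 hP).2
          rw [hD, not_lt] at hP2
          have : D d S P ^ 2 ≤ h ^ 2 := by
            rw [← sq_abs]
            exact pow_le_pow_left₀ (abs_nonneg _) hP2 2
          linarith
      _ ≤ 2 ^ S.card * (e / 4) := by
          rw [sum_const, nsmul_eq_mul]
          refine mul_le_mul_of_nonneg_right ?_ (by positivity)
          have := card_le_card (filter_subset (fun P => ¬ h < |∑ i ∈ P, d i - ∑ i ∈ S \ P, d i|)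
            S.powerset)
          rw [card_powerset] at this
          exact_mod_cast this
  have hsplit : ∑ P ∈ G, D d S P ^ 2 +
      ∑ P ∈ S.powerset.filter (fun P => ¬ h < |∑ i ∈ P, d i - ∑ i ∈ S \ P, d i|), D d S P ^ 2 =
      2 ^ S.card * e := by
    rw [hG, sum_filter_add_sum_filter_not, mom2]
  have hin : 2 ^ S.card * (3 / 4 * e) ≤ ∑ P ∈ G, D d S P ^ 2 := by linarith
  have hCS : (∑ P ∈ G, D d S P ^ 2) ^ 2 ≤ (G.card : ℝ) * ∑ P ∈ G, (D d S P ^ 2) ^ 2 :=
    sq_sum_le_card_mul_sum_sq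
  have h4m : ∑ P ∈ G, (D d S P ^ 2) ^ 2 ≤ 2 ^ S.card * (3 * e ^ 2) := by
    calc ∑ P ∈ G, (D d S P ^ 2) ^ 2 ≤ ∑ P ∈ S.powerset, (D d S P ^ 2) ^ 2 :=
          sum_le_sum_of_subset_of_nonneg (filter_subset _ _) fun _ _ _ => by positivity
      _ = ∑ P ∈ S.powerset, D d S P ^ 4 := sum_congr rfl fun P _ => by ring
      _ ≤ 2 ^ S.card * (3 * e ^ 2) := mom4 d S
  have hsq : (2 ^ S.card * (3 / 4 * e)) ^ 2 ≤ (∑ P ∈ G, D d S P ^ 2) ^ 2 :=
    pow_le_pow_left₀ (by positivity) hin 2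
  have hfin : (2 ^ S.card * (3 / 4 * e)) ^ 2 ≤ (G.card : ℝ) * (2 ^ S.card * (3 * e ^ 2)) :=
    hsq.trans (hCS.trans (mul_le_mul_of_nonneg_left h4m (by positivity)))
  have hpos : (0 : ℝ) < 2 ^ S.card * e ^ 2 := by positivity
  have key : (2 : ℝ) ^ S.card * (9 / 16) ≤ 3 * (G.card : ℝ) := by
    refine le_of_mul_le_mul_left (a := 2 ^ S.card * e ^ 2) ?_ hpos
    calc 2 ^ S.card * e ^ 2 * ((2 : ℝ) ^ S.card * (9 / 16)) = (2 ^ S.card * (3 / 4 * e)) ^ 2 := by
          ring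
      _ ≤ (G.card : ℝ) * (2 ^ S.card * (3 * e ^ 2)) := hfin
      _ = 2 ^ S.card * e ^ 2 * (3 * (G.card : ℝ)) := by ring
  linarith

end Pool.MMq
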