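import Pool.Agent.Work.MP_9999b5_mq.Interface

set_option autoImplicit false

namespace Pool.MMq

open Finset Pool.MM15

open Classical in
theorem R1_gen {β : Type} (S : Finset β) (u v : β → ℝ) (t C : ℝ) (hC : (S.card : ℝ) = C)
    (ht : ∀ B ∈ S, u B + v B = t) :
    (46 / 54 : ℝ) * ∑ B ∈ S, (if (u B ≤ 0 ∧ v B ≤ 0) ∧
      ((S.filter (fun B => u B ≤ 0 ∧ v B ≤ 0)).card : ℝ) / C ≤ 54 / 100 then (1 : ℝ) else 0) ≤
    ∑ B ∈ S, (if (0 < u B ∧ v B ≤ 0) ∨ (u B ≤ 0 ∧ 0 < v B) then (1 : ℝ) else 0) := by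
  have hG : 0 ≤ ∑ B ∈ S, (if (0 < u B ∧ v B ≤ 0) ∨ (u B ≤ 0 ∧ 0 < v B) then (1 : ℝ) else 0) :=
    Finset.sum_nonneg (fun B _ => by split_ifs <;> norm_num)
  by_cases hb : ((S.filter (fun B => u B ≤ 0 ∧ v B ≤ 0)).card : ℝ) / C ≤ 54 / 100
  · by_cases h0 : (S.filter (fun B => u B ≤ 0 ∧ v B ≤ 0)).Nonempty
    · obtain ⟨B0, hB0⟩ := h0
      rw [Finset.mem_filter] at hB0
      have ht0 : t ≤ 0 := by
        rw [← ht B0 hB0.1]
        linarith [hB0.2.1, hB0.2.2]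
      have hCpos : 0 < C := by
        rw [← hC]
        exact_mod_cast Finset.card_pos.mpr ⟨B0, hB0.1⟩
      have e1 : ∑ B ∈ S, (if (u B ≤ 0 ∧ v B ≤ 0) ∧
          ((S.filter (fun B => u B ≤ 0 ∧ v B ≤ 0)).card : ℝ) / C ≤ 54 / 100 then (1 : ℝ) else 0)
          = ((S.filter (fun B => u B ≤ 0 ∧ v B ≤ 0)).card : ℝ) := by
        refine Eq.trans ?_ (Finset.sum_boole (fun B => u B ≤ 0 ∧ v B ≤ 0) S)
        refine Finset.sum_congr rfl (fun B _ => ?_)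
        by_cases h7 : u B ≤ 0 ∧ v B ≤ 0
        · rw [if_pos ⟨h7, hb⟩, if_pos h7]
        · rw [if_neg (fun h => h7 h.1), if_neg h7]
      have e2 : ∑ B ∈ S, (if (0 < u B ∧ v B ≤ 0) ∨ (u B ≤ 0 ∧ 0 < v B) then (1 : ℝ) else 0)
          = C - ((S.filter (fun B => u B ≤ 0 ∧ v B ≤ 0)).card : ℝ) := by
        rw [Finset.natCast_card_filter, ← hC, Finset.card_eq_sum_ones, Nat.cast_sum,
          ← Finset.sum_sub_distrib]
        refine Finset.sum_congr rfl (fun B hB => ?_)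
        have h3 := ht B hB
        by_cases hu : u B ≤ 0 <;> by_cases hv : v B ≤ 0
        · have h4 : ¬ ((0 < u B ∧ v B ≤ 0) ∨ (u B ≤ 0 ∧ 0 < v B)) := by
            rintro (h | h)
            · linarith [h.1]
            · linarith [h.2]
          rw [if_neg h4, if_pos ⟨hu, hv⟩]
          norm_num
        · have h4 : (0 < u B ∧ v B ≤ 0) ∨ (u B ≤ 0 ∧ 0 < v B) := Or.inr ⟨hu, not_le.mp hv⟩
          have h5 : ¬ (u B ≤ 0 ∧ v B ≤ 0) := fun h => hv h.2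
          rw [if_pos h4, if_neg h5]
          norm_num
        · have h4 : (0 < u B ∧ v B ≤ 0) ∨ (u B ≤ 0 ∧ 0 < v B) := Or.inl ⟨not_le.mp hu, hv⟩
          have h5 : ¬ (u B ≤ 0 ∧ v B ≤ 0) := fun h => hu h.1
          rw [if_pos h4, if_neg h5]
          norm_num
        · exfalso
          push Not at hu hv
          linarith
      rw [e1, e2]
      rw [div_le_iff₀ hCpos] at hb
      linarith
    · rw [Finset.not_nonempty_iff_eq_empty] at h0
      have e1 : ∑ B ∈ S, (if (u B ≤ 0 ∧ v B ≤ 0) ∧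
          ((S.filter (fun B => u B ≤ 0 ∧ v B ≤ 0)).card : ℝ) / C ≤ 54 / 100 then (1 : ℝ) else 0)
          = 0 := by
        refine Finset.sum_eq_zero (fun B hB => ?_)
        rw [if_neg]
        intro h
        have : B ∈ S.filter (fun B => u B ≤ 0 ∧ v B ≤ 0) := Finset.mem_filter.mpr ⟨hB, h.1⟩
        rw [h0] at this
        exact absurd this (Finset.notMem_empty B)
      rw [e1, mul_zero]
      exact hG
  · have e1 : ∑ B ∈ S, (if (u B ≤ 0 ∧ v B ≤ 0) ∧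
        ((S.filter (fun B => u B ≤ 0 ∧ v B ≤ 0)).card : ℝ) / C ≤ 54 / 100 then (1 : ℝ) else 0)
        = 0 := Finset.sum_eq_zero (fun B _ => if_neg (fun h => hb h.2))
    rw [e1, mul_zero]
    exact hG

theorem R1_iv (n a b : ℕ) (hb : b ≤ n) : (iv n a b).card = b - a := by
  have h : (iv n a b).map Fin.valEmbedding = Finset.Ico a b := by
    ext i
    simp only [iv, Finset.mem_map, Finset.mem_filter, Finset.mem_univ, true_and,
      Fin.valEmbedding_apply, Finset.mem_Ico]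
    constructor
    · rintro ⟨p, hp, rfl⟩
      exact hp
    · intro hi
      exact ⟨⟨i, lt_of_lt_of_le hi.2 hb⟩, hi, rfl⟩
  rw [← Finset.card_map Fin.valEmbedding, h, Nat.card_Ico]

theorem R1_dis (n a b c d : ℕ) (h : b ≤ c) : Disjoint (iv n a b) (iv n c d) := by
  rw [Finset.disjoint_left]
  intro p hp hq
  simp only [iv, Finset.mem_filter, Finset.mem_univ, true_and] at hp hq
  omega

theorem R1_im {N : ℕ} (x : Fin N → ℝ) (I : Finset (Fin N)) (s : Equiv.Perm (Fin N)) :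
    ∑ i ∈ im I s, x i = sm x I s := by
  unfold im sm
  rw [Finset.sum_map]
  rfl

theorem R1_imsd {N : ℕ} (I J : Finset (Fin N)) (hIJ : Disjoint I J) (s : Equiv.Perm (Fin N)) :
    im (I ∪ J) s \ im I s = im J s := by
  unfold im
  rw [Finset.map_union, Finset.union_sdiff_left]
  refine Finset.sdiff_eq_self_of_disjoint ?_
  exact (Finset.disjoint_map s.toEmbedding).mpr hIJ.symm

open Classical in
theorem R1_jj {N : ℕ} (x : Fin N → ℝ) (a : ℝ) (k : ℕ) (s : Equiv.Perm (Fin N)) :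
    jj x a k s = (if 0 < sa x a k s then 1 else 0) +
      ((if 0 < sm x (blk N k 0) s then 1 else 0) + (if 0 < sm x (blk N k 1) s then 1 else 0) +
        (if 0 < sm x (blk N k 2) s then 1 else 0)) := by
  unfold jj nn
  rw [Finset.card_filter, Finset.sum_range_succ, Finset.sum_range_succ, Finset.sum_range_succ,
    Finset.sum_range_zero, zero_add]

theorem R1_ite (P P1 P2 : Prop) {_ : Decidable P} {_ : Decidable P1} {_ : Decidable P2}
    (h : P ↔ P1 ∧ P2) :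
    (if P then (1 : ℝ) else 0) = (if P1 then (1 : ℝ) else 0) * (if P2 then (1 : ℝ) else 0) := by
  by_cases h1 : P1
  · by_cases h2 : P2
    · rw [if_pos (h.mpr ⟨h1, h2⟩), if_pos h1, if_pos h2, mul_one]
    · rw [if_neg (fun hp => h2 (h.mp hp).2), if_neg h2, mul_zero]
  · rw [if_neg (fun hp => h1 (h.mp hp).1), if_neg h1, zero_mul]

open Classical in
theorem R1_bb {N : ℕ} (x : Fin N → ℝ) (W : Finset (Fin N)) (k : ℕ) :
    bb x W k = (((W.powersetCard k).filter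
      (fun B => ∑ i ∈ B, x i ≤ 0 ∧ ∑ i ∈ W \ B, x i ≤ 0)).card : ℝ) := by
  unfold bb
  congr!

open Classical in
theorem R1_ba {N : ℕ} (x : Fin N → ℝ) (a : ℝ) (W : Finset (Fin N)) (k : ℕ) :
    ba x a W k = (((W.powersetCard k).filter
      (fun B => ∑ i ∈ B, x i ≤ 0 ∧ a + ∑ i ∈ W \ B, x i ≤ 0)).card : ℝ) := by
  unfold ba
  congr!

theorem R1_jj0 {N : ℕ} (x : Fin N → ℝ) (a : ℝ) (k : ℕ) (s : Equiv.Perm (Fin N)) :
    jj x a k s = 0 ↔ (sm x (blk N k 0) s ≤ 0 ∧ a + sm x (ra N k) s ≤ 0) ∧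
      (sm x (blk N k 1) s ≤ 0 ∧ sm x (blk N k 2) s ≤ 0) := by
  classical
  rw [R1_jj]
  have hsa : sa x a k s = a + sm x (ra N k) s := rfl
  rw [hsa]
  constructor
  · intro h
    refine ⟨⟨?_, ?_⟩, ?_, ?_⟩ <;> by_contra hc <;> push Not at hc <;> simp [hc] at h
  · rintro ⟨⟨h1, h2⟩, h3, h4⟩
    rw [if_neg (not_lt.mpr h1), if_neg (not_lt.mpr h2), if_neg (not_lt.mpr h3),
      if_neg (not_lt.mpr h4)]

theorem R1_jj2 {N : ℕ} (x : Fin N → ℝ) (a : ℝ) (k : ℕ) (s : Equiv.Perm (Fin N)) :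
    (jj x a k s = 2 ∧ ((0 < sa x a k s ∧ sm x (blk N k 0) s ≤ 0) ∨
      (sa x a k s ≤ 0 ∧ 0 < sm x (blk N k 0) s))) ↔
    ((0 < sm x (blk N k 0) s ∧ a + sm x (ra N k) s ≤ 0) ∨
      (sm x (blk N k 0) s ≤ 0 ∧ 0 < a + sm x (ra N k) s)) ∧
    ((0 < sm x (blk N k 1) s ∧ sm x (blk N k 2) s ≤ 0) ∨
      (sm x (blk N k 1) s ≤ 0 ∧ 0 < sm x (blk N k 2) s)) := by
  classical
  rw [R1_jj]
  have hsa : sa x a k s = a + sm x (ra N k) s := rfl
  rw [hsa]
  rcases lt_or_ge 0 (a + sm x (ra N k) s) with c3 | c3 <;>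
  rcases lt_or_ge 0 (sm x (blk N k 0) s) with c4 | c4 <;>
  rcases lt_or_ge 0 (sm x (blk N k 1) s) with c5 | c5 <;>
  rcases lt_or_ge 0 (sm x (blk N k 2) s) with c6 | c6 <;>
  simp [c3, c4, c5, c6, not_le.mpr, not_lt.mpr]

open Classical in
theorem p_R1 : Stmt_ORB → Stmt_R1 := by
  intro hORB k T N x a hS
  have hk := hS.two
  have hN := hS.hN
  have hN4 : 4 * k - 1 ≤ N := by omega
  set C1 : ℝ := ((2 * k - 1).choose k : ℝ) with hC1
  set C2 : ℝ := ((2 * k).choose k : ℝ) with hC2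
  have hC1p : 0 < C1 := by
    rw [hC1]
    exact_mod_cast Nat.choose_pos (by omega)
  have hC2p : 0 < C2 := by
    rw [hC2]
    exact_mod_cast Nat.choose_pos (by omega)
  have hd1 : Disjoint (blk N k 0) (ra N k) := R1_dis _ _ _ _ _ (by omega)
  have hd2 : Disjoint (blk N k 1) (blk N k 2) := R1_dis _ _ _ _ _ (by omega)
  have hb0 : (blk N k 0).card = k := by
    unfold blk
    rw [R1_iv _ _ _ (by omega)]
    omega
  have hb1 : (blk N k 1).card = k := by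
    unfold blk
    rw [R1_iv _ _ _ (by omega)]
    omega
  have hb2 : (blk N k 2).card = k := by
    unfold blk
    rw [R1_iv _ _ _ (by omega)]
    omega
  have hra : (ra N k).card = k - 1 := by
    unfold ra
    rw [R1_iv _ _ _ (by omega)]
    omega
  have hW1 : ∀ s : Equiv.Perm (Fin N), ((((im (blk N k 0 ∪ ra N k) s).powersetCard k).card : ℕ) : ℝ)
      = C1 := by
    intro s
    rw [Finset.card_powersetCard]
    unfold im
    rw [Finset.card_map, Finset.card_union_of_disjoint hd1, hb0, hra, hC1]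
    congr 2
    omega
  have hW2 : ∀ s : Equiv.Perm (Fin N), ((((im (blk N k 1 ∪ blk N k 2) s).powersetCard k).card : ℕ) : ℝ)
      = C2 := by
    intro s
    rw [Finset.card_powersetCard]
    unfold im
    rw [Finset.card_map, Finset.card_union_of_disjoint hd2, hb1, hb2, hC2]
    congr 2
    omega
  -- the functions
  have hF := hORB N k hk hN4
    (fun B W => if (∑ i ∈ B, x i ≤ 0 ∧ a + ∑ i ∈ W \ B, x i ≤ 0) ∧ ba x a W k / C1 ≤ 54 / 100
      then 1 else 0)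
    (fun B W => if (∑ i ∈ B, x i ≤ 0 ∧ ∑ i ∈ W \ B, x i ≤ 0) ∧ bb x W k / C2 ≤ 54 / 100
      then 1 else 0)
  have hG := hORB N k hk hN4
    (fun B W => if (0 < ∑ i ∈ B, x i ∧ a + ∑ i ∈ W \ B, x i ≤ 0) ∨
      (∑ i ∈ B, x i ≤ 0 ∧ 0 < a + ∑ i ∈ W \ B, x i) then 1 else 0)
    (fun B W => if (0 < ∑ i ∈ B, x i ∧ ∑ i ∈ W \ B, x i ≤ 0) ∨
      (∑ i ∈ B, x i ≤ 0 ∧ 0 < ∑ i ∈ W \ B, x i) then 1 else 0)
  rw [← hC1, ← hC2] at hF hG
  beta_reduce at hF hG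
  have hL : cnt (fun s => jj x a k s = 0 ∧ b1 x a k s ≤ 54 / 100 ∧ b2 x k s ≤ 54 / 100) =
      ∑ s : Equiv.Perm (Fin N),
        (if (∑ i ∈ im (blk N k 0) s, x i ≤ 0 ∧
          a + ∑ i ∈ im (blk N k 0 ∪ ra N k) s \ im (blk N k 0) s, x i ≤ 0) ∧
          ba x a (im (blk N k 0 ∪ ra N k) s) k / C1 ≤ 54 / 100 then (1 : ℝ) else 0) *
        (if (∑ i ∈ im (blk N k 1) s, x i ≤ 0 ∧
          ∑ i ∈ im (blk N k 1 ∪ blk N k 2) s \ im (blk N k 1) s, x i ≤ 0) ∧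
          bb x (im (blk N k 1 ∪ blk N k 2) s) k / C2 ≤ 54 / 100 then (1 : ℝ) else 0) := by
    unfold cnt
    rw [← Finset.sum_boole]
    refine Finset.sum_congr rfl (fun s _ => ?_)
    refine R1_ite _ _ _ ?_
    rw [R1_imsd _ _ hd1, R1_imsd _ _ hd2, R1_im, R1_im, R1_im, R1_im, R1_jj0]
    have hB1 : b1 x a k s = ba x a (im (blk N k 0 ∪ ra N k) s) k / C1 := rfl
    have hB2 : b2 x k s = bb x (im (blk N k 1 ∪ blk N k 2) s) k / C2 := rfl
    rw [hB1, hB2]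
    tauto
  have hR : cnt (fun s => jj x a k s = 2 ∧ ((0 < sa x a k s ∧ sm x (blk N k 0) s ≤ 0) ∨
      (sa x a k s ≤ 0 ∧ 0 < sm x (blk N k 0) s))) =
      ∑ s : Equiv.Perm (Fin N),
        (if (0 < ∑ i ∈ im (blk N k 0) s, x i ∧
          a + ∑ i ∈ im (blk N k 0 ∪ ra N k) s \ im (blk N k 0) s, x i ≤ 0) ∨
          (∑ i ∈ im (blk N k 0) s, x i ≤ 0 ∧
          0 < a + ∑ i ∈ im (blk N k 0 ∪ ra N k) s \ im (blk N k 0) s, x i) then (1 : ℝ) else 0) *
        (if (0 < ∑ i ∈ im (blk N k 1) s, x i ∧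
          ∑ i ∈ im (blk N k 1 ∪ blk N k 2) s \ im (blk N k 1) s, x i ≤ 0) ∨
          (∑ i ∈ im (blk N k 1) s, x i ≤ 0 ∧
          0 < ∑ i ∈ im (blk N k 1 ∪ blk N k 2) s \ im (blk N k 1) s, x i)
          then (1 : ℝ) else 0) := by
    unfold cnt
    rw [← Finset.sum_boole]
    refine Finset.sum_congr rfl (fun s _ => ?_)
    refine R1_ite _ _ _ ?_
    rw [R1_imsd _ _ hd1, R1_imsd _ _ hd2, R1_im, R1_im, R1_im, R1_im]
    exact R1_jj2 x a k s
  rw [hL, hR]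
  have hCC : 0 < C1 * C2 := mul_pos hC1p hC2p
  refine le_of_mul_le_mul_left ?_ hCC
  rw [hG, mul_left_comm, hF, Finset.mul_sum]
  refine Finset.sum_le_sum (fun s _ => ?_)
  have g1 := R1_gen ((im (blk N k 0 ∪ ra N k) s).powersetCard k) (fun B => ∑ i ∈ B, x i)
    (fun B => a + ∑ i ∈ im (blk N k 0 ∪ ra N k) s \ B, x i)
    (a + ∑ i ∈ im (blk N k 0 ∪ ra N k) s, x i) C1 (hW1 s) (by
      intro B hB
      have := Finset.sum_sdiff (f := x) (Finset.mem_powersetCard.mp hB).1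
      linarith)
  have g2 := R1_gen ((im (blk N k 1 ∪ blk N k 2) s).powersetCard k) (fun B => ∑ i ∈ B, x i)
    (fun B => ∑ i ∈ im (blk N k 1 ∪ blk N k 2) s \ B, x i)
    (∑ i ∈ im (blk N k 1 ∪ blk N k 2) s, x i) C2 (hW2 s) (by
      intro B hB
      have := Finset.sum_sdiff (f := x) (Finset.mem_powersetCard.mp hB).1
      linarith)
  rw [R1_bb, R1_ba]
  have n1 : 0 ≤ ∑ B ∈ (im (blk N k 1 ∪ blk N k 2) s).powersetCard k,
      (if (∑ i ∈ B, x i ≤ 0 ∧ ∑ i ∈ im (blk N k 1 ∪ blk N k 2) s \ B, x i ≤ 0) ∧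
        ((((im (blk N k 1 ∪ blk N k 2) s).powersetCard k).filter (fun B => ∑ i ∈ B, x i ≤ 0 ∧
          ∑ i ∈ im (blk N k 1 ∪ blk N k 2) s \ B, x i ≤ 0)).card : ℝ) / C2 ≤ 54 / 100
        then (1 : ℝ) else 0) :=
    Finset.sum_nonneg (fun B _ => by split_ifs <;> norm_num)
  have n2 : 0 ≤ ∑ B ∈ (im (blk N k 0 ∪ ra N k) s).powersetCard k,
      (if (0 < ∑ i ∈ B, x i ∧ a + ∑ i ∈ im (blk N k 0 ∪ ra N k) s \ B, x i ≤ 0) ∨
        (∑ i ∈ B, x i ≤ 0 ∧ 0 < a + ∑ i ∈ im (blk N k 0 ∪ ra N k) s \ B, x i)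
        then (1 : ℝ) else 0) :=
    Finset.sum_nonneg (fun B _ => by split_ifs <;> norm_num)
  have g3 := mul_le_mul g1 g2 (mul_nonneg (by norm_num) n1) n2
  refine le_trans (le_of_eq ?_) g3
  ring

end Pool.MMq
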