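import Pool.Agent.Work.MP_9999b5_mq.Interface2

set_option autoImplicit false

/-! RKB: the probability that a given element sits on a given set of positions. -/

namespace Pool.MMq

open Finset Pool.MM15 Pool.Agent.Work.MaxSums

open Classical in
/-- indicator -/
noncomputable def RKB_i (P : Prop) : ℝ := if P then (1 : ℝ) else 0

lemma RKB_pos {P : Prop} (h : P) : RKB_i P = 1 := by
  unfold RKB_i
  rw [if_pos h]

lemma RKB_neg {P : Prop} (h : ¬ P) : RKB_i P = 0 := by
  unfold RKB_i
  rw [if_neg h]

lemma RKB_cnt {N : ℕ} (P : Equiv.Perm (Fin N) → Prop) :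
    cnt P = ∑ s : Equiv.Perm (Fin N), RKB_i (P s) := by
  unfold cnt RKB_i
  rw [← Finset.sum_filter, Finset.sum_const, nsmul_eq_mul, mul_one]

lemma RKB_sym {N : ℕ} (p q b : Fin N) :
    cnt (fun s : Equiv.Perm (Fin N) => s p = b) = cnt (fun s : Equiv.Perm (Fin N) => s q = b) := by
  rw [RKB_cnt, RKB_cnt]
  rw [← Equiv.sum_comp (Equiv.mulRight (Equiv.swap p q))
    (fun s : Equiv.Perm (Fin N) => RKB_i (s q = b))]
  refine Finset.sum_congr rfl fun s _ => ?_
  simp [Equiv.Perm.mul_apply]

lemma RKB_one {N : ℕ} (p b : Fin N) :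
    (N : ℝ) * cnt (fun s : Equiv.Perm (Fin N) => s p = b) = (N.factorial : ℝ) := by
  have h1 : (N : ℝ) * cnt (fun s : Equiv.Perm (Fin N) => s p = b) =
      ∑ q : Fin N, cnt (fun s : Equiv.Perm (Fin N) => s q = b) := by
    rw [Finset.sum_congr rfl (fun q _ => RKB_sym q p b), Finset.sum_const, Finset.card_univ,
      Fintype.card_fin, nsmul_eq_mul]
  rw [h1, Finset.sum_congr rfl (fun q _ => RKB_cnt (fun s : Equiv.Perm (Fin N) => s q = b))]
  rw [Finset.sum_comm]
  have h2 : ∀ s : Equiv.Perm (Fin N), ∑ q : Fin N, RKB_i (s q = b) = 1 := by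
    intro s
    rw [Finset.sum_eq_single (s.symm b)]
    · exact RKB_pos (by simp)
    · intro q _ hq
      refine RKB_neg ?_
      intro h
      exact hq (by rw [← h]; simp)
    · intro h
      exact absurd (Finset.mem_univ _) h
  rw [Finset.sum_congr rfl (fun s _ => h2 s)]
  rw [Finset.sum_const, Finset.card_univ, Fintype.card_perm, Fintype.card_fin, nsmul_eq_mul,
    mul_one]

theorem p_RKB : Stmt_RKB := by
  intro N I b
  have h1 : cnt (fun s : Equiv.Perm (Fin N) => b ∈ im I s) =
      ∑ p ∈ I, cnt (fun s : Equiv.Perm (Fin N) => s p = b) := by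
    rw [RKB_cnt, Finset.sum_congr rfl
      (fun p _ => RKB_cnt (fun s : Equiv.Perm (Fin N) => s p = b)), Finset.sum_comm]
    refine Finset.sum_congr rfl fun s _ => ?_
    by_cases hb : s.symm b ∈ I
    · have h2 : b ∈ im I s := by
        unfold im
        rw [Finset.mem_map]
        exact ⟨s.symm b, hb, by simp⟩
      rw [RKB_pos h2, Finset.sum_eq_single (s.symm b)]
      · exact (RKB_pos (by simp)).symm
      · intro q _ hq
        refine RKB_neg ?_
        intro h
        exact hq (by rw [← h]; simp)
      · intro h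
        exact absurd hb h
    · have h2 : b ∉ im I s := by
        unfold im
        rw [Finset.mem_map]
        rintro ⟨q, hq, hqb⟩
        apply hb
        have : s q = b := hqb
        rw [← this]
        simpa using hq
      rw [RKB_neg h2, Finset.sum_eq_zero]
      intro q hq
      refine RKB_neg ?_
      intro h
      apply hb
      rw [← h]
      simpa using hq
  rw [h1, Finset.mul_sum, Finset.sum_congr rfl (fun p _ => RKB_one p b), Finset.sum_const,
    nsmul_eq_mul]

end Pool.MMq
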