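import Pool.Agent.Work.MP_9999b5_mq.Interface

set_option autoImplicit false

/-!
# Block SGN of `MP_9999b5_mq`: small ball .534 for signed sums
-/

namespace Pool.MMq

open Finset Pool.MM15

/-- The signed value of `i` for the set `P` of plus signs. -/
noncomputable def SGN_sg {ι : Type} [DecidableEq ι] (d : ι → ℝ) (P : Finset ι) (i : ι) : ℝ :=
  if i ∈ P then d i else - d i

lemma SGN_sum {ι : Type} [DecidableEq ι] (S P : Finset ι) (d : ι → ℝ) (hP : P ⊆ S) :
    ∑ i ∈ P, d i - ∑ i ∈ S \ P, d i = ∑ i ∈ S, SGN_sg d P i := by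
  have h1 : ∑ i ∈ S, SGN_sg d P i = ∑ i ∈ S \ P, SGN_sg d P i + ∑ i ∈ P, SGN_sg d P i :=
    (Finset.sum_sdiff hP).symm
  have h2 : ∑ i ∈ P, SGN_sg d P i = ∑ i ∈ P, d i :=
    Finset.sum_congr rfl (fun i hi => by simp [SGN_sg, hi])
  have h3 : ∑ i ∈ S \ P, SGN_sg d P i = ∑ i ∈ S \ P, - d i :=
    Finset.sum_congr rfl (fun i hi => by simp [SGN_sg, (Finset.mem_sdiff.mp hi).2])
  rw [h1, h2, h3, Finset.sum_neg_distrib]
  ring

lemma SGN_sum_inter {ι : Type} [DecidableEq ι] (g P : Finset ι) (d : ι → ℝ) :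
    ∑ i ∈ P ∩ g, d i - ∑ i ∈ g \ (P ∩ g), d i = ∑ i ∈ g, SGN_sg d P i := by
  rw [SGN_sum g (P ∩ g) d Finset.inter_subset_right]
  refine Finset.sum_congr rfl (fun i hi => ?_)
  by_cases h : i ∈ P
  · simp [SGN_sg, h, hi]
  · simp [SGN_sg, h]

lemma SGN_flip_in {ι : Type} [DecidableEq ι] (d : ι → ℝ) (P g : Finset ι) (i : ι) (hi : i ∈ g) :
    SGN_sg d (symmDiff P g) i = - SGN_sg d P i := by
  by_cases h : i ∈ P
  · have h2 : i ∉ symmDiff P g := by
      rw [Finset.mem_symmDiff]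
      tauto
    simp [SGN_sg, h, h2]
  · have h2 : i ∈ symmDiff P g := by
      rw [Finset.mem_symmDiff]
      tauto
    simp [SGN_sg, h, h2]

lemma SGN_flip_out {ι : Type} [DecidableEq ι] (d : ι → ℝ) (P g : Finset ι) (i : ι) (hi : i ∉ g) :
    SGN_sg d (symmDiff P g) i = SGN_sg d P i := by
  by_cases h : i ∈ P
  · have h2 : i ∈ symmDiff P g := by
      rw [Finset.mem_symmDiff]
      tauto
    simp [SGN_sg, h, h2]
  · have h2 : i ∉ symmDiff P g := by
      rw [Finset.mem_symmDiff]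
      tauto
    simp [SGN_sg, h, h2]

lemma SGN_flip_self {ι : Type} [DecidableEq ι] (d : ι → ℝ) (P g : Finset ι) :
    ∑ i ∈ g, SGN_sg d (symmDiff P g) i = - ∑ i ∈ g, SGN_sg d P i := by
  rw [← Finset.sum_neg_distrib]
  exact Finset.sum_congr rfl (fun i hi => SGN_flip_in d P g i hi)

lemma SGN_flip_disj {ι : Type} [DecidableEq ι] (d : ι → ℝ) (P g g' : Finset ι)
    (hg : Disjoint g' g) :
    ∑ i ∈ g', SGN_sg d (symmDiff P g) i = ∑ i ∈ g', SGN_sg d P i :=
  Finset.sum_congr rfl (fun i hi => SGN_flip_out d P g i (Finset.disjoint_left.mp hg hi))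

lemma SGN_flip_sum {ι : Type} [DecidableEq ι] (S : Finset ι) (d : ι → ℝ) (P g : Finset ι)
    (hg : g ⊆ S) :
    ∑ i ∈ S, SGN_sg d (symmDiff P g) i =
      ∑ i ∈ S, SGN_sg d P i - 2 * ∑ i ∈ g, SGN_sg d P i := by
  rw [← Finset.sum_sdiff hg, ← Finset.sum_sdiff (f := fun i => SGN_sg d P i) hg, SGN_flip_self,
    SGN_flip_disj d P g (S \ g) Finset.sdiff_disjoint]
  ring

lemma SGN_symm_sub {ι : Type} [DecidableEq ι] (S P g : Finset ι) (hP : P ⊆ S) (hg : g ⊆ S) :
    symmDiff P g ⊆ S := by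
  intro i hi
  rw [Finset.mem_symmDiff] at hi
  rcases hi with h | h
  · exact hP h.1
  · exact hg h.1

lemma SGN_half {β : Type} (A : Finset β) (w : β → Prop) [DecidablePred w] (f : β → β)
    (hf : ∀ P ∈ A, f P ∈ A) (hff : ∀ P ∈ A, f (f P) = P) (hw : ∀ P ∈ A, w P → ¬ w (f P)) :
    2 * (A.filter w).card ≤ A.card := by
  have h1 : (A.filter w).card ≤ (A.filter (fun P => ¬ w P)).card := by
    apply Finset.card_le_card_of_injOn f
    · intro P hP
      have hP' := Finset.mem_filter.mp (Finset.mem_coe.mp hP)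
      exact Finset.mem_coe.mpr (Finset.mem_filter.mpr ⟨hf P hP'.1, hw P hP'.1 hP'.2⟩)
    · intro P hP Q hQ h
      have hP' := Finset.mem_filter.mp (Finset.mem_coe.mp hP)
      have hQ' := Finset.mem_filter.mp (Finset.mem_coe.mp hQ)
      have h3 : f (f P) = f (f Q) := congrArg f h
      rwa [hff P hP'.1, hff Q hQ'.1] at h3
  have h2 := Finset.card_filter_add_card_filter_not (s := A) w
  omega

/-- Two numbers in the window differ by at most twice its size. -/
lemma SGN_window (u v h : ℝ) (hv : h < |v|) (hu : |u| ≤ h) : ¬ |u - 2 * v| ≤ h := by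
  intro h2
  have h3 : |2 * v| ≤ |u| + |u - 2 * v| := by
    have h4 : 2 * v = u - (u - 2 * v) := by ring
    calc |2 * v| = |u - (u - 2 * v)| := by rw [← h4]
      _ ≤ |u| + |u - 2 * v| := abs_sub _ _
  rw [abs_mul, abs_two] at h3
  linarith

open Classical in
/-- Some `|d i| > h`. -/
lemma SGN_one {ι : Type} [DecidableEq ι] (S : Finset ι) (d : ι → ℝ) (h : ℝ) (i : ι) (hi : i ∈ S)
    (hd : h < |d i|) :
    2 * (S.powerset.filter (fun P => |∑ i ∈ P, d i - ∑ i ∈ S \ P, d i| ≤ h)).card ≤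
      2 ^ S.card := by
  have hsub : ({i} : Finset ι) ⊆ S := Finset.singleton_subset_iff.mpr hi
  rw [← Finset.card_powerset]
  apply SGN_half S.powerset _ (fun P => symmDiff P {i})
  · intro P hP
    exact Finset.mem_powerset.mpr (SGN_symm_sub S P {i} (Finset.mem_powerset.mp hP) hsub)
  · intro P _
    exact symmDiff_symmDiff_cancel_right _ _
  · intro P hP hw
    have hP' := Finset.mem_powerset.mp hP
    rw [SGN_sum S P d hP'] at hw
    show ¬ |∑ i' ∈ symmDiff P {i}, d i' - ∑ i' ∈ S \ symmDiff P {i}, d i'| ≤ h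
    rw [SGN_sum S _ d (SGN_symm_sub S P {i} hP' hsub), SGN_flip_sum S d P {i} hsub]
    apply SGN_window _ _ _ _ hw
    rw [Finset.sum_singleton]
    unfold SGN_sg
    split_ifs
    · exact hd
    · rwa [abs_neg]

open Classical in
/-- The groups: outside the set where all group sums are small at most half is in the window. -/
lemma SGN_groups {ι : Type} [DecidableEq ι] (S : Finset ι) (d : ι → ℝ) (h : ℝ)
    (g : Fin 13 → Finset ι) (hg : ∀ j, g j ⊆ S) (hdis : ∀ j l, j ≠ l → Disjoint (g j) (g l)) :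
    2 * (S.powerset.filter (fun P => |∑ i ∈ P, d i - ∑ i ∈ S \ P, d i| ≤ h)).card ≤
      2 ^ S.card +
        (S.powerset.filter (fun P => ∀ j, |∑ i ∈ g j, SGN_sg d P i| ≤ h)).card := by
  obtain ⟨φ, hφ⟩ : ∃ φ : Finset (Fin 13) → Fin 13, ∀ F, F.Nonempty → φ F ∈ F :=
    ⟨fun F => if hF : F.Nonempty then hF.choose else 0, fun F hF => by
      simp only [hF, dif_pos]
      exact hF.choose_spec⟩
  set FF : Finset ι → Finset (Fin 13) :=
    fun P => Finset.univ.filter (fun j => h < |∑ i ∈ g j, SGN_sg d P i|) with hFF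
  have hinv : ∀ (P : Finset ι) (j : Fin 13), FF (symmDiff P (g j)) = FF P := by
    intro P j
    rw [hFF]
    refine Finset.filter_congr (fun l _ => ?_)
    by_cases hl : l = j
    · rw [hl, SGN_flip_self, abs_neg]
    · rw [SGN_flip_disj d P (g j) (g l) (hdis l j hl)]
  set A : Finset (Finset ι) :=
    S.powerset.filter (fun P => ¬ ∀ j, |∑ i ∈ g j, SGN_sg d P i| ≤ h) with hA
  have hAne : ∀ P ∈ A, (FF P).Nonempty := by
    intro P hP
    have h1 := (Finset.mem_filter.mp hP).2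
    push_neg at h1
    obtain ⟨j, hj⟩ := h1
    exact ⟨j, Finset.mem_filter.mpr ⟨Finset.mem_univ _, hj⟩⟩
  have hmem : ∀ P, P ∈ A ↔ P ⊆ S ∧ (FF P).Nonempty := by
    intro P
    constructor
    · intro hP
      exact ⟨Finset.mem_powerset.mp (Finset.mem_filter.mp hP).1, hAne P hP⟩
    · rintro ⟨h1, j, hj⟩
      refine Finset.mem_filter.mpr ⟨Finset.mem_powerset.mpr h1, fun h2 => ?_⟩
      have h3 := (Finset.mem_filter.mp hj).2
      exact absurd (h2 j) (not_le.mpr h3)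
  have hhalf : 2 * (A.filter (fun P => |∑ i ∈ P, d i - ∑ i ∈ S \ P, d i| ≤ h)).card ≤ A.card := by
    apply SGN_half A _ (fun P => symmDiff P (g (φ (FF P))))
    · intro P hP
      obtain ⟨h1, h2⟩ := (hmem P).mp hP
      refine (hmem _).mpr ⟨SGN_symm_sub S P _ h1 (hg _), ?_⟩
      rw [hinv]
      exact h2
    · intro P _
      show symmDiff (symmDiff P (g (φ (FF P)))) (g (φ (FF (symmDiff P (g (φ (FF P))))))) = P
      rw [hinv]
      exact symmDiff_symmDiff_cancel_right _ _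
    · intro P hP hw
      obtain ⟨h1, h2⟩ := (hmem P).mp hP
      show ¬ |∑ i' ∈ symmDiff P (g (φ (FF P))), d i' -
        ∑ i' ∈ S \ symmDiff P (g (φ (FF P))), d i'| ≤ h
      rw [SGN_sum S P d h1] at hw
      rw [SGN_sum S _ d (SGN_symm_sub S P _ h1 (hg _)), SGN_flip_sum S d P _ (hg _)]
      exact SGN_window _ _ _ (Finset.mem_filter.mp (hφ _ h2)).2 hw
  have hsplit : (S.powerset.filter (fun P => |∑ i ∈ P, d i - ∑ i ∈ S \ P, d i| ≤ h)).card ≤
      (S.powerset.filter (fun P => ∀ j, |∑ i ∈ g j, SGN_sg d P i| ≤ h)).card +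
        (A.filter (fun P => |∑ i ∈ P, d i - ∑ i ∈ S \ P, d i| ≤ h)).card := by
    refine le_trans (Finset.card_le_card (fun P hP => ?_)) (Finset.card_union_le _ _)
    have hP' := Finset.mem_filter.mp hP
    by_cases hb : ∀ j, |∑ i ∈ g j, SGN_sg d P i| ≤ h
    · exact Finset.mem_union_left _ (Finset.mem_filter.mpr ⟨hP'.1, hb⟩)
    · exact Finset.mem_union_right _
        (Finset.mem_filter.mpr ⟨Finset.mem_filter.mpr ⟨hP'.1, hb⟩, hP'.2⟩)
  have htot : (S.powerset.filter (fun P => ∀ j, |∑ i ∈ g j, SGN_sg d P i| ≤ h)).card + A.card =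
      2 ^ S.card := by
    rw [← Finset.card_powerset, hA]
    exact Finset.card_filter_add_card_filter_not _
  omega

open Classical in
/-- The proportion of the sets with all group sums small. -/
lemma SGN_bad (hPZ : Stmt_PZ) (hIND : Stmt_IND) {ι : Type} [DecidableEq ι] (S : Finset ι)
    (d : ι → ℝ) (h : ℝ) (hh : 0 < h)
    (g : Fin 13 → Finset ι) (hg : ∀ j, g j ⊆ S) (hdis : ∀ j l, j ≠ l → Disjoint (g j) (g l))
    (hen : ∀ j, 4 * h ^ 2 ≤ ∑ i ∈ g j, d i ^ 2) :
    ((S.powerset.filter (fun P => ∀ j, |∑ i ∈ g j, SGN_sg d P i| ≤ h)).card : ℝ) ≤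
      (13 / 16) ^ 13 * (2 : ℝ) ^ S.card := by
  have h1 := hIND ι S 13 g (fun j A => |∑ i ∈ A, d i - ∑ i ∈ g j \ A, d i| ≤ h) hg hdis
  have h2 : (S.powerset.filter (fun P => ∀ j, |∑ i ∈ g j, SGN_sg d P i| ≤ h)) =
      (S.powerset.filter (fun P => ∀ j,
        |∑ i ∈ P ∩ g j, d i - ∑ i ∈ g j \ (P ∩ g j), d i| ≤ h)) := by
    refine Finset.filter_congr (fun P _ => ?_)
    refine forall_congr' (fun j => ?_)
    rw [SGN_sum_inter]
  have h3 : ∀ j, (((g j).powerset.filter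
      (fun A => |∑ i ∈ A, d i - ∑ i ∈ g j \ A, d i| ≤ h)).card : ℝ) ≤
        13 / 16 * (2 : ℝ) ^ (g j).card := by
    intro j
    have h4 := hPZ ι (g j) d h hh.le
      (lt_of_lt_of_le (by positivity) (hen j)) (hen j)
    have h5 : (((g j).powerset.filter
        (fun A => |∑ i ∈ A, d i - ∑ i ∈ g j \ A, d i| ≤ h)).card : ℝ) +
        (((g j).powerset.filter
        (fun A => h < |∑ i ∈ A, d i - ∑ i ∈ g j \ A, d i|)).card : ℝ) =
          (2 : ℝ) ^ (g j).card := by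
      have h6 := Finset.card_filter_add_card_filter_not (s := (g j).powerset)
        (fun A => |∑ i ∈ A, d i - ∑ i ∈ g j \ A, d i| ≤ h)
      simp only [not_le] at h6
      rw [Finset.card_powerset] at h6
      exact_mod_cast h6
    linarith
  rw [h2]
  have hpos : (0 : ℝ) < ∏ j, (2 : ℝ) ^ (g j).card := Finset.prod_pos (fun j _ => by positivity)
  have h7 : ∏ j, (((g j).powerset.filter
      (fun A => |∑ i ∈ A, d i - ∑ i ∈ g j \ A, d i| ≤ h)).card : ℝ) ≤
        (13 / 16) ^ 13 * ∏ j, (2 : ℝ) ^ (g j).card := by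
    refine le_trans (Finset.prod_le_prod (fun j _ => Nat.cast_nonneg _) (fun j _ => h3 j)) ?_
    rw [Finset.prod_mul_distrib, Finset.prod_const, Finset.card_univ, Fintype.card_fin]
  have h8 : (2 : ℝ) ^ S.card * ∏ j, (((g j).powerset.filter
      (fun A => |∑ i ∈ A, d i - ∑ i ∈ g j \ A, d i| ≤ h)).card : ℝ) ≤
      (2 : ℝ) ^ S.card * ((13 / 16) ^ 13 * ∏ j, (2 : ℝ) ^ (g j).card) :=
    mul_le_mul_of_nonneg_left h7 (by positivity)
  rw [← h1] at h8
  refine le_of_mul_le_mul_right ?_ hpos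
  calc _ ≤ (2 : ℝ) ^ S.card * ((13 / 16) ^ 13 * ∏ j, (2 : ℝ) ^ (g j).card) := h8
    _ = (13 / 16) ^ 13 * (2 : ℝ) ^ S.card * ∏ j, (2 : ℝ) ^ (g j).card := by ring

theorem p_SGN : Stmt_PZ → Stmt_GRP → Stmt_IND → Stmt_SGN := by
  classical
  intro hPZ hGRP hIND ι _ S d h hh hpos hen
  by_cases hbig : ∃ i ∈ S, h < |d i|
  · obtain ⟨i, hi, hd⟩ := hbig
    have h1 := SGN_one S d h i hi hd
    have h2 : (2 : ℝ) * ((S.powerset.filter
        (fun P => |∑ i ∈ P, d i - ∑ i ∈ S \ P, d i| ≤ h)).card : ℝ) ≤ (2 : ℝ) ^ S.card := by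
      exact_mod_cast h1
    have h3 : (0 : ℝ) < (2 : ℝ) ^ S.card := by positivity
    linarith
  · push_neg at hbig
    have hh0 : 0 < h := by
      rcases hh.lt_or_eq with h1 | h1
      · exact h1
      · exfalso
        have h2 : ∑ i ∈ S, d i ^ 2 = 0 := by
          refine Finset.sum_eq_zero (fun i hi => ?_)
          have h3 := hbig i hi
          rw [← h1] at h3
          have h4 : d i = 0 := abs_nonpos_iff.mp h3
          rw [h4]
          norm_num
        exact absurd h2 (ne_of_gt hpos)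
    obtain ⟨g, hg, hdis, hgen⟩ := hGRP ι S d h hh0 hbig hen
    have h1 := SGN_groups S d h g hg hdis
    have h2 := SGN_bad hPZ hIND S d h hh0 g hg hdis hgen
    have h3 : (2 : ℝ) * ((S.powerset.filter
        (fun P => |∑ i ∈ P, d i - ∑ i ∈ S \ P, d i| ≤ h)).card : ℝ) ≤
        (2 : ℝ) ^ S.card +
        ((S.powerset.filter (fun P => ∀ j, |∑ i ∈ g j, SGN_sg d P i| ≤ h)).card : ℝ) := by
      exact_mod_cast h1
    have h4 : (0 : ℝ) < (2 : ℝ) ^ S.card := by positivity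
    have h5 : ((13 : ℝ) / 16) ^ 13 ≤ 68 / 1000 := by norm_num
    have h6 : ((13 : ℝ) / 16) ^ 13 * (2 : ℝ) ^ S.card ≤ 68 / 1000 * (2 : ℝ) ^ S.card :=
      mul_le_mul_of_nonneg_right h5 h4.le
    linarith

end Pool.MMq
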