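import Pool.Agent.Work.MP_9999b5_mq.Interface2

set_option autoImplicit false

/-!
Block SUM: the sum of the numbers of positive blocks.
-/

namespace Pool.MMq

open Finset Pool.MM15 Pool.Agent.Work.MaxSums

lemma SUM_cnt_mono {n : ℕ} {P Q : Equiv.Perm (Fin n) → Prop} (h : ∀ s, P s → Q s) :
    cnt P ≤ cnt Q := by
  unfold cnt
  refine Nat.cast_le.mpr (Finset.card_le_card ?_)
  intro s hs
  simp only [Finset.mem_filter, Finset.mem_univ, true_and] at hs ⊢
  exact h s hs

lemma SUM_cnt_nonneg {n : ℕ} (P : Equiv.Perm (Fin n) → Prop) : 0 ≤ cnt P := by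
  unfold cnt
  positivity

lemma SUM_cnt_le {n : ℕ} (P : Equiv.Perm (Fin n) → Prop) : cnt P ≤ (n.factorial : ℝ) := by
  unfold cnt
  refine Nat.cast_le.mpr ((Finset.card_le_univ _).trans_eq ?_)
  rw [Fintype.card_perm, Fintype.card_fin]

lemma SUM_ge {n : ℕ} (J : Equiv.Perm (Fin n) → ℕ) :
    (n.factorial : ℝ) - cnt (fun s => J s = 0) + cnt (fun s => 2 ≤ J s) ≤ ∑ s, (J s : ℝ) := by
  classical
  have h1 : (n.factorial : ℝ) = ∑ _s : Equiv.Perm (Fin n), (1 : ℝ) := by
    simp [Fintype.card_perm]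
  have h2 : ∀ P : Equiv.Perm (Fin n) → Prop, cnt P = ∑ s, (if P s then (1 : ℝ) else 0) := by
    intro P
    unfold cnt
    rw [Finset.sum_boole]
  rw [h1, h2, h2, ← Finset.sum_sub_distrib, ← Finset.sum_add_distrib]
  refine Finset.sum_le_sum fun s _ => ?_
  rcases Nat.lt_or_ge (J s) 2 with h | h
  · have h3 : J s = 0 ∨ J s = 1 := by omega
    rcases h3 with h3 | h3 <;> rw [h3] <;> norm_num
  · have h0 : ¬ J s = 0 := by omega
    rw [if_neg h0, if_pos h]
    have : (2 : ℝ) ≤ (J s : ℝ) := by exact_mod_cast h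
    linarith

theorem p_SUM : Stmt_N2 → Stmt_RGH → Stmt_YY → Stmt_N3 → Stmt_SUM := by
  intro hN2 hRGH hYY hN3 k T N x a hk hT hS
  have M0 : (0 : ℝ) < (N.factorial : ℝ) := by exact_mod_cast Nat.factorial_pos N
  have P0 : 0 ≤ p0 x a k := SUM_cnt_nonneg _
  have PP : 0 ≤ pp x a k := SUM_cnt_nonneg _
  have L0 : 0 ≤ lam x a k := SUM_cnt_nonneg _
  have L1 : lam x a k ≤ (N.factorial : ℝ) := SUM_cnt_le _
  have hk0 : (0 : ℝ) < k := by exact_mod_cast (by omega : 0 < k)
  have hTk : (100000000000 : ℝ) * T ≤ k := by exact_mod_cast hT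
  have C2 : cnt (fun s => jj x a k s = 2) ≤ pp x a k :=
    SUM_cnt_mono fun s (h : jj x a k s = 2) => h.symm.le
  have hL : lam x a k ≤ 1000000 * (p0 x a k + pp x a k) := by
    rcases le_total (1000000 * (p0 x a k + pp x a k)) (N.factorial : ℝ) with h | h
    · have h2 := hN3 k T N x a hk (by omega) hS h
      have h1 := hN2 k T N x a hS
      have h3 : lam x a k * (2 * lam x a k) ≤ lam x a k * (N.factorial : ℝ) :=
        mul_le_mul_of_nonneg_left h2 L0
      have h4 : (lam x a k / 6) * (N.factorial : ℝ) ≤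
          (p0 x a k + pp x a k) * (N.factorial : ℝ) := by nlinarith
      have h5 := le_of_mul_le_mul_right h4 M0
      linarith
    · exact L1.trans h
  have h1 := hRGH k T N x a hk hS
  have h2 := hYY k T N x a hS
  set Q := cnt (fun s => jj x a k s = 0 ∧
    ∑ p ∈ blk N k 0, x (s p) ^ 2 ≤ 150 * sm x (rk N k) s ^ 2) with hQ
  have h3 : (k : ℝ) * Q ≤ (k : ℝ) * (7 / 1000 * (p0 x a k + pp x a k)) := by
    have hT0 : (0 : ℝ) ≤ T := Nat.cast_nonneg T
    have h4 : 700 * (T : ℝ) * lam x a k ≤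
        700 * T * (1000000 * (p0 x a k + pp x a k)) := by gcongr
    have h5 : (100000000000 * (T : ℝ)) * (p0 x a k + pp x a k) ≤
        k * (p0 x a k + pp x a k) := mul_le_mul_of_nonneg_right hTk (by linarith)
    nlinarith
  have h6 := le_of_mul_le_mul_left h3 hk0
  have h7 : p0 x a k ≤ pp x a k := by linarith
  have h8 : (N.factorial : ℝ) - p0 x a k + pp x a k ≤ ∑ s, (jj x a k s : ℝ) :=
    SUM_ge (fun s => jj x a k s)
  linarith

end Pool.MMq
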