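import Pool.Agent.Work.MP_9999b5_mq.Interface2
import Pool.Agent.Work.MP_9999b5_mq.ORB

set_option autoImplicit false

/-! Block SWP (helper49): exchange of an element with the largest number. -/

namespace Pool.MMq

open Finset Pool.MM15 Pool.Agent.Work.MaxSums

open Classical in
/-- indicator -/
noncomputable def SWP_i (P : Prop) : ℝ := if P then (1 : ℝ) else 0

lemma SWP_pos {P : Prop} (h : P) : SWP_i P = 1 := by
  unfold SWP_i
  rw [if_pos h]

lemma SWP_neg {P : Prop} (h : ¬ P) : SWP_i P = 0 := by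
  unfold SWP_i
  rw [if_neg h]

lemma SWP_nonneg (P : Prop) : 0 ≤ SWP_i P := by
  unfold SWP_i
  split_ifs <;> norm_num

lemma SWP_le_one (P : Prop) : SWP_i P ≤ 1 := by
  unfold SWP_i
  split_ifs <;> norm_num

lemma SWP_mono {P Q : Prop} (h : P → Q) : SWP_i P ≤ SWP_i Q := by
  by_cases hP : P
  · rw [SWP_pos hP, SWP_pos (h hP)]
  · rw [SWP_neg hP]
    exact SWP_nonneg Q

lemma SWP_cnt {N : ℕ} (P : Equiv.Perm (Fin N) → Prop) :
    cnt P = ∑ s : Equiv.Perm (Fin N), SWP_i (P s) := by
  unfold cnt SWP_i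
  rw [← Finset.sum_filter, Finset.sum_const, nsmul_eq_mul, mul_one]

lemma SWP_mem {N : ℕ} (I : Finset (Fin N)) (s : Equiv.Perm (Fin N)) (b : Fin N) :
    b ∈ im I s ↔ s.symm b ∈ I := by
  unfold im
  rw [Finset.mem_map]
  constructor
  · rintro ⟨p, hp, h⟩
    have h' : s p = b := h
    rw [← h']
    simpa using hp
  · intro h
    exact ⟨s.symm b, h, by simp⟩

lemma SWP_split {N : ℕ} (P : Equiv.Perm (Fin N) → Prop) (I : Finset (Fin N)) (b : Fin N) :
    cnt (fun s => P s ∧ b ∈ im I s) = ∑ p ∈ I, cnt (fun s => P s ∧ s p = b) := by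
  rw [SWP_cnt, Finset.sum_congr rfl (fun p _ => SWP_cnt (fun s => P s ∧ s p = b)),
    Finset.sum_comm]
  refine Finset.sum_congr rfl fun s _ => ?_
  by_cases h : P s ∧ b ∈ im I s
  · rw [SWP_pos h, Finset.sum_eq_single (s.symm b)]
    · exact (SWP_pos ⟨h.1, by simp⟩).symm
    · intro q _ hq
      refine SWP_neg fun h' => hq ?_
      rw [← h'.2]
      simp
    · intro h'
      exact absurd ((SWP_mem I s b).1 h.2) h'
  · rw [SWP_neg h, Finset.sum_eq_zero]
    intro q hq
    refine SWP_neg fun h' => h ⟨h'.1, (SWP_mem I s b).2 ?_⟩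
    rw [← h'.2]
    simpa using hq

/-- Every `k`-subset counted by `ba` gives two `k`-subsets counted by `bb` for `{b} ∪ W`. -/
theorem SWP_two {α : Type} (W U : Finset α) (x : α → ℝ) (a : ℝ) (k : ℕ) (b : α)
    (hk : 1 ≤ k) (hW : W.card = 2 * k - 1) (hb : b ∉ W) (hab : x b ≤ a)
    (hU : ∀ i, i ∈ U ↔ i = b ∨ i ∈ W) :
    2 * ba x a W k ≤ bb x U k := by
  classical
  have hUe : U = insert b W := by
    ext i
    rw [hU i, mem_insert]
  rw [hUe]
  unfold ba bb
  set F := (W.powersetCard k).filter (fun B => ∑ i ∈ B, x i ≤ 0 ∧ a + ∑ i ∈ W \ B, x i ≤ 0) with hF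
  set G := ((insert b W).powersetCard k).filter (fun B : Finset α =>
    ∑ i ∈ B, x i ≤ 0 ∧ ∑ i ∈ (insert b W) \ B, x i ≤ 0) with hG
  have hFm : ∀ B ∈ F, B ⊆ W ∧ B.card = k ∧ ∑ i ∈ B, x i ≤ 0 ∧ a + ∑ i ∈ W \ B, x i ≤ 0 := by
    intro B hB
    rw [hF, mem_filter, mem_powersetCard] at hB
    exact ⟨hB.1.1, hB.1.2, hB.2.1, hB.2.2⟩
  have e1 : ∀ B ⊆ W, (insert b W) \ B = insert b (W \ B) := by
    intro B hB
    exact insert_sdiff_of_notMem W (fun h => hb (hB h))
  have e2 : ∀ B ⊆ W, (insert b W) \ (insert b (W \ B)) = B := by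
    intro B hB
    ext i
    simp only [mem_sdiff, mem_insert]
    constructor
    · rintro ⟨h1, h2⟩
      push Not at h2
      rcases h1 with h1 | h1
      · exact absurd h1 h2.1
      · exact h2.2 h1
    · intro h1
      refine ⟨Or.inr (hB h1), ?_⟩
      rintro (h2 | h2)
      · exact hb (h2 ▸ hB h1)
      · exact h2.2 h1
  have s2 : ∀ B ⊆ W, ∑ i ∈ insert b (W \ B), x i = x b + ∑ i ∈ W \ B, x i := by
    intro B _
    exact sum_insert (fun h => hb (mem_sdiff.1 h).1)
  have m1 : ∀ B ∈ F, B ∈ G := by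
    intro B hB
    obtain ⟨h1, h2, h3, h4⟩ := hFm B hB
    rw [hG, mem_filter, mem_powersetCard]
    refine ⟨⟨h1.trans (subset_insert b W), h2⟩, h3, ?_⟩
    rw [e1 B h1, s2 B h1]
    linarith
  have m2 : ∀ B ∈ F, insert b (W \ B) ∈ G := by
    intro B hB
    obtain ⟨h1, h2, h3, h4⟩ := hFm B hB
    rw [hG, mem_filter, mem_powersetCard]
    refine ⟨⟨insert_subset_insert b sdiff_subset, ?_⟩, ?_, ?_⟩
    · rw [card_insert_of_notMem (fun h => hb (mem_sdiff.1 h).1), card_sdiff_of_subset h1, hW, h2]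
      omega
    · rw [s2 B h1]
      linarith
    · rw [e2 B h1]
      exact h3
  have hd : Disjoint F (F.image (fun B => insert b (W \ B))) := by
    rw [disjoint_left]
    intro P h1 h2
    rw [mem_image] at h2
    obtain ⟨C, _, hC⟩ := h2
    have h3 : b ∈ P := hC ▸ mem_insert_self b _
    exact hb ((hFm P h1).1 h3)
  have hs : F ∪ (F.image (fun B => insert b (W \ B))) ⊆ G := by
    intro P hP
    rw [mem_union, mem_image] at hP
    rcases hP with h | ⟨B, hB, rfl⟩
    · exact m1 P h
    · exact m2 B hB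
  have c2 : (F.image (fun B => insert b (W \ B))).card = F.card := by
    apply card_image_of_injOn
    intro B hB C hC h
    have hB' := (hFm B hB).1
    have hC' := (hFm C hC).1
    have h' : insert b (W \ B) = insert b (W \ C) := h
    have h2 := e2 B hB'
    rw [h', e2 C hC'] at h2
    exact h2.symm
  have h := card_le_card hs
  rw [card_union_of_disjoint hd, c2] at h
  have h' : ((F.card + F.card : ℕ) : ℝ) ≤ (G.card : ℝ) := by exact_mod_cast h
  push_cast at h'
  have hF' : (F.card : ℝ) = (((W.powersetCard k).filter (fun B => ∑ i ∈ B, x i ≤ 0 ∧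
      a + ∑ i ∈ (@sdiff (Finset α) (@instSDiff α fun a b => Classical.propDecidable (a = b)) W B),
        x i ≤ 0)).card : ℝ) := by
    rw [hF]
  have hG' : (G.card : ℝ) = ((((insert b W).powersetCard k).filter (fun B => ∑ i ∈ B, x i ≤ 0 ∧
      ∑ i ∈ (@sdiff (Finset α) (@instSDiff α fun a b => Classical.propDecidable (a = b))
        (insert b W) B), x i ≤ 0)).card : ℝ) := by
    rw [hG]
  have h9 : 2 * (F.card : ℝ) ≤ (G.card : ℝ) := by linarith
  rw [hF', hG'] at h9
  convert h9

theorem p_SWP : Stmt_SWP := by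
  classical
  intro k T N x a η b hS
  obtain ⟨h2, hN, hT, hinj, hlt, hsum⟩ := hS
  have c0 : (blk N k 0).card = k := by
    unfold blk
    rw [ORB_card_iv N _ _ (by omega)]
    omega
  have c1 : (blk N k 1).card = k := by
    unfold blk
    rw [ORB_card_iv N _ _ (by omega)]
    omega
  have c2 : (blk N k 2).card = k := by
    unfold blk
    rw [ORB_card_iv N _ _ (by omega)]
    omega
  have cr : (ra N k).card = k - 1 := by
    unfold ra
    rw [ORB_card_iv N _ _ (by omega)]
    omega
  have d0r : Disjoint (blk N k 0) (ra N k) := ORB_disj N _ _ _ _ (Or.inl (by omega))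
  have d12 : Disjoint (blk N k 1) (blk N k 2) := ORB_disj N _ _ _ _ (Or.inl (by omega))
  have d01 : Disjoint (blk N k 0) (blk N k 1) := ORB_disj N _ _ _ _ (Or.inl (by omega))
  have d02 : Disjoint (blk N k 0) (blk N k 2) := ORB_disj N _ _ _ _ (Or.inl (by omega))
  have dr1 : Disjoint (ra N k) (blk N k 1) := ORB_disj N _ _ _ _ (Or.inr (by omega))
  have dr2 : Disjoint (ra N k) (blk N k 2) := ORB_disj N _ _ _ _ (Or.inr (by omega))
  set A := blk N k 0 ∪ ra N k with hA
  set B := blk N k 1 ∪ blk N k 2 with hB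
  have cA : A.card = 2 * k - 1 := by
    rw [hA, card_union_of_disjoint d0r, c0, cr]
    omega
  have cB : B.card = 2 * k := by
    rw [hB, card_union_of_disjoint d12, c1, c2]
    omega
  have dAB : Disjoint A B := by
    rw [hA, hB, disjoint_union_left, disjoint_union_right, disjoint_union_right]
    exact ⟨⟨d01, d02⟩, dr1, dr2⟩
  have hall : ∀ p : Fin N, p ∈ A ∨ p ∈ B ∨ p ∈ rk N k := by
    intro p
    have hp := p.2
    simp only [hA, hB, blk, ra, rk, iv, mem_union, mem_filter, mem_univ, true_and]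
    omega
  -- first step: the three positions of `b`
  have step1 : cnt (fun s => 1 - η ≤ b1 x a k s) ≤
      cnt (fun s => 1 - η ≤ b1 x a k s ∧ b ∈ im A s) +
      cnt (fun s => 1 - η ≤ b1 x a k s ∧ b ∈ im B s) + cnt (fun s => b ∈ im (rk N k) s) := by
    rw [SWP_cnt, SWP_cnt, SWP_cnt, SWP_cnt, ← Finset.sum_add_distrib, ← Finset.sum_add_distrib]
    refine Finset.sum_le_sum fun s _ => ?_
    by_cases h : 1 - η ≤ b1 x a k s
    · rw [SWP_pos h]
      have n1 := SWP_nonneg (1 - η ≤ b1 x a k s ∧ b ∈ im A s)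
      have n2 := SWP_nonneg (1 - η ≤ b1 x a k s ∧ b ∈ im B s)
      have n3 := SWP_nonneg (b ∈ im (rk N k) s)
      rcases hall (s.symm b) with h' | h' | h'
      · rw [SWP_pos (P := 1 - η ≤ b1 x a k s ∧ b ∈ im A s) ⟨h, (SWP_mem A s b).2 h'⟩]
        linarith
      · rw [SWP_pos (P := 1 - η ≤ b1 x a k s ∧ b ∈ im B s) ⟨h, (SWP_mem B s b).2 h'⟩]
        linarith
      · rw [SWP_pos (P := b ∈ im (rk N k) s) ((SWP_mem _ s b).2 h')]
        linarith
    · rw [SWP_neg h]
      have n1 := SWP_nonneg (1 - η ≤ b1 x a k s ∧ b ∈ im A s)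
      have n2 := SWP_nonneg (1 - η ≤ b1 x a k s ∧ b ∈ im B s)
      have n3 := SWP_nonneg (b ∈ im (rk N k) s)
      linarith
  -- second step: the exchange
  have hch : ((2 * k).choose k : ℝ) = 2 * ((2 * k - 1).choose k : ℝ) := by
    obtain ⟨m, rfl⟩ : ∃ m, k = m + 1 := ⟨k - 1, by omega⟩
    have h2 : 2 * (m + 1) - 1 = 2 * m + 1 := by omega
    rw [h2]
    have h3 : (2 * (m + 1)).choose (m + 1) = (2 * m + 1).choose m + (2 * m + 1).choose (m + 1) := by
      rw [show 2 * (m + 1) = (2 * m + 1) + 1 by ring, Nat.choose_succ_succ]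
    have h4 : (2 * m + 1).choose m = (2 * m + 1).choose (m + 1) := by
      apply Nat.choose_symm_of_eq_add
      omega
    rw [h3, h4]
    push_cast
    ring
  have step2 : cnt (fun s => 1 - η ≤ b1 x a k s ∧ b ∈ im B s) ≤
      cnt (fun s => 1 - η ≤ b2 x k s ∧ b ∈ im B s) := by
    rw [SWP_split, SWP_split]
    refine Finset.sum_le_sum fun p hp => ?_
    have hpA : p ∉ A := fun h => (disjoint_left.1 dAB) h hp
    obtain ⟨π, g1, g2, g3⟩ := ORB_perm (A ∪ B.erase p) (B.erase p) A subset_union_right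
      subset_union_left (by rw [card_erase_of_mem hp, cB, cA])
    have gp : π p = p := g3 p (by
      rw [mem_union]
      rintro (h | h)
      · exact hpA h
      · exact (notMem_erase p B) h)
    have gB : B.map π.toEmbedding = insert p A := by
      conv_lhs => rw [← insert_erase hp]
      rw [map_insert, g1]
      congr 1
    rw [SWP_cnt, SWP_cnt]
    rw [← Equiv.sum_comp (Equiv.mulRight π)
      (fun s : Equiv.Perm (Fin N) => SWP_i (1 - η ≤ b2 x k s ∧ s p = b))]
    refine Finset.sum_le_sum fun s _ => ?_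
    refine SWP_mono ?_
    rintro ⟨h1, h3⟩
    have h4 : (Equiv.mulRight π s : Equiv.Perm (Fin N)) p = b := by
      simp [Equiv.Perm.mul_apply, gp, h3]
    refine ⟨?_, h4⟩
    refine h1.trans ?_
    have h5 : im B (Equiv.mulRight π s) = insert b (im A s) := by
      have : (Equiv.mulRight π s : Equiv.Perm (Fin N)) = s * π := rfl
      rw [this, ORB_im_mul, gB]
      unfold im
      rw [map_insert]
      congr 1
    have hbW : b ∉ im A s := by
      rw [SWP_mem]
      intro h
      rw [← h3] at h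
      simp only [Equiv.symm_apply_apply] at h
      exact hpA h
    have hWc : (im A s).card = 2 * k - 1 := by
      unfold im
      rw [card_map, cA]
    have h6 := SWP_two (im A s) (insert b (im A s)) x a k b (by omega) hWc hbW (hlt b).le
      (fun i => mem_insert)
    have hc : (0 : ℝ) < ((2 * k - 1).choose k : ℝ) := by
      exact_mod_cast Nat.choose_pos (by omega)
    show b1 x a k s ≤ b2 x k (Equiv.mulRight π s)
    unfold b1 b2
    rw [← hA, ← hB, h5, hch, div_le_div_iff₀ hc (by positivity)]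
    nlinarith [h6, hc]
  linarith [step1, step2]

end Pool.MMq
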