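import Pool.Agent.Work.MP_9999b5_mq.Interface

set_option autoImplicit false

/-!
# Block UNI: a random matching with random signs gives a uniform half
-/

namespace Pool.MMq

open Finset Pool.MM15

lemma UNI_const {α : Type} [Fintype α] [DecidableEq α] (I B B' : Finset α) (h : B.card = B'.card) :
    (univ.filter (fun s : Equiv.Perm α => I.image s = B)).card =
      (univ.filter (fun s : Equiv.Perm α => I.image s = B')).card := by
  let e : {x // x ∈ B} ≃ {x // x ∈ B'} := Finset.equivOfCardEq h
  let τ : Equiv.Perm α := e.extendSubtype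
  have hτ : B.image τ = B' := by
    refine Finset.eq_of_subset_of_card_le ?_ ?_
    · intro y hy
      obtain ⟨x, hx, rfl⟩ := Finset.mem_image.1 hy
      exact Equiv.extendSubtype_mem e x hx
    · rw [Finset.card_image_of_injective _ τ.injective, h]
  have hτ' : B'.image (τ⁻¹ : Equiv.Perm α) = B := by
    rw [← hτ, Finset.image_image]
    have h1 : (⇑(τ⁻¹ : Equiv.Perm α) ∘ ⇑τ) = id := by
      ext x
      simp
    rw [h1, Finset.image_id]
  refine Finset.card_bij' (fun s _ => τ * s) (fun s _ => τ⁻¹ * s) ?_ ?_ ?_ ?_
  · intro s hs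
    rw [Finset.mem_filter] at hs ⊢
    refine ⟨Finset.mem_univ _, ?_⟩
    rw [Equiv.Perm.coe_mul, ← Finset.image_image, hs.2, hτ]
  · intro s hs
    rw [Finset.mem_filter] at hs ⊢
    refine ⟨Finset.mem_univ _, ?_⟩
    rw [Equiv.Perm.coe_mul, ← Finset.image_image, hs.2, hτ']
  · intro s _
    simp
  · intro s _
    simp

lemma UNI_card {α : Type} [Fintype α] [DecidableEq α] (k : ℕ) (hα : Fintype.card α = 2 * k) (I B : Finset α)
    (hI : I.card = k) (hB : B.card = k) :
    (univ.filter (fun s : Equiv.Perm α => I.image s = B)).card = k.factorial ^ 2 := by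
  have h1 : ∑ B' ∈ (univ : Finset α).powersetCard k,
      (univ.filter (fun s : Equiv.Perm α => I.image s = B')).card =
      (univ : Finset (Equiv.Perm α)).card := by
    symm
    refine Finset.card_eq_sum_card_fiberwise ?_
    intro s _
    rw [Finset.mem_coe, Finset.mem_powersetCard]
    exact ⟨Finset.subset_univ _, by rw [Finset.card_image_of_injective _ s.injective, hI]⟩
  rw [Finset.sum_congr rfl (fun B' hB' => UNI_const I B' B (by
    rw [(Finset.mem_powersetCard.1 hB').2, hB])), Finset.sum_const, Finset.card_powersetCard,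
    Finset.card_univ, hα, Finset.card_univ, Fintype.card_perm, hα, smul_eq_mul] at h1
  have h2 := Nat.choose_mul_factorial_mul_factorial (show k ≤ 2 * k by omega)
  have h3 : 2 * k - k = k := by omega
  rw [h3] at h2
  have h4 : 0 < (2 * k).choose k := Nat.choose_pos (by omega)
  refine Nat.eq_of_mul_eq_mul_left h4 ?_
  rw [h1, ← h2]
  ring

theorem p_UNI : Stmt_UNI := by
  intro k P Φ
  set I : Finset (Fin k × Bool) := univ.image (fun i : Fin k => (i, decide (i ∈ P))) with hI
  have hIc : I.card = k := by
    rw [hI, Finset.card_image_of_injective _ (fun i j hij => (Prod.ext_iff.1 hij).1)]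
    simp
  have h0 : ∀ s : Equiv.Perm (Fin k × Bool),
      univ.image (fun i : Fin k => s (i, decide (i ∈ P))) = I.image s := by
    intro s
    rw [hI, Finset.image_image]
    rfl
  have h1 : ∑ s : Equiv.Perm (Fin k × Bool),
      Φ (univ.image (fun i : Fin k => s (i, decide (i ∈ P)))) =
      ∑ B ∈ (univ : Finset (Fin k × Bool)).powersetCard k,
        ∑ s ∈ univ.filter (fun s : Equiv.Perm (Fin k × Bool) => I.image s = B), Φ (I.image s) := by
    rw [Finset.sum_fiberwise_of_maps_to]
    · refine Finset.sum_congr rfl ?_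
      intro s _
      rw [h0]
    · intro s _
      rw [Finset.mem_powersetCard]
      exact ⟨Finset.subset_univ _, by rw [Finset.card_image_of_injective _ s.injective, hIc]⟩
  rw [h1, Finset.mul_sum]
  refine Finset.sum_congr rfl ?_
  intro B hB
  have h2 : ∑ s ∈ univ.filter (fun s : Equiv.Perm (Fin k × Bool) => I.image s = B),
      Φ (I.image s) = ∑ s ∈ univ.filter (fun s : Equiv.Perm (Fin k × Bool) => I.image s = B),
      Φ B := by
    refine Finset.sum_congr rfl ?_
    intro s hs
    rw [(Finset.mem_filter.1 hs).2]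
  rw [h2, Finset.sum_const, UNI_card k (by simp; ring) I B hIc
    (Finset.mem_powersetCard.1 hB).2, nsmul_eq_mul]
  push_cast
  ring

end Pool.MMq
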