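import Pool.Agent.Work.MP_9999b5_mq.Interface
import Pool.Agent.Work.MP_9999b5_ms_helper46.SumLin
import Pool.Agent.Work.MP_9999b5_ms_helper83.SumSq
import Pool.Agent.Work.MP_9999b5_ms_helper74.Cheb

set_option autoImplicit false

namespace Pool.MMq

open Finset Pool.MM15

/-- Markov for the energy of a random `T`-subset. -/
theorem YL_markov (α : Type) [DecidableEq α] (Y : Finset α) (x : α → ℝ) (T : ℕ) (e : ℝ)
    (he : e = ∑ i ∈ Y, x i ^ 2) :
    (Y.card : ℝ) * ((((Y.powersetCard T).filter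
        (fun K => e / 2 ≤ ∑ i ∈ K, x i ^ 2)).card : ℝ) * (e / 2)) ≤
      (T : ℝ) * (Y.card.choose T : ℝ) * e := by
  have hL := Pool.Agent.Work.MaxSums.helper46SumLin.holds α Y T (fun i => x i ^ 2)
  have h1 : (((Y.powersetCard T).filter
        (fun K => e / 2 ≤ ∑ i ∈ K, x i ^ 2)).card : ℝ) * (e / 2) ≤
      ∑ S ∈ Y.powersetCard T, ∑ i ∈ S, x i ^ 2 := by
    calc (((Y.powersetCard T).filter
        (fun K => e / 2 ≤ ∑ i ∈ K, x i ^ 2)).card : ℝ) * (e / 2)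
        = ∑ S ∈ (Y.powersetCard T).filter (fun K => e / 2 ≤ ∑ i ∈ K, x i ^ 2), e / 2 := by
          rw [Finset.sum_const, nsmul_eq_mul]
      _ ≤ ∑ S ∈ (Y.powersetCard T).filter (fun K => e / 2 ≤ ∑ i ∈ K, x i ^ 2),
            ∑ i ∈ S, x i ^ 2 := by
          apply Finset.sum_le_sum
          intro S hS
          exact (Finset.mem_filter.1 hS).2
      _ ≤ ∑ S ∈ Y.powersetCard T, ∑ i ∈ S, x i ^ 2 := by
          apply Finset.sum_le_sum_of_subset_of_nonneg (Finset.filter_subset _ _)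
          intro S _ _
          exact Finset.sum_nonneg (fun i _ => sq_nonneg (x i))
  have h2 := mul_le_mul_of_nonneg_left h1 (Nat.cast_nonneg (α := ℝ) Y.card)
  rw [hL, ← he] at h2
  exact h2

theorem p_YL : Stmt_YL := by
  intro α _ Y x k T hk hT hY ht he
  have hC := Pool.Agent.Work.MaxSums.helper74Cheb.holds
    Pool.Agent.Work.MaxSums.helper46SumLin.holds Pool.Agent.Work.MaxSums.helper83SumSq.holds
  obtain ⟨t, ht'⟩ : ∃ t, t = ∑ i ∈ Y, x i := ⟨_, rfl⟩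
  obtain ⟨e, he'⟩ : ∃ e, e = ∑ i ∈ Y, x i ^ 2 := ⟨_, rfl⟩
  rw [← ht'] at ht ⊢
  rw [← he'] at he
  have hkr : (2 : ℝ) ≤ (k : ℝ) := by exact_mod_cast hk
  have hk0 : (0 : ℝ) < (k : ℝ) := by linarith
  have hTr : (T : ℝ) ≤ (k : ℝ) := by exact_mod_cast hT
  have hT0 : (0 : ℝ) ≤ (T : ℝ) := Nat.cast_nonneg T
  have hn : (0 : ℝ) < (k : ℝ) + T := by linarith
  have hYr : (Y.card : ℝ) = (k : ℝ) + T := by
    rw [hY]
    push_cast
    ring
  have hC0 : (0 : ℝ) ≤ ((k + T).choose T : ℝ) := Nat.cast_nonneg _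
  obtain ⟨w, hw⟩ : ∃ w, w = √(e / 300) := ⟨_, rfl⟩
  have hw0 : 0 < w := by
    rw [hw]
    exact Real.sqrt_pos.2 (by positivity)
  have hw2 : w ^ 2 = e / 300 := by
    rw [hw]
    exact Real.sq_sqrt (by positivity)
  obtain ⟨r, hr⟩ : ∃ r, r = (k : ℝ) / (k + T) * w := ⟨_, rfl⟩
  have hr0 : 0 < r := by
    rw [hr]
    positivity
  obtain ⟨A, hA⟩ : ∃ A, A = (Y.powersetCard T).filter (fun K => e / 2 ≤ ∑ i ∈ K, x i ^ 2) :=
    ⟨_, rfl⟩
  obtain ⟨B, hB⟩ : ∃ B, B = (Y.powersetCard T).filter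
      (fun K => r ≤ |∑ i ∈ K, x i - (T : ℝ) / Y.card * ∑ i ∈ Y, x i|) := ⟨_, rfl⟩
  have hsub : (Y.powersetCard T).filter (fun K => t ≤ ∑ i ∈ K, x i ∧
      ∑ i ∈ Y \ K, x i ^ 2 ≤ 150 * (∑ i ∈ K, x i) ^ 2) ⊆ A ∪ B := by
    intro K hK
    rw [Finset.mem_filter] at hK
    obtain ⟨hK1, hK2, hK3⟩ := hK
    rw [Finset.mem_union, hA, hB, Finset.mem_filter, Finset.mem_filter]
    by_cases h : e / 2 ≤ ∑ i ∈ K, x i ^ 2
    · exact Or.inl ⟨hK1, h⟩
    · right
      refine ⟨hK1, ?_⟩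
      rw [Finset.mem_powersetCard] at hK1
      rw [not_le] at h
      have h3 : ∑ i ∈ Y \ K, x i ^ 2 + ∑ i ∈ K, x i ^ 2 = e := by
        rw [he']
        exact Finset.sum_sdiff hK1.1
      have hs0 : 0 ≤ ∑ i ∈ K, x i := le_trans ht hK2
      have h4 : w ^ 2 ≤ (∑ i ∈ K, x i) ^ 2 := by
        rw [hw2]
        linarith
      have h5 : w ≤ ∑ i ∈ K, x i := by
        rw [← abs_of_pos hw0, ← abs_of_nonneg hs0]
        exact sq_le_sq.1 h4
      rw [← ht', hYr]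
      refine le_trans ?_ (le_abs_self _)
      have h6 : (T : ℝ) / (k + T) * t ≤ (T : ℝ) / (k + T) * ∑ i ∈ K, x i :=
        mul_le_mul_of_nonneg_left hK2 (by positivity)
      have h7 : (k : ℝ) / (k + T) * w ≤ (k : ℝ) / (k + T) * ∑ i ∈ K, x i :=
        mul_le_mul_of_nonneg_left h5 (by positivity)
      have h8 : (k : ℝ) / (k + T) * ∑ i ∈ K, x i + (T : ℝ) / (k + T) * ∑ i ∈ K, x i =
          ∑ i ∈ K, x i := by
        rw [← add_mul, ← add_div, div_self (ne_of_gt hn), one_mul]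
      rw [hr]
      linarith
  have hcard : (((Y.powersetCard T).filter (fun K => t ≤ ∑ i ∈ K, x i ∧
      ∑ i ∈ Y \ K, x i ^ 2 ≤ 150 * (∑ i ∈ K, x i) ^ 2)).card : ℝ) ≤
      (A.card : ℝ) + (B.card : ℝ) := by
    have := le_trans (Finset.card_le_card hsub) (Finset.card_union_le A B)
    exact_mod_cast this
  have hMA : (k : ℝ) * (A.card : ℝ) ≤ 2 * T * ((k + T).choose T : ℝ) := by
    have h1 := YL_markov α Y x T e he'
    rw [← hA, hYr, hY] at h1
    have h2 : ((k : ℝ) + T) * (A.card : ℝ) * (e / 2) ≤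
        (2 * T * ((k + T).choose T : ℝ)) * (e / 2) := by
      calc ((k : ℝ) + T) * (A.card : ℝ) * (e / 2) = ((k : ℝ) + T) * ((A.card : ℝ) * (e / 2)) := by
            ring
        _ ≤ (T : ℝ) * ((k + T).choose T : ℝ) * e := h1
        _ = (2 * T * ((k + T).choose T : ℝ)) * (e / 2) := by ring
    have h3 := le_of_mul_le_mul_right h2 (by linarith)
    have h4 : (k : ℝ) * (A.card : ℝ) ≤ ((k : ℝ) + T) * (A.card : ℝ) :=
      mul_le_mul_of_nonneg_right (by linarith) (Nat.cast_nonneg _)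
    exact le_trans h4 h3
  have hMB : (k : ℝ) * (B.card : ℝ) ≤ 600 * T * ((k + T).choose T : ℝ) := by
    have h1 := hC α Y T x r (by omega) (by omega) hr0
    rw [← hB, ← he', hYr, hY] at h1
    have h2 : r ^ 2 = (k : ℝ) ^ 2 * e / (300 * ((k : ℝ) + T) ^ 2) := by
      rw [hr, mul_pow, hw2]
      field_simp
    rw [h2] at h1
    have h3 : (B.card : ℝ) * ((k : ℝ) ^ 2 * e) ≤
        300 * ((k + T).choose T : ℝ) * T * ((k : ℝ) + T) * e := by
      have h4 := mul_le_mul_of_nonneg_right h1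
        (show (0 : ℝ) ≤ 300 * ((k : ℝ) + T) ^ 2 by positivity)
      have e1 : (B.card : ℝ) * ((k : ℝ) ^ 2 * e / (300 * ((k : ℝ) + T) ^ 2)) *
          (300 * ((k : ℝ) + T) ^ 2) = (B.card : ℝ) * ((k : ℝ) ^ 2 * e) := by
        field_simp
      have e2 : ((k + T).choose T : ℝ) * ((T : ℝ) / ((k : ℝ) + T) * e) *
          (300 * ((k : ℝ) + T) ^ 2) =
          300 * ((k + T).choose T : ℝ) * T * ((k : ℝ) + T) * e := by
        field_simp
      rw [e1, e2] at h4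
      exact h4
    have h5 : 300 * ((k + T).choose T : ℝ) * T * ((k : ℝ) + T) * e ≤
        300 * ((k + T).choose T : ℝ) * T * (2 * (k : ℝ)) * e := by
      apply mul_le_mul_of_nonneg_right _ he.le
      apply mul_le_mul_of_nonneg_left (by linarith)
      positivity
    have h6 : ((k : ℝ) * (B.card : ℝ)) * ((k : ℝ) * e) ≤
        (600 * T * ((k + T).choose T : ℝ)) * ((k : ℝ) * e) := by
      calc ((k : ℝ) * (B.card : ℝ)) * ((k : ℝ) * e) = (B.card : ℝ) * ((k : ℝ) ^ 2 * e) := by ring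
        _ ≤ 300 * ((k + T).choose T : ℝ) * T * (2 * (k : ℝ)) * e := le_trans h3 h5
        _ = (600 * T * ((k + T).choose T : ℝ)) * ((k : ℝ) * e) := by ring
    exact le_of_mul_le_mul_right h6 (by positivity)
  have h9 := mul_le_mul_of_nonneg_left hcard hk0.le
  have h10 : (0 : ℝ) ≤ T * ((k + T).choose T : ℝ) := by positivity
  nlinarith [h9, hMA, hMB, h10]

end Pool.MMq
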