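import Pool.Agent.Work.MP_9999b5_mq.Interface
import Pool.Agent.Work.MP_9999b5_mq.ORB

set_option autoImplicit false

namespace Pool.MMq

open Finset Pool.MM15

open Classical in
theorem YY_cnt_sum {N : ℕ} (P : Equiv.Perm (Fin N) → Prop) :
    cnt P = ∑ s : Equiv.Perm (Fin N), if P s then (1 : ℝ) else 0 := by
  unfold cnt
  rw [← Finset.sum_filter, Finset.sum_const, nsmul_eq_mul, mul_one]

theorem YY_split {N : ℕ} (f : Fin N → ℝ) (a b c : ℕ) (hab : a ≤ b) (hbc : b ≤ c) :
    ∑ p ∈ iv N a c, f p = ∑ p ∈ iv N a b, f p + ∑ p ∈ iv N b c, f p := by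
  rw [← Finset.sum_union (ORB_disj N a b b c (Or.inl le_rfl))]
  apply Finset.sum_congr _ (fun _ _ => rfl)
  ext p
  simp only [iv, Finset.mem_union, Finset.mem_filter, Finset.mem_univ, true_and]
  omega

theorem YY_total {k T N : ℕ} (f : Fin N → ℝ) (h2 : 2 ≤ k) (hN : N + 1 = 4 * k + T) :
    ∑ p, f p = ∑ p ∈ blk N k 0, f p + ∑ p ∈ blk N k 1, f p + ∑ p ∈ blk N k 2, f p +
      ∑ p ∈ ra N k, f p + ∑ p ∈ rk N k, f p := by
  have h0 : ∑ p, f p = ∑ p ∈ iv N 0 N, f p := by
    apply Finset.sum_congr _ (fun _ _ => rfl)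
    ext p
    have := p.2
    simp only [iv, Finset.mem_filter, Finset.mem_univ, true_and]
    constructor
    · intro _
      exact ⟨Nat.zero_le _, this⟩
    · intro _
      trivial
  have e0 : blk N k 0 = iv N 0 k := by
    unfold blk
    rw [Nat.zero_mul, Nat.zero_add, Nat.one_mul]
  have e1 : blk N k 1 = iv N k (2 * k) := by
    unfold blk
    rw [Nat.one_mul]
  have e2 : blk N k 2 = iv N (2 * k) (3 * k) := by
    unfold blk
    rfl
  rw [h0, YY_split f 0 k N (by omega) (by omega), YY_split f k (2 * k) N (by omega) (by omega),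
    YY_split f (2 * k) (3 * k) N (by omega) (by omega),
    YY_split f (3 * k) (4 * k - 1) N (by omega) (by omega), e0, e1, e2]
  unfold ra rk
  ring

theorem YY_sum_im {N : ℕ} (f : Fin N → ℝ) (I : Finset (Fin N)) (s : Equiv.Perm (Fin N)) :
    ∑ i ∈ im I s, f i = ∑ p ∈ I, f (s p) := by
  unfold im
  rw [Finset.sum_map]
  rfl

theorem YY_im_sdiff {N : ℕ} (I J : Finset (Fin N)) (s : Equiv.Perm (Fin N)) (h : Disjoint I J) :
    im (I ∪ J) s \ im J s = im I s := by
  unfold im
  ext y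
  simp only [Finset.mem_sdiff, Finset.mem_map, Finset.mem_union, Equiv.coe_toEmbedding]
  constructor
  · rintro ⟨⟨p, hp, rfl⟩, h2⟩
    rcases hp with hp | hp
    · exact ⟨p, hp, rfl⟩
    · exact absurd ⟨p, hp, rfl⟩ h2
  · rintro ⟨p, hp, rfl⟩
    refine ⟨⟨p, Or.inl hp, rfl⟩, ?_⟩
    rintro ⟨q, hq, hqp⟩
    have := s.injective hqp
    subst this
    exact (Finset.disjoint_left.1 h hp) hq

theorem YY_jj {N : ℕ} (x : Fin N → ℝ) (a : ℝ) (k : ℕ) (s : Equiv.Perm (Fin N))
    (h : jj x a k s = 0) : sa x a k s ≤ 0 ∧ ∀ c < 3, sm x (blk N k c) s ≤ 0 := by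
  unfold jj at h
  have h1 := (Nat.add_eq_zero_iff.1 h).1
  have h2 := (Nat.add_eq_zero_iff.1 h).2
  constructor
  · by_contra hc
    rw [if_pos (not_le.1 hc)] at h1
    omega
  · intro c hc
    by_contra hc2
    unfold nn at h2
    rw [Finset.card_eq_zero] at h2
    have : c ∈ ((Finset.range 3).filter (fun c => 0 < sm x (blk N k c) s)) := by
      rw [Finset.mem_filter]
      exact ⟨Finset.mem_range.2 hc, not_le.1 hc2⟩
    rw [h2] at this
    exact absurd this (Finset.notMem_empty c)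

/-- The property of the rest `K` and the arrangement `s`. -/
def YYG {N : ℕ} (x : Fin N → ℝ) (a : ℝ) (k : ℕ) (P : Finset (Fin N)) (K : Finset (Fin N))
    (s : Equiv.Perm (Fin N)) : Prop :=
  sa x a k s ≤ 0 ∧ 0 ≤ ∑ i ∈ im P s, x i ∧ ∑ i ∈ im P s, x i ≤ ∑ i ∈ K, x i ∧
    ∑ i ∈ im P s \ K, x i ^ 2 ≤ 150 * (∑ i ∈ K, x i) ^ 2

open Classical in
theorem YY_exch {N : ℕ} (x : Fin N → ℝ) (a : ℝ) (k : ℕ) (P A J : Finset (Fin N))
    (hd : Disjoint P (ra N k)) (hA : A ⊆ P) (hJ : J ⊆ P) (h : A.card = J.card) :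
    ∑ s : Equiv.Perm (Fin N), (if YYG x a k P (im A s) s then (1 : ℝ) else 0) =
      ∑ s : Equiv.Perm (Fin N), (if YYG x a k P (im J s) s then (1 : ℝ) else 0) := by
  obtain ⟨π, h1, h2, h3⟩ := ORB_perm P A J hA hJ h
  rw [← Equiv.sum_comp (Equiv.mulRight π)]
  apply Finset.sum_congr rfl
  intro s _
  have e0 : (Equiv.mulRight π) s = s * π := rfl
  rw [e0]
  have e1 : im A (s * π) = im J s := by
    rw [ORB_im_mul, h1]
  have e2 : im P (s * π) = im P s := by
    rw [ORB_im_mul, h2]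
  have e3 : sa x a k (s * π) = sa x a k s := by
    unfold sa sm
    congr 1
    apply Finset.sum_congr rfl
    intro p hp
    have : π p = p := h3 p (fun hx => (Finset.disjoint_left.1 hd hx hp))
    rw [Equiv.Perm.mul_apply, this]
  have e4 : YYG x a k P (im A (s * π)) (s * π) ↔ YYG x a k P (im J s) s := by
    unfold YYG
    rw [e1, e2, e3]
  by_cases hh : YYG x a k P (im J s) s
  · rw [if_pos hh, if_pos (e4.2 hh)]
  · rw [if_neg hh, if_neg (fun hc => hh (e4.1 hc))]

open Classical in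
theorem p_YY : Stmt_YL → Stmt_YY := by
  intro hYL k T N x a hS
  obtain ⟨h2, hN, hT, hinj, hlt, hsum⟩ := hS
  have cA : (rk N k).card = T := by
    unfold rk
    rw [ORB_card_iv N _ _ le_rfl]
    omega
  have e0 : blk N k 0 = iv N 0 k := by
    unfold blk
    rw [Nat.zero_mul, Nat.zero_add, Nat.one_mul]
  have c0 : (blk N k 0).card = k := by
    rw [e0, ORB_card_iv N _ _ (by omega)]
    omega
  have hd : Disjoint (blk N k 0) (rk N k) := by
    rw [e0]
    exact ORB_disj N _ _ _ _ (Or.inl (by omega))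
  have hd2 : Disjoint (blk N k 0 ∪ rk N k) (ra N k) := by
    rw [Finset.disjoint_union_left, e0]
    exact ⟨ORB_disj N _ _ _ _ (Or.inl (by omega)), ORB_disj N _ _ _ _ (Or.inr (by omega))⟩
  have cP : (blk N k 0 ∪ rk N k).card = k + T := by
    rw [Finset.card_union_of_disjoint hd, c0, cA]
  have hAP : rk N k ⊆ blk N k 0 ∪ rk N k := Finset.subset_union_right
  -- step 1
  have s1 : cnt (fun s => jj x a k s = 0 ∧
      ∑ p ∈ blk N k 0, x (s p) ^ 2 ≤ 150 * sm x (rk N k) s ^ 2) ≤
      ∑ s : Equiv.Perm (Fin N),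
        (if YYG x a k (blk N k 0 ∪ rk N k) (im (rk N k) s) s then (1 : ℝ) else 0) := by
    rw [YY_cnt_sum]
    apply Finset.sum_le_sum
    intro s _
    by_cases hh : jj x a k s = 0 ∧
      ∑ p ∈ blk N k 0, x (s p) ^ 2 ≤ 150 * sm x (rk N k) s ^ 2
    · rw [if_pos hh]
      obtain ⟨hj, hq⟩ := hh
      obtain ⟨ha, hb⟩ := YY_jj x a k s hj
      have hb0 := hb 0 (by norm_num)
      have hb1 := hb 1 (by norm_num)
      have hb2 := hb 2 (by norm_num)
      have ht := YY_total (k := k) (T := T) (fun p => x (s p)) h2 hN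
      have ht2 : ∑ p, x (s p) = ∑ i, x i := Equiv.sum_comp s x
      rw [ht2] at ht
      unfold sa at ha
      unfold sm at ha hb0 hb1 hb2
      have hY : ∑ i ∈ im (blk N k 0 ∪ rk N k) s, x i =
          ∑ p ∈ blk N k 0, x (s p) + ∑ p ∈ rk N k, x (s p) := by
        rw [YY_sum_im, Finset.sum_union hd]
      have hG : YYG x a k (blk N k 0 ∪ rk N k) (im (rk N k) s) s := by
        refine ⟨?_, ?_, ?_, ?_⟩
        · unfold sa sm
          exact ha
        · rw [hY]
          linarith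
        · rw [hY, YY_sum_im]
          linarith
        · rw [YY_im_sdiff _ _ s hd, YY_sum_im (fun i => x i ^ 2), YY_sum_im]
          exact hq
      rw [if_pos hG]
    · rw [if_neg hh]
      split_ifs <;> norm_num
  -- step 2
  have s2 : ((k + T).choose T : ℝ) * ∑ s : Equiv.Perm (Fin N),
        (if YYG x a k (blk N k 0 ∪ rk N k) (im (rk N k) s) s then (1 : ℝ) else 0) =
      ∑ s : Equiv.Perm (Fin N), ∑ K ∈ (im (blk N k 0 ∪ rk N k) s).powersetCard T,
        (if YYG x a k (blk N k 0 ∪ rk N k) K s then (1 : ℝ) else 0) := by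
    have hpow : ∀ (s : Equiv.Perm (Fin N)),
        ∑ K ∈ (im (blk N k 0 ∪ rk N k) s).powersetCard T,
          (if YYG x a k (blk N k 0 ∪ rk N k) K s then (1 : ℝ) else 0) =
        ∑ J ∈ (blk N k 0 ∪ rk N k).powersetCard T,
          (if YYG x a k (blk N k 0 ∪ rk N k) (im J s) s then (1 : ℝ) else 0) := by
      intro s
      unfold im
      rw [Finset.powersetCard_map, Finset.sum_map]
      rfl
    rw [Finset.sum_congr rfl (fun s _ => hpow s), Finset.sum_comm]
    have hJs : ∀ J ∈ (blk N k 0 ∪ rk N k).powersetCard T,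
        ∑ s : Equiv.Perm (Fin N),
          (if YYG x a k (blk N k 0 ∪ rk N k) (im J s) s then (1 : ℝ) else 0) =
        ∑ s : Equiv.Perm (Fin N),
          (if YYG x a k (blk N k 0 ∪ rk N k) (im (rk N k) s) s then (1 : ℝ) else 0) := by
      intro J hJ
      rw [Finset.mem_powersetCard] at hJ
      exact (YY_exch x a k _ _ _ hd2 hAP hJ.1 (by rw [cA, hJ.2])).symm
    rw [Finset.sum_congr rfl hJs, Finset.sum_const, Finset.card_powersetCard, cP, nsmul_eq_mul]
  -- step 3
  have s3 : ∀ s : Equiv.Perm (Fin N),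
      (k : ℝ) * ∑ K ∈ (im (blk N k 0 ∪ rk N k) s).powersetCard T,
        (if YYG x a k (blk N k 0 ∪ rk N k) K s then (1 : ℝ) else 0) ≤
      700 * T * ((k + T).choose T : ℝ) * (if sa x a k s ≤ 0 then (1 : ℝ) else 0) := by
    intro s
    by_cases hs : sa x a k s ≤ 0 ∧ 0 ≤ ∑ i ∈ im (blk N k 0 ∪ rk N k) s, x i
    · rw [if_pos hs.1, mul_one]
      have hYc : (im (blk N k 0 ∪ rk N k) s).card = k + T := by
        unfold im
        rw [Finset.card_map, cP]
      have hpos : 0 < ∑ i ∈ im (blk N k 0 ∪ rk N k) s, x i ^ 2 := by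
        have h1c : 1 < (im (blk N k 0 ∪ rk N k) s).card := by
          rw [hYc]
          omega
        obtain ⟨i, hi, j, hj, hij⟩ := Finset.one_lt_card.1 h1c
        have : x i ≠ 0 ∨ x j ≠ 0 := by
          by_contra hc
          rw [not_or, not_not, not_not] at hc
          exact hij (hinj (hc.1.trans hc.2.symm))
        rcases this with hx | hx
        · exact lt_of_lt_of_le (by positivity)
            (Finset.single_le_sum (f := fun i => x i ^ 2) (fun i _ => sq_nonneg (x i)) hi)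
        · exact lt_of_lt_of_le (by positivity)
            (Finset.single_le_sum (f := fun i => x i ^ 2) (fun i _ => sq_nonneg (x i)) hj)
      have hmain := hYL (Fin N) (im (blk N k 0 ∪ rk N k) s) x k T h2 hT hYc hs.2 hpos
      refine le_trans ?_ hmain
      apply mul_le_mul_of_nonneg_left _ (Nat.cast_nonneg k)
      rw [← Finset.sum_filter, Finset.sum_const, nsmul_eq_mul, mul_one]
      apply Nat.cast_le.2
      apply Finset.card_le_card
      intro K hK
      rw [Finset.mem_filter] at hK ⊢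
      exact ⟨hK.1, hK.2.2.2.1, hK.2.2.2.2⟩
    · have hz : ∑ K ∈ (im (blk N k 0 ∪ rk N k) s).powersetCard T,
          (if YYG x a k (blk N k 0 ∪ rk N k) K s then (1 : ℝ) else 0) = 0 := by
        apply Finset.sum_eq_zero
        intro K _
        rw [if_neg]
        intro hc
        exact hs ⟨hc.1, hc.2.1⟩
      rw [hz, mul_zero]
      have : (0 : ℝ) ≤ (if sa x a k s ≤ 0 then (1 : ℝ) else 0) := by
        split_ifs <;> norm_num
      positivity
  -- assembly
  have s4 : (k : ℝ) * (((k + T).choose T : ℝ) * ∑ s : Equiv.Perm (Fin N),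
        (if YYG x a k (blk N k 0 ∪ rk N k) (im (rk N k) s) s then (1 : ℝ) else 0)) ≤
      700 * T * ((k + T).choose T : ℝ) * lam x a k := by
    rw [s2, Finset.mul_sum]
    unfold lam
    rw [YY_cnt_sum, Finset.mul_sum]
    exact Finset.sum_le_sum (fun s _ => s3 s)
  have hC : (0 : ℝ) < ((k + T).choose T : ℝ) := by
    exact_mod_cast Nat.choose_pos (Nat.le_add_left T k)
  have hk0 : (0 : ℝ) ≤ (k : ℝ) := Nat.cast_nonneg k
  have s5 : ((k + T).choose T : ℝ) * ((k : ℝ) * cnt (fun s => jj x a k s = 0 ∧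
      ∑ p ∈ blk N k 0, x (s p) ^ 2 ≤ 150 * sm x (rk N k) s ^ 2)) ≤
      ((k + T).choose T : ℝ) * (700 * T * lam x a k) := by
    calc ((k + T).choose T : ℝ) * ((k : ℝ) * cnt (fun s => jj x a k s = 0 ∧
          ∑ p ∈ blk N k 0, x (s p) ^ 2 ≤ 150 * sm x (rk N k) s ^ 2))
        ≤ ((k + T).choose T : ℝ) * ((k : ℝ) * ∑ s : Equiv.Perm (Fin N),
        (if YYG x a k (blk N k 0 ∪ rk N k) (im (rk N k) s) s then (1 : ℝ) else 0)) := by
          apply mul_le_mul_of_nonneg_left _ hC.le
          exact mul_le_mul_of_nonneg_left s1 hk0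
      _ = (k : ℝ) * (((k + T).choose T : ℝ) * ∑ s : Equiv.Perm (Fin N),
        (if YYG x a k (blk N k 0 ∪ rk N k) (im (rk N k) s) s then (1 : ℝ) else 0)) := by ring
      _ ≤ 700 * T * ((k + T).choose T : ℝ) * lam x a k := s4
      _ = ((k + T).choose T : ℝ) * (700 * T * lam x a k) := by ring
  exact le_of_mul_le_mul_left s5 hC

end Pool.MMq
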